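import Pool.Agent.Lib.LTree.TB

/-!
# The Cayley tree of a free group

PROOF (the same as for `bs` in `BS.lean`, with `P = 1`). `V = A`, `E = A × J` (`A` acts by left multiplication; define the action on `A × J` by `g • (a, i) = (g * a, i)`), `o (a, i) = a`, `t (a, i) = a * z i`.
* `conn`: the set `C` of the `a : A` such that `b` and `b * a` are equivalent for all `b` is a subgroup which contains the `z i`; so `C = ⊤` (`gen`).
* `pot`: `X = FreeGroup (A × J)`; `Θ : A →* Equiv.Perm (A × X)` by `univ`, `z i ↦` the permutation `(a, η) ↦ (a * (z i)⁻¹, η * (of (a * (z i)⁻¹, i))⁻¹)` with inverse `(a, η) ↦ (a * z i, η * of (a, i))`. By `gen`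
  `(Θ b (a, η)).1 = a * b⁻¹`. `μ a = (Θ a⁻¹ (1, 1)).2`; `Θ (a * z i)⁻¹ = Θ (z i)⁻¹ * Θ a⁻¹` gives `μ (a * z i) = μ a * of (a, i)`.
-/

set_option autoImplicit false

open scoped Classical

namespace Pool.Agent.LTree

open Pool.Agent.LOTI

/-- the action of `A` on the edges -/
@[reducible] private def cayActE (A J : Type) [Group A] : MulAction A (A × J) where
  smul g e := (g * e.1, e.2)
  one_smul e := by
    show ((1 : A) * e.1, e.2) = e
    rw [one_mul]
  mul_smul g h e := by
    show ((g * h) * e.1, e.2) = (g * (h * e.1), e.2)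
    rw [mul_assoc]

/-- the permutation which belongs to the generator `z i` -/
private def cayPerm {A J : Type} [Group A] (z : J → A) (i : J) :
    Equiv.Perm (A × FreeGroup (A × J)) where
  toFun p := (p.1 * (z i)⁻¹, p.2 * (FreeGroup.of (p.1 * (z i)⁻¹, i))⁻¹)
  invFun p := (p.1 * z i, p.2 * FreeGroup.of (p.1, i))
  left_inv p := by
    apply Prod.ext
    · show p.1 * (z i)⁻¹ * z i = p.1
      rw [inv_mul_cancel_right]
    · show p.2 * (FreeGroup.of (p.1 * (z i)⁻¹, i))⁻¹ * FreeGroup.of (p.1 * (z i)⁻¹, i) = p.2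
      rw [inv_mul_cancel_right]
  right_inv p := by
    apply Prod.ext
    · show p.1 * z i * (z i)⁻¹ = p.1
      rw [mul_inv_cancel_right]
    · show p.2 * FreeGroup.of (p.1, i) * (FreeGroup.of (p.1 * z i * (z i)⁻¹, i))⁻¹ = p.2
      rw [mul_inv_cancel_right, mul_inv_cancel_right]

/-- the potential -/
private theorem cay_pot {A J : Type} [Group A] (z : J → A)
    (gen : ∀ H : Subgroup A, (∀ i, z i ∈ H) → H = ⊤)
    (univ : ∀ (Y : Type) [Group Y] (u : J → Y), ∃ F : A →* Y, ∀ i, F (z i) = u i) :
    ∃ μ : A → FreeGroup (A × J), ∀ (a : A) (i : J), μ (a * z i) = μ a * FreeGroup.of (a, i) := by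
  obtain ⟨Θ, hΘ⟩ := univ (Equiv.Perm (A × FreeGroup (A × J))) (cayPerm z)
  have hfst : ∀ (b : A) (p : A × FreeGroup (A × J)), (Θ b p).1 = p.1 * b⁻¹ := by
    let H : Subgroup A :=
      { carrier := {b | ∀ p : A × FreeGroup (A × J), (Θ b p).1 = p.1 * b⁻¹}
        mul_mem' := by
          intro b c hb hc p
          rw [map_mul, Equiv.Perm.mul_apply, hb, hc, mul_inv_rev, mul_assoc]
        one_mem' := by
          intro p
          rw [map_one, Equiv.Perm.one_apply, inv_one, mul_one]
        inv_mem' := by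
          intro b hb p
          have h1 := hb (Θ b⁻¹ p)
          have h2 : Θ b (Θ b⁻¹ p) = p := by
            rw [← Equiv.Perm.mul_apply, ← map_mul, mul_inv_cancel, map_one, Equiv.Perm.one_apply]
          rw [h2] at h1
          rw [inv_inv, h1, inv_mul_cancel_right] }
    have hH : H = ⊤ := gen H (by
      intro i p
      show (Θ (z i) p).1 = p.1 * (z i)⁻¹
      rw [hΘ]
      rfl)
    intro b
    have hb : b ∈ H := by rw [hH]; trivial
    exact hb
  refine ⟨fun a => (Θ a⁻¹ (1, 1)).2, fun a i => ?_⟩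
  show (Θ (a * z i)⁻¹ (1, 1)).2 = (Θ a⁻¹ (1, 1)).2 * FreeGroup.of (a, i)
  have h1 : (Θ a⁻¹ (1, 1)).1 = a := by
    rw [hfst, one_mul, inv_inv]
  rw [mul_inv_rev, map_mul, Equiv.Perm.mul_apply, map_inv Θ (z i), hΘ]
  show (Θ a⁻¹ (1, 1)).2 * FreeGroup.of ((Θ a⁻¹ (1, 1)).1, i) = _
  rw [h1]

/-- the graph is connected -/
private theorem cay_conn {A J : Type} [Group A] (z : J → A)
    (gen : ∀ H : Subgroup A, (∀ i, z i ∈ H) → H = ⊤) (v w : A) :
    Relation.EqvGen (fun a b : A => ∃ e : A × J, a = e.1 ∧ b = e.1 * z e.2) v w := by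
  let H : Subgroup A :=
    { carrier := {a | ∀ b : A,
        Relation.EqvGen (fun a b : A => ∃ e : A × J, a = e.1 ∧ b = e.1 * z e.2) b (b * a)}
      mul_mem' := by
        intro a c ha hc b
        have h1 := ha b
        have h2 := hc (b * a)
        rw [mul_assoc] at h2
        exact h1.trans _ _ _ h2
      one_mem' := by
        intro b
        rw [mul_one]
        exact Relation.EqvGen.refl _
      inv_mem' := by
        intro a ha b
        have h1 := ha (b * a⁻¹)
        rw [inv_mul_cancel_right] at h1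
        exact Relation.EqvGen.symm _ _ h1 }
  have hH : H = ⊤ := gen H (fun i b => Relation.EqvGen.rel _ _ ⟨(b, i), rfl, rfl⟩)
  have hb : v⁻¹ * w ∈ H := by rw [hH]; trivial
  have h := hb v
  rwa [mul_inv_cancel_left] at h

theorem cay {A J : Type} [Group A] (z : J → A)
    (gen : ∀ H : Subgroup A, (∀ i, z i ∈ H) → H = ⊤)
    (univ : ∀ (Y : Type) [Group Y] (u : J → Y), ∃ F : A →* Y, ∀ i, F (z i) = u i) :
    ∃ T : GTree A, T.Has ⊥ ∧ ∀ (v : T.V) (g : A), g • v = v → g = 1 := by
  obtain ⟨μ, hμ⟩ := cay_pot z gen univ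
  refine ⟨{ V := A
            E := A × J
            actV := Monoid.toMulAction A
            actE := cayActE A J
            ne := ⟨1⟩
            o := fun e => e.1
            t := fun e => e.1 * z e.2
            o_smul := fun g e => rfl
            t_smul := fun g e => mul_assoc g e.1 (z e.2)
            conn := fun v w => cay_conn z gen v w
            pot := ⟨μ, fun e => hμ e.1 e.2⟩ }, ⟨?_, ?_⟩, ?_⟩
  · intro g e
    constructor
    · intro h
      have h1 : g * e.1 = e.1 := congrArg Prod.fst h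
      exact Subgroup.mem_bot.2 (mul_eq_right.1 h1)
    · intro h
      have h1 : g = 1 := Subgroup.mem_bot.1 h
      show (g * e.1, e.2) = e
      rw [h1, one_mul]
  · intro g v h
    have h1 : g = 1 := Subgroup.mem_bot.1 h
    show g * v = v
    rw [h1, one_mul]
  · intro v g h
    have h1 : g * v = v := h
    exact mul_eq_right.1 h1

end Pool.Agent.LTree
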