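import Pool.Agent.Lib.LTree.TB

/-!
# The axis of an element without fixed vertex

PROOF. Choose a vertex `v` and a path `L` with `T.W v L (y • v)` (`exists_W`) with minimal length `m` among all such pairs `(v, L)` (`Nat.find`). `m ≠ 0`, because `y • v ≠ v`. For `i : ℤ` let
`q = i / m`, `r = (i % m).toNat` (`< m`) and `ℓ i = (y ^ q • (L[r]).1, (L[r]).2)`.
(1) `(i + m) / m = i / m + 1`, `(i + m) % m = i % m`.
(2) `T.tgt (ℓ i) = T.src (ℓ (i + 1))`: for `r + 1 < m` consecutive letters of `L` (general fact: `T.W v L w` implies `tgt L[r] = src L[r+1]`, `src L[0] = v`, `tgt L[m-1] = w`), translated by `y ^ q`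
    (`src_smul`, `tgt_smul`); for `r = m - 1` `tgt L[m-1] = y • v = y • src L[0]`.
(3) let `(ℓ i).1 = (ℓ (i+1)).1` and `(ℓ i).2 ≠ (ℓ (i+1)).2`. For `r + 1 < m` this means `L = L₁ ++ (a, b) :: (a, !b) :: L₂` (cancel `y ^ q`), so `L₁ ++ L₂` is a shorter path (`W_step`). For `r = m - 1 ≥ 1`:
    `L = (a, b) :: M ++ [(y • a, !b)]` (`r = 0 = m - 1` is impossible, the two signs would be equal), and `M` is a path from `tgt (a, b)` to `src (y • a, !b) = tgt (y • a, b) = y • tgt (a, b)`,
    of length `m - 2`. Contradiction to the minimality.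
-/

set_option autoImplicit false

open scoped Classical

namespace Pool.Agent.LTree

open Pool.Agent.LOTI

variable {G : Type} [Group G]

private theorem axis_split {α : Type} (L : List α) (d : α) (r : ℕ) (h : r < L.length) :
    L = L.take r ++ L.getD r d :: L.drop (r + 1) := by
  rw [List.getD_eq_getElem L d h, List.getElem_cons_drop, List.take_append_drop]

private theorem axis_split' {α : Type} (L : List α) (d : α) (r : ℕ) (h : r + 1 < L.length) :
    L = L.take r ++ L.getD r d :: L.getD (r + 1) d :: L.drop (r + 2) := by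
  rw [List.getD_eq_getElem L d h, List.getElem_cons_drop]
  exact axis_split L d r (by omega)

private theorem axis_div {m : ℕ} (hm : 0 < m) (i : ℤ) :
    ∃ (q : ℤ) (r : ℕ), r < m ∧ i = r + m * q ∧ i / m = q ∧ (i % m).toNat = r := by
  have h1 : 0 ≤ i % (m : ℤ) := Int.emod_nonneg i (by omega)
  have h2 : i % (m : ℤ) < m := Int.emod_lt_of_pos i (by omega)
  refine ⟨i / m, (i % m).toNat, by omega, ?_, rfl, rfl⟩
  have h3 := Int.emod_add_mul_ediv i m
  rw [Int.toNat_of_nonneg h1]
  exact h3.symm

private theorem axis_div' {m : ℕ} {i q : ℤ} {r : ℕ} (hr : r < m) (hi : i = r + m * q) :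
    i / m = q ∧ (i % m).toNat = r := by
  have h := (Int.ediv_emod_unique (a := i) (b := m) (r := r) (q := q) (by omega)).2
    ⟨hi.symm, by omega, by omega⟩
  refine ⟨h.1, ?_⟩
  rw [h.2]
  exact Int.toNat_natCast r

theorem axis (T : GTree G) (y : G) (hy : ¬ T.Ell y) :
    ∃ (m : ℕ) (ℓ : ℤ → T.E × Bool), 0 < m ∧ (∀ i, ℓ (i + m) = (y • (ℓ i).1, (ℓ i).2)) ∧
      (∀ i, T.tgt (ℓ i) = T.src (ℓ (i + 1))) ∧
      ∀ i, (ℓ i).1 = (ℓ (i + 1)).1 → (ℓ i).2 = (ℓ (i + 1)).2 := by
  have hex : ∃ n : ℕ, ∃ (v : T.V) (L : List (T.E × Bool)), T.W v L (y • v) ∧ L.length = n := by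
    obtain ⟨v⟩ := T.ne
    obtain ⟨L, hL⟩ := GTree.exists_W (T := T) v (y • v)
    exact ⟨L.length, v, L, hL, rfl⟩
  obtain ⟨v, L, hW, hlen⟩ := Nat.find_spec hex
  have hmin : ∀ (v' : T.V) (L' : List (T.E × Bool)), T.W v' L' (y • v') →
      L.length ≤ L'.length := by
    intro v' L' h
    rw [hlen]
    exact Nat.find_min' hex ⟨v', L', h, rfl⟩
  clear hlen
  have hL : 0 < L.length := by
    rcases Nat.eq_zero_or_pos L.length with h | h
    · have h1 : L = [] := List.length_eq_zero_iff.1 h
      subst h1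
      exact absurd ⟨v, (show v = y • v from hW).symm⟩ hy
    · exact h
  obtain ⟨d, hd⟩ : ∃ d : T.E × Bool, d = L.head (List.ne_nil_of_length_pos hL) := ⟨_, rfl⟩
  clear hd
  obtain ⟨g, hg⟩ : ∃ g : ℕ → T.E × Bool, g = fun r => L.getD r d := ⟨_, rfl⟩
  obtain ⟨m, hm⟩ : ∃ m : ℕ, m = L.length := ⟨_, rfl⟩
  have hsp : ∀ r, r < m → L = L.take r ++ g r :: L.drop (r + 1) := by
    intro r hr
    rw [hg]
    exact axis_split L d r (by omega)
  have hsp' : ∀ r, r + 1 < m → L = L.take r ++ g r :: g (r + 1) :: L.drop (r + 2) := by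
    intro r hr
    rw [hg]
    exact axis_split' L d r (by omega)
  have hm0 : 0 < m := by omega
  have hA : T.src (g 0) = v := by
    have h := hW
    rw [hsp 0 hm0, GTree.W_append] at h
    obtain ⟨u, h1, h2, _⟩ := h
    have h3 : v = u := by rwa [List.take_zero] at h1
    rw [h3, h2]
  have hB : ∀ r, r + 1 < m → T.tgt (g r) = T.src (g (r + 1)) := by
    intro r hr
    have h := hW
    rw [hsp' r hr, GTree.W_append] at h
    obtain ⟨u, _, _, h3, _⟩ := h
    exact h3
  have hC : T.tgt (g (m - 1)) = y • v := by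
    have h := hW
    rw [hsp (m - 1) (by omega), GTree.W_append] at h
    obtain ⟨u, _, _, h3⟩ := h
    have h4 : L.drop (m - 1 + 1) = [] := List.drop_eq_nil_of_le (by omega)
    rw [h4] at h3
    exact h3
  have hsrc : ∀ (z : G) (r : ℕ), T.src (z • (g r).1, (g r).2) = z • T.src (g r) :=
    fun z r => GTree.src_smul z (g r).1 (g r).2
  have htgt : ∀ (z : G) (r : ℕ), T.tgt (z • (g r).1, (g r).2) = z • T.tgt (g r) :=
    fun z r => GTree.tgt_smul z (g r).1 (g r).2
  have hpow : ∀ q : ℤ, y ^ (q + 1) = y * y ^ q := by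
    intro q
    rw [add_comm, zpow_one_add]
  have hpow' : ∀ q : ℤ, y ^ (q + 1) = y ^ q * y := fun q => zpow_add_one y q
  refine ⟨m, fun i => (y ^ (i / m) • (g (i % m).toNat).1, (g (i % m).toNat).2), hm0, ?_, ?_, ?_⟩
  · intro i
    obtain ⟨q, r, hr, hi, e1, e2⟩ := axis_div hm0 i
    obtain ⟨e3, e4⟩ := axis_div' (i := i + m) (q := q + 1) hr (by rw [hi]; ring)
    simp only [e1, e2, e3, e4, hpow, smul_smul]
  · intro i
    obtain ⟨q, r, hr, hi, e1, e2⟩ := axis_div hm0 i
    by_cases h : r + 1 < m
    · obtain ⟨e3, e4⟩ := axis_div' (i := i + 1) (q := q) h (by rw [hi]; push_cast; ring)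
      simp only [e1, e2, e3, e4, hsrc, htgt]
      rw [hB r h]
    · obtain ⟨e3, e4⟩ := axis_div' (i := i + 1) (q := q + 1) hm0 (by
        have h5 : (m : ℤ) = r + 1 := by omega
        rw [hi, h5]; push_cast; ring)
      simp only [e1, e2, e3, e4, hsrc, htgt]
      have h5 : r = m - 1 := by omega
      rw [h5, hC, hA, hpow', mul_smul]
  · intro i
    obtain ⟨q, r, hr, hi, e1, e2⟩ := axis_div hm0 i
    by_cases h : r + 1 < m
    · obtain ⟨e3, e4⟩ := axis_div' (i := i + 1) (q := q) h (by rw [hi]; push_cast; ring)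
      simp only [e1, e2, e3, e4]
      intro h1
      by_contra h2
      have h3 : (g r).1 = (g (r + 1)).1 := smul_left_cancel _ h1
      have h4 : g (r + 1) = ((g r).1, !(g r).2) := by
        refine Prod.ext h3.symm ?_
        show (g (r + 1)).2 = !(g r).2
        cases h5 : (g r).2 <;> cases h6 : (g (r + 1)).2 <;> simp_all
      have h5 : T.W v (L.take r ++ (((g r).1, (g r).2) :: ((g r).1, !(g r).2) ::
          L.drop (r + 2))) (y • v) := by
        have h6 := hsp' r h
        rw [h4] at h6
        have h7 : L.take r ++ (((g r).1, (g r).2) :: ((g r).1, !(g r).2) ::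
          L.drop (r + 2)) = L := h6.symm
        rw [h7]
        exact hW
      have h6 := GTree.W_step FreeGroup.Red.Step.not h5
      have h7 := hmin v _ h6
      rw [List.length_append, List.length_take, List.length_drop] at h7
      omega
    · obtain ⟨e3, e4⟩ := axis_div' (i := i + 1) (q := q + 1) hm0 (by
        have h5 : (m : ℤ) = r + 1 := by omega
        rw [hi, h5]; push_cast; ring)
      simp only [e1, e2, e3, e4]
      have h5 : r = m - 1 := by omega
      rw [hpow', mul_smul]
      intro h1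
      by_contra h2
      have h3 : (g r).1 = y • (g 0).1 := smul_left_cancel _ h1
      have h4 : (g r).2 = !(g 0).2 := by
        cases h5 : (g r).2 <;> cases h6 : (g 0).2 <;> simp_all
      have h6 : r ≠ 0 := by
        intro h7
        rw [h7] at h2
        exact h2 rfl
      have h7 := hsp r hr
      have h8 : L.drop (r + 1) = [] := List.drop_eq_nil_of_le (by omega)
      rw [h8] at h7
      obtain ⟨s, M, hs⟩ : ∃ s M, L.take r = s :: M := by
        rcases hl : L.take r with _ | ⟨s, M⟩
        · have := congrArg List.length hl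
          rw [List.length_take, List.length_nil] at this
          omega
        · exact ⟨s, M, rfl⟩
      have hM : M.length + 1 = r := by
        have := congrArg List.length hs
        rw [List.length_take, List.length_cons] at this
        omega
      rw [hs] at h7
      have h9 : g 0 = s := by
        have h10 : L.getD 0 d = s := by
          rw [h7]
          rfl
        rw [← h10, hg]
      have h11 := hW
      rw [h7, GTree.W_append] at h11
      obtain ⟨u, ⟨_, h12⟩, h13, _⟩ := h11
      have h14 : T.src (g r) = y • T.tgt s := by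
        have h15 : g r = (y • (g 0).1, !(g 0).2) := Prod.ext h3 h4
        rw [h15, GTree.src_not, htgt, h9]
      rw [h13, h14] at h12
      have h16 := hmin _ _ h12
      omega

end Pool.Agent.LTree
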