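import Pool.Agent.Lib.LTree.TB

/-!
# The tree of a free product `(P / <<r>>) * F(z)`

PROOF. `H = j.range`. `V = A ⧸ H` (left cosets, `A` acts by left multiplication), `E = A × Bool` (`A` acts by left multiplication on the first factor: define the action, `g • (a, i) = (g * a, i)`), `o (a, i) = a H`,
`t (a, i) = a z_i H`.
* `conn`: the set `C` of the `a : A` such that `b H` and `b a H` are equivalent for all `b` is a subgroup; it contains `j p` (`b j(p) H = b H`) and `z_i` (the edge `(b, i)`); so `C = ⊤` (`h.gen`).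
* `pot`: `X = FreeGroup (A × Bool)`. Let `Θ : A →* Equiv.Perm (A × X)` be given by `h.univ` from `f : P →* Equiv.Perm (A × X)`, `f p (a, η) = (a * (j p)⁻¹, η)` (`f r = 1`, because `j r = 1`), and
  `u i = ` the permutation `(a, η) ↦ (a * (z i)⁻¹, η * (of (a * (z i)⁻¹, i))⁻¹)`, whose inverse is `(a, η) ↦ (a * z i, η * of (a, i))`. By `h.gen` `(Θ b (a, η)).1 = a * b⁻¹` for all `b`. Let
  `μ a = (Θ a⁻¹ (1, 1)).2`, so `Θ a⁻¹ (1, 1) = (a, μ a)`. `Θ (a * j p)⁻¹ = Θ (j p)⁻¹ * Θ a⁻¹`, so `μ (a * j p) = μ a` and `μ (a * z i) = μ a * of (a, i)`. So `μ` descends to `A ⧸ H`.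
* `Has ⊥`: `g * a = a` iff `g = 1`.
* the stabiliser of `g H` is `g H g⁻¹`; `v₀ = H` is fixed by `j p`.
* last statement: `μ (a H) = φ a` is well defined.
-/

set_option autoImplicit false

open scoped Classical

namespace Pool.Agent.LTree

open Pool.Agent.LOTI

/-- the action on the edges -/
@[reducible] private def bsAct (A : Type) [Group A] : MulAction A (A × Bool) where
  smul g e := (g * e.1, e.2)
  one_smul e := by
    show ((1 : A) * e.1, e.2) = e
    rw [one_mul]
  mul_smul g h e := by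
    show ((g * h) * e.1, e.2) = (g * (h * e.1), e.2)
    rw [mul_assoc]

/-- the action of `P` -/
private def bsF {P A X : Type} [Group P] [Group A] (j : P →* A) : P →* Equiv.Perm (A × X) where
  toFun p :=
    { toFun := fun y => (y.1 * (j p)⁻¹, y.2)
      invFun := fun y => (y.1 * j p, y.2)
      left_inv := fun y => by
        show (y.1 * (j p)⁻¹ * j p, y.2) = y
        rw [inv_mul_cancel_right]
      right_inv := fun y => by
        show (y.1 * j p * (j p)⁻¹, y.2) = y
        rw [mul_inv_cancel_right] }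
  map_one' := by
    ext1 y
    show (y.1 * (j 1)⁻¹, y.2) = y
    rw [map_one, inv_one, mul_one]
  map_mul' p q := by
    ext1 y
    show (y.1 * (j (p * q))⁻¹, y.2) = (y.1 * (j q)⁻¹ * (j p)⁻¹, y.2)
    rw [map_mul, mul_inv_rev, mul_assoc]

/-- the action of `z i` -/
private def bsU {A : Type} [Group A] (z : Bool → A) (i : Bool) :
    Equiv.Perm (A × FreeGroup (A × Bool)) where
  toFun y := (y.1 * (z i)⁻¹, y.2 * (FreeGroup.of (y.1 * (z i)⁻¹, i))⁻¹)
  invFun y := (y.1 * z i, y.2 * FreeGroup.of (y.1, i))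
  left_inv y := by
    show (y.1 * (z i)⁻¹ * z i, y.2 * (FreeGroup.of (y.1 * (z i)⁻¹, i))⁻¹ *
      FreeGroup.of (y.1 * (z i)⁻¹, i)) = y
    rw [inv_mul_cancel_right, inv_mul_cancel_right]
  right_inv y := by
    show (y.1 * z i * (z i)⁻¹, y.2 * FreeGroup.of (y.1, i) *
      (FreeGroup.of (y.1 * z i * (z i)⁻¹, i))⁻¹) = y
    rw [mul_inv_cancel_right, mul_inv_cancel_right]

private theorem bs_pot {P A : Type} [Group P] [Group A] (j : P →* A) (r : P) (h : Split j r) :
    ∃ μ : A → FreeGroup (A × Bool), (∀ a p, μ (a * j p) = μ a) ∧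
      ∀ a i, μ (a * h.z i) = μ a * FreeGroup.of (a, i) := by
  have hr : (bsF j : P →* Equiv.Perm (A × FreeGroup (A × Bool))) r = 1 := by
    ext1 y
    show (y.1 * (j r)⁻¹, y.2) = y
    rw [h.kill, inv_one, mul_one]
  obtain ⟨Θ, hΘ1, hΘ2⟩ := h.univ (Equiv.Perm (A × FreeGroup (A × Bool))) (bsF j) (bsU h.z) hr
  have key : ∀ (b : A) (y : A × FreeGroup (A × Bool)), (Θ b y).1 = y.1 * b⁻¹ := by
    let C : Subgroup A :=
      { carrier := {b | ∀ y : A × FreeGroup (A × Bool), (Θ b y).1 = y.1 * b⁻¹}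
        mul_mem' := by
          intro b c hb hc y
          rw [map_mul]
          show (Θ b (Θ c y)).1 = _
          rw [hb, hc, mul_inv_rev, mul_assoc]
        one_mem' := by
          intro y
          rw [map_one, inv_one, mul_one]
          rfl
        inv_mem' := by
          intro b hb y
          have h1 := hb (Θ b⁻¹ y)
          have h2 : Θ b (Θ b⁻¹ y) = y := by
            rw [← Equiv.Perm.mul_apply, ← map_mul, mul_inv_cancel, map_one]
            rfl
          rw [h2] at h1
          rw [h1, inv_inv, inv_mul_cancel_right] }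
    have hC : C = ⊤ := by
      refine h.gen C ?_ ?_
      · intro p y
        rw [hΘ1]
        rfl
      · intro i y
        rw [hΘ2]
        rfl
    intro b
    have h1 : b ∈ C := by
      rw [hC]
      exact Subgroup.mem_top b
    exact h1
  have hμ : ∀ a, Θ a⁻¹ (1, 1) = (a, (Θ a⁻¹ (1, 1)).2) := by
    intro a
    have h1 := key a⁻¹ (1, 1)
    rw [inv_inv, one_mul] at h1
    exact Prod.ext h1 rfl
  have hmul : ∀ a b, Θ (a * b)⁻¹ (1, 1) = (Θ b)⁻¹ (a, (Θ a⁻¹ (1, 1)).2) := by
    intro a b
    rw [mul_inv_rev, map_mul, Equiv.Perm.mul_apply, hμ a, map_inv]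
  refine ⟨fun a => (Θ a⁻¹ (1, 1)).2, ?_, ?_⟩
  · intro a p
    show (Θ (a * j p)⁻¹ (1, 1)).2 = _
    rw [hmul, hΘ1]
    rfl
  · intro a i
    show (Θ (a * h.z i)⁻¹ (1, 1)).2 = _
    rw [hmul, hΘ2]
    rfl

/-- the tree -/
private def bsT {P A : Type} [Group P] [Group A] (j : P →* A) (r : P) (h : Split j r) :
    GTree A where
  V := A ⧸ j.range
  E := A × Bool
  actV := inferInstance
  actE := bsAct A
  ne := ⟨QuotientGroup.mk 1⟩
  o e := QuotientGroup.mk e.1
  t e := QuotientGroup.mk (e.1 * h.z e.2)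
  o_smul g e := rfl
  t_smul g e := by
    show (QuotientGroup.mk (g * e.1 * h.z e.2) : A ⧸ j.range) =
      QuotientGroup.mk (g * (e.1 * h.z e.2))
    rw [mul_assoc]
  conn := by
    have key : ∀ a b : A, Relation.EqvGen (fun x y : A ⧸ j.range =>
        ∃ e : A × Bool, x = QuotientGroup.mk e.1 ∧ y = QuotientGroup.mk (e.1 * h.z e.2))
        (QuotientGroup.mk b) (QuotientGroup.mk (b * a)) := by
      let C : Subgroup A :=
        { carrier := {a | ∀ b : A, Relation.EqvGen (fun x y : A ⧸ j.range =>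
            ∃ e : A × Bool, x = QuotientGroup.mk e.1 ∧ y = QuotientGroup.mk (e.1 * h.z e.2))
            (QuotientGroup.mk b) (QuotientGroup.mk (b * a))}
          mul_mem' := by
            intro a a' ha ha' b
            have h1 := ha' (b * a)
            rw [mul_assoc] at h1
            exact Relation.EqvGen.trans _ _ _ (ha b) h1
          one_mem' := by
            intro b
            rw [mul_one]
            exact Relation.EqvGen.refl _
          inv_mem' := by
            intro a ha b
            have h1 := ha (b * a⁻¹)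
            rw [inv_mul_cancel_right] at h1
            exact Relation.EqvGen.symm _ _ h1 }
      have hC : C = ⊤ := by
        refine h.gen C ?_ ?_
        · intro p b
          have h1 : (QuotientGroup.mk (b * j p) : A ⧸ j.range) = QuotientGroup.mk b :=
            QuotientGroup.mk_mul_of_mem b ⟨p, rfl⟩
          rw [h1]
          exact Relation.EqvGen.refl _
        · intro i b
          exact Relation.EqvGen.rel _ _ ⟨(b, i), rfl, rfl⟩
      intro a
      have h1 : a ∈ C := by
        rw [hC]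
        exact Subgroup.mem_top a
      exact h1
    intro v w
    obtain ⟨a, rfl⟩ := QuotientGroup.mk_surjective v
    obtain ⟨b, rfl⟩ := QuotientGroup.mk_surjective w
    have h1 := key (a⁻¹ * b) a
    rw [mul_inv_cancel_left] at h1
    exact h1
  pot := by
    obtain ⟨μ, h1, h2⟩ := bs_pot j r h
    have h3 : ∀ a : A, μ (QuotientGroup.mk a : A ⧸ j.range).out = μ a := by
      intro a
      obtain ⟨⟨_, p, rfl⟩, h4⟩ := QuotientGroup.mk_out_eq_mul j.range a
      rw [h4]
      exact h1 a p
    refine ⟨fun v => μ v.out, fun e => ?_⟩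
    show μ (QuotientGroup.mk (e.1 * h.z e.2) : A ⧸ j.range).out =
      μ (QuotientGroup.mk e.1 : A ⧸ j.range).out * FreeGroup.of e
    rw [h3, h3, h2]

theorem bs {P A : Type} [Group P] [Group A] (j : P →* A) (r : P) (h : Split j r) :
    ∃ T : GTree A, T.Has ⊥ ∧
      (∀ (v : T.V) (a : A), a • v = v → ∃ (g : A) (p : P), a = g * j p * g⁻¹) ∧
      (∃ v₀ : T.V, ∀ p : P, j p • v₀ = v₀) ∧
      ∀ (k : Type) [Field k], ∀ φ ∈ HH k A, (∀ p, φ (j p) = 0) →
        ∃ μ : T.V → k, ∀ (g : A) (v : T.V), μ (g • v) = μ v + φ g := by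
  refine ⟨bsT j r h, ⟨?_, ?_⟩, ?_, ⟨(QuotientGroup.mk 1 : A ⧸ j.range), ?_⟩, ?_⟩
  · rintro g ⟨a, i⟩
    constructor
    · intro h1
      have h2 : g * a = a := congrArg Prod.fst h1
      rw [Subgroup.mem_bot]
      exact mul_eq_right.1 h2
    · intro h1
      rw [Subgroup.mem_bot] at h1
      rw [h1]
      exact (bsT j r h).actE.one_smul (a, i)
  · intro g v h1
    rw [Subgroup.mem_bot] at h1
    rw [h1]
    exact one_smul _ _
  · intro v a h1
    obtain ⟨b, rfl⟩ := QuotientGroup.mk_surjective (s := j.range) v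
    have h2 : (QuotientGroup.mk b : A ⧸ j.range) = QuotientGroup.mk (a * b) := h1.symm
    rw [QuotientGroup.eq] at h2
    obtain ⟨p, hp⟩ := h2
    refine ⟨b, p, ?_⟩
    rw [hp]
    group
  · intro p
    show (QuotientGroup.mk (j p * 1) : A ⧸ j.range) = QuotientGroup.mk 1
    rw [mul_one, eq_comm, QuotientGroup.eq, inv_one, one_mul]
    exact ⟨p, rfl⟩
  · intro k _ φ hφ hj
    have h3 : ∀ a : A, φ (QuotientGroup.mk a : A ⧸ j.range).out = φ a := by
      intro a
      obtain ⟨⟨_, p, rfl⟩, h4⟩ := QuotientGroup.mk_out_eq_mul j.range a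
      rw [h4]
      have h5 := hφ a (j p)
      rw [hj, add_zero] at h5
      exact h5
    refine ⟨fun v => φ (v : A ⧸ j.range).out, ?_⟩
    intro g v
    obtain ⟨b, rfl⟩ := QuotientGroup.mk_surjective (s := j.range) v
    show φ (QuotientGroup.mk (g * b) : A ⧸ j.range).out =
      φ (QuotientGroup.mk b : A ⧸ j.range).out + φ g
    rw [h3, h3, hφ g b, add_comm]

end Pool.Agent.LTree
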