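import Pool.Agent.Lib.LTree.Build

/-!
# Blow-up of a tree

STATEMENT. `T` a `G`-tree with trivial edge stabilisers, `S` a `G`-tree with the edge stabilisers `L`, and the vertex stabilisers of `T` meet `L` trivially. Then there
is a `G`-tree `R` with trivial edge stabilisers and a map `R → S`, such that every `g` which is elliptic in `T` and in `S` is elliptic in `R`.

PROOF (every vertex of `T` is replaced by a copy of `S`). Choose an equivariant map `w : T.E → S.V` (`T.E` is a free `G`-set, `hT.1`: choose a representative `s e` of every orbit,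
`Quotient.out` for `MulAction.orbitRel G T.E`, the unique `p e` with `e = p e • s e`, a point `w₀ : S.V` and put `w e = p e • w₀`; `p (g • e) = g * p e`).
Apply `build` with the vertex set `T.V × S.V` and the edge set `T.V × S.E` (diagonal actions: `Prod.mulAction` gives `g • (v, w) = (g • v, g • w)`), `o (v, ε) = (v, S.o ε)`,
`t (v, ε) = (v, S.t ε)`, `R₀ a b := ∃ e : T.E, a = (T.o e, w e) ∧ b = (T.t e, w e)`.
* `conn`: `(v, w)` and `(v, w')` are connected (image of `S.conn`), `(T.o e, w e)` and `(T.t e, w e)` by a silent edge, and `T.conn`.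
* `pot`: `F = FreeGroup (T.V × S.E)`. For every `v` let `μ v : S.V → F` be a potential of `ε ↦ of (v, ε)` (`S.exists_pot`), and let `h : T.V → F` be a potential of
  `e ↦ μ (T.o e) (w e) * (μ (T.t e) (w e))⁻¹` (`T.exists_pot`), i.e. `h (T.t e) * μ (T.t e) (w e) = h (T.o e) * μ (T.o e) (w e)`. Take `(v, w) ↦ h v * μ v w`.
* `Has ⊥`: `g • (v, ε) = (v, ε)` iff `g • v = v` and `g ∈ L`, so `g = 1` by `h`; the second part is trivial (`g = 1`).
* the map to `S`: `(v, w) ↦ w` (`Quot.lift`, the silent edges are mapped to a point), `(v, ε) ↦ ε`.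
* if `g • v = v` and `g • w = w` then `g` fixes the class of `(v, w)`.
-/

set_option autoImplicit false

open scoped Classical

namespace Pool.Agent.LTree

open Pool.Agent.LOTI

variable {G : Type} [Group G]

/-- an equivariant map from a free `G`-set -/
theorem blow_exists_equiv (E V : Type) [MulAction G E] [MulAction G V] [Nonempty V]
    (hfree : ∀ (g : G) (e : E), g • e = e → g = 1) :
    ∃ w : E → V, ∀ (g : G) (e : E), w (g • e) = g • w e := by
  let s : E → E := fun e => (Quotient.mk (MulAction.orbitRel G E) e).out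
  have hrep : ∀ e : E, ∃ g : G, g • s e = e := by
    intro e
    have h1 : (MulAction.orbitRel G E) (s e) e := Quotient.mk_out e
    rw [MulAction.orbitRel_apply, MulAction.mem_orbit_iff] at h1
    obtain ⟨g, hg⟩ := h1
    exact ⟨g⁻¹, by rw [← hg, inv_smul_smul]⟩
  choose p hp using hrep
  obtain ⟨w₀⟩ := ‹Nonempty V›
  refine ⟨fun e => p e • w₀, fun g e => ?_⟩
  have hs : s (g • e) = s e := by
    show (Quotient.mk (MulAction.orbitRel G E) (g • e)).out =
      (Quotient.mk (MulAction.orbitRel G E) e).out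
    congr 1
    apply Quotient.sound
    exact ⟨g, rfl⟩
  have h1 : p (g • e) • s e = g • p e • s e := by
    rw [hp e]
    have := hp (g • e)
    rwa [hs] at this
  have h2 : (g * p e)⁻¹ * p (g • e) = 1 := by
    apply hfree _ (s e)
    rw [mul_smul, h1, ← mul_smul g, inv_smul_smul]
  show p (g • e) • w₀ = g • p e • w₀
  rw [← mul_smul, ← inv_mul_eq_one.1 h2]

theorem blow (T S : GTree G) (L : Subgroup G) (hT : T.Has ⊥) (hS : S.Has L)
    (h : ∀ (v : T.V) (g : G), g • v = v → g ∈ L → g = 1) :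
    ∃ R : GTree G, R.Has ⊥ ∧ Nonempty (R.Hom S) ∧ ∀ g : G, T.Ell g → S.Ell g → R.Ell g := by
  obtain ⟨w, hw⟩ := blow_exists_equiv (G := G) T.E S.V
    (fun g e he => Subgroup.mem_bot.1 ((hT.1 g e).1 he))
  let o : T.V × S.E → T.V × S.V := fun a => (a.1, S.o a.2)
  let t : T.V × S.E → T.V × S.V := fun a => (a.1, S.t a.2)
  let R₀ : T.V × S.V → T.V × S.V → Prop := fun a b =>
    ∃ e : T.E, a = (T.o e, w e) ∧ b = (T.t e, w e)
  have ho : ∀ (g : G) (e : T.V × S.E), o (g • e) = g • o e := by
    rintro g ⟨v, ε⟩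
    exact Prod.ext rfl (S.o_smul g ε)
  have ht : ∀ (g : G) (e : T.V × S.E), t (g • e) = g • t e := by
    rintro g ⟨v, ε⟩
    exact Prod.ext rfl (S.t_smul g ε)
  have hR : ∀ (g : G) (a b : T.V × S.V), R₀ a b → R₀ (g • a) (g • b) := by
    rintro g a b ⟨e, rfl, rfl⟩
    exact ⟨g • e, Prod.ext (T.o_smul g e).symm (hw g e).symm,
      Prod.ext (T.t_smul g e).symm (hw g e).symm⟩
  let Q : T.V × S.V → T.V × S.V → Prop := fun a b => R₀ a b ∨ ∃ e, a = o e ∧ b = t e
  have c1 : ∀ (v : T.V) (x y : S.V), Relation.EqvGen Q (v, x) (v, y) := by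
    intro v x y
    have h1 := S.conn x y
    induction h1 with
    | rel a b h =>
      obtain ⟨e, rfl, rfl⟩ := h
      exact Relation.EqvGen.rel _ _ (Or.inr ⟨(v, e), rfl, rfl⟩)
    | refl a => exact Relation.EqvGen.refl _
    | symm a b _ ih => exact Relation.EqvGen.symm _ _ ih
    | trans a b c _ _ ih1 ih2 => exact Relation.EqvGen.trans _ _ _ ih1 ih2
  have c2 : ∀ (v v' : T.V), ∀ x y : S.V, Relation.EqvGen Q (v, x) (v', y) := by
    intro v v'
    have h1 := T.conn v v'
    induction h1 with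
    | rel a b h =>
      obtain ⟨e, rfl, rfl⟩ := h
      intro x y
      exact Relation.EqvGen.trans _ _ _ (c1 _ x (w e))
        (Relation.EqvGen.trans _ _ _ (Relation.EqvGen.rel _ _ (Or.inl ⟨e, rfl, rfl⟩))
          (c1 _ (w e) y))
    | refl a => exact fun x y => c1 a x y
    | symm a b _ ih => exact fun x y => Relation.EqvGen.symm _ _ (ih y x)
    | trans a b c _ _ ih1 ih2 =>
      exact fun x y => Relation.EqvGen.trans _ _ _ (ih1 x x) (ih2 x y)
  have conn : ∀ a b : T.V × S.V, Relation.EqvGen Q a b := fun a b => c2 a.1 b.1 a.2 b.2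
  have pot : ∃ μ : T.V × S.V → FreeGroup (T.V × S.E),
      (∀ e, μ (t e) = μ (o e) * FreeGroup.of e) ∧ ∀ a b, R₀ a b → μ a = μ b := by
    have h1 : ∀ v : T.V, ∃ μ : S.V → FreeGroup (T.V × S.E),
        ∀ e, μ (S.t e) = μ (S.o e) * FreeGroup.of (v, e) := fun v =>
      S.exists_pot fun e => FreeGroup.of (v, e)
    choose μ hμ using h1
    obtain ⟨k, hk⟩ := T.exists_pot fun e => μ (T.o e) (w e) * (μ (T.t e) (w e))⁻¹
    refine ⟨fun a => k a.1 * μ a.1 a.2, ?_, ?_⟩
    · rintro ⟨v, e⟩
      show k v * μ v (S.t e) = k v * μ v (S.o e) * FreeGroup.of (v, e)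
      rw [hμ, mul_assoc]
    · rintro a b ⟨e, rfl, rfl⟩
      show k (T.o e) * μ (T.o e) (w e) = k (T.t e) * μ (T.t e) (w e)
      rw [hk e]
      group
  refine ⟨build (T.V × S.V) (T.V × S.E) o t ho ht R₀ hR conn pot, ⟨?_, ?_⟩, ⟨?_⟩, ?_⟩
  · rintro g ⟨v, e⟩
    constructor
    · intro h1
      have h2 : (g • v, g • e) = (v, e) := h1
      rw [Prod.mk.injEq] at h2
      exact Subgroup.mem_bot.2 (h v g h2.1 ((hS.1 g e).1 h2.2))
    · intro h1
      rw [Subgroup.mem_bot.1 h1]
      exact one_smul G _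
  · intro g v h1
    rw [Subgroup.mem_bot.1 h1]
    exact one_smul G v
  · exact
      { fV := Quot.lift (fun a : T.V × S.V => a.2) (by rintro a b ⟨e, rfl, rfl⟩; rfl)
        fE := fun a => a.2
        fV_smul := by
          rintro g ⟨a⟩
          rfl
        fE_smul := fun g a => rfl
        fV_o := fun e => rfl
        fV_t := fun e => rfl }
  · rintro g ⟨v, hv⟩ ⟨x, hx⟩
    refine ⟨Quot.mk _ (v, x), ?_⟩
    exact congrArg (Quot.mk _) (Prod.ext hv hx)

end Pool.Agent.LTree
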