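import Pool.Agent.Lib.LTree.TB

/-!
# Trees from graphs with silent edges

`build`: a connected graph with ordinary edges `E` and a `G`-invariant relation `R` (silent edges), with a
potential into `FreeGroup E` which is constant along the silent edges, gives a `G`-tree with the vertex
set `Quot R`.
-/

set_option autoImplicit false

open scoped Classical

namespace Pool.Agent.LTree

open Pool.Agent.LOTI

variable {G : Type} [Group G]

/-- the action on the quotient by an invariant relation -/
@[reducible] def quotAct (V : Type) [MulAction G V] (R : V → V → Prop)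
    (hR : ∀ (g : G) (a b : V), R a b → R (g • a) (g • b)) : MulAction G (Quot R) where
  smul g := Quot.map (g • ·) (hR g)
  one_smul := by
    rintro ⟨v⟩
    exact congrArg (Quot.mk R) (one_smul G v)
  mul_smul := by
    rintro g h ⟨v⟩
    exact congrArg (Quot.mk R) (mul_smul g h v)

/-- the quotient of a graph by the silent edges -/
def build (V E : Type) [MulAction G V] [MulAction G E] [Nonempty V] (o t : E → V)
    (ho : ∀ (g : G) (e : E), o (g • e) = g • o e) (ht : ∀ (g : G) (e : E), t (g • e) = g • t e)
    (R : V → V → Prop) (hR : ∀ (g : G) (a b : V), R a b → R (g • a) (g • b))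
    (conn : ∀ v w : V, Relation.EqvGen (fun a b => R a b ∨ ∃ e, a = o e ∧ b = t e) v w)
    (pot : ∃ μ : V → FreeGroup E, (∀ e, μ (t e) = μ (o e) * FreeGroup.of e) ∧
      ∀ a b, R a b → μ a = μ b) : GTree G where
  V := Quot R
  E := E
  actV := quotAct V R hR
  actE := inferInstance
  ne := ⟨Quot.mk R (Classical.arbitrary V)⟩
  o e := Quot.mk R (o e)
  t e := Quot.mk R (t e)
  o_smul g e := congrArg (Quot.mk R) (ho g e)
  t_smul g e := congrArg (Quot.mk R) (ht g e)
  conn := by
    rintro ⟨v⟩ ⟨w⟩
    have h := conn v w
    induction h with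
    | rel a b h =>
      rcases h with h | ⟨e, rfl, rfl⟩
      · have h1 : Quot.mk R a = Quot.mk R b := Quot.sound h
        show Relation.EqvGen _ (Quot.mk R a) (Quot.mk R b)
        rw [h1]
        exact Relation.EqvGen.refl _
      · exact Relation.EqvGen.rel _ _ ⟨e, rfl, rfl⟩
    | refl a => exact Relation.EqvGen.refl _
    | symm a b _ ih => exact Relation.EqvGen.symm _ _ ih
    | trans a b c _ _ ih1 ih2 => exact Relation.EqvGen.trans _ _ _ ih1 ih2
  pot := by
    obtain ⟨μ, h1, h2⟩ := pot
    exact ⟨Quot.lift μ h2, h1⟩

end Pool.Agent.LTree
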