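import Pool.Agent.Lib.LTree.XDefs
import Pool.Agent.Lib.LOTI.Forest

/-!
# LOTs whose initial graph has exactly two components

PROOF. Use `LOTI.cst Γ.lab Γ.init S` (module Forest: components of the graph with the edges `S`). Let `S` be a `Finset E` of maximal cardinality with
`S.card + Nat.card (Quotient (cst Γ.lab Γ.init S)) ≤ Fintype.card V` (`∅` has this property).
(1) for `e ∉ S` `lab e` and `init e` are equivalent for `S`: otherwise `Nat.card (Quotient (cst (insert e S))) + 1 ≤ Nat.card (Quotient (cst S))` (the natural map of the quotients is onto and not injective), so `insert e S` has the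
    property too.
(2) so the classes of `S` are those of all edges, i.e. of `Γ.IAdj`; there are exactly two (`a`, `b`), so `S.card + 2 ≤ card V`, and `card V ≤ S.card + 2` by `card_le`. With `Γ.card` `S.card + 1 = card E`, so there is `e₁` with `S = univ \ {e₁}`.
`κ v = decide (EqvGen Γ.IAdj b v)`, `b true = b`, `b false = a`. `hκ`: clear.
`g : V → FreeGroup E` from `forest Γ.lab Γ.init S _ FreeGroup.of`: `g (init e) = g (lab e) * of e` for `e ≠ e₁`. `l = (g (lab e₁))⁻¹ * g (init e₁) * (of e₁)⁻¹`.
`pot`: clear for `e ≠ e₁`; for `e₁` `f (g (init e₁)) = f (g (lab e₁)) * f l * f (of e₁)`.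
`const`: the function `v ↦ f v * (II Γ f (g v))⁻¹` has the same value at `lab e`, `init e` for `e ≠ e₁` (`II Γ f (of e) = (f (lab e))⁻¹ * f (init e)`), so it is constant on the classes of `S`, which are the fibres of `κ`.
`closed`: `const` for `lab e₁`, `init e₁` gives `(II f (g (lab e₁)))⁻¹ * II f (g (init e₁)) = (f (lab e₁))⁻¹ * f (init e₁) = II f (of e₁)`.
-/

set_option autoImplicit false

open scoped Classical

namespace Pool.Agent.LTree

open Pool.Agent.LOTI

variable {V E : Type} [Fintype V] [Fintype E]

private theorem comb_mono {a b : E → V} {S T : Finset E} (hST : S ⊆ T) {v w : V}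
    (h : (cst a b S) v w) : (cst a b T) v w := by
  have h1 : ∀ x y, (∃ e ∈ S, x = a e ∧ y = b e) → ∃ e ∈ T, x = a e ∧ y = b e := by
    rintro x y ⟨e, he, hx, hy⟩
    exact ⟨e, hST he, hx, hy⟩
  exact Relation.EqvGen.mono h1 _ _ h

private theorem comb_edge (a b : E → V) {S : Finset E} {e : E} (he : e ∈ S) :
    (cst a b S) (a e) (b e) :=
  Relation.EqvGen.rel _ _ ⟨e, he, rfl, rfl⟩

/-- a set of edges of maximal cardinality without cycles spans all components -/
private theorem comb_max (a b : E → V) : ∃ S : Finset E,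
    S.card + Nat.card (Quotient (cst a b S)) ≤ Fintype.card V ∧
      ∀ e, (cst a b S) (a e) (b e) := by
  have hne : (Finset.univ.filter fun S : Finset E =>
      S.card + Nat.card (Quotient (cst a b S)) ≤ Fintype.card V).Nonempty := by
    refine ⟨∅, ?_⟩
    rw [Finset.mem_filter]
    refine ⟨Finset.mem_univ _, ?_⟩
    rw [Finset.card_empty, zero_add, ← Nat.card_eq_fintype_card]
    exact Nat.card_le_card_of_surjective (fun v => Quotient.mk (cst a b ∅) v)
      Quotient.mk_surjective
  obtain ⟨S, hS, hmax⟩ := Finset.exists_max_image _ Finset.card hne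
  rw [Finset.mem_filter] at hS
  refine ⟨S, hS.2, fun e => ?_⟩
  by_cases he : e ∈ S
  · exact comb_edge a b he
  by_contra hcon
  have hfin : Finite (Quotient (cst a b S)) := Quotient.finite _
  have hfin' : Finite (Quotient (cst a b (insert e S))) := Quotient.finite _
  let f : Quotient (cst a b S) → Quotient (cst a b (insert e S)) :=
    Quotient.map id (fun _ _ h => comb_mono (Finset.subset_insert e S) h)
  have hsurj : Function.Surjective f := by
    intro q
    induction q using Quotient.inductionOn with
    | h v => exact ⟨Quotient.mk _ v, rfl⟩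
  have hninj : ¬ Function.Injective f := by
    intro hinj
    have h1 : f (Quotient.mk _ (a e)) = f (Quotient.mk _ (b e)) :=
      Quotient.sound (comb_edge a b (Finset.mem_insert_self e S))
    exact hcon (Quotient.exact (hinj h1))
  have hlt : Nat.card (Quotient (cst a b (insert e S))) < Nat.card (Quotient (cst a b S)) := by
    refine lt_of_le_of_ne (Nat.card_le_card_of_surjective f hsurj) ?_
    intro heq
    apply hninj
    have hbij : Function.Bijective f :=
      (Nat.bijective_iff_surjective_and_card f).2 ⟨hsurj, heq.symm⟩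
    exact hbij.1
  have h2 : insert e S ∈ Finset.univ.filter fun S : Finset E =>
      S.card + Nat.card (Quotient (cst a b S)) ≤ Fintype.card V := by
    rw [Finset.mem_filter, Finset.card_insert_of_notMem he]
    exact ⟨Finset.mem_univ _, by have := hS.2; omega⟩
  have h3 := hmax _ h2
  rw [Finset.card_insert_of_notMem he] at h3
  omega

theorem exists_two (Γ : LOT V E) (a b : V) (hab : ¬ Relation.EqvGen Γ.IAdj a b)
    (h : ∀ v, Relation.EqvGen Γ.IAdj a v ∨ Relation.EqvGen Γ.IAdj b v) : Nonempty (Two Γ) := by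
  obtain ⟨S, hS, hall⟩ := comb_max Γ.lab Γ.init
  have hiff : ∀ v w, (cst Γ.lab Γ.init S) v w ↔ Relation.EqvGen Γ.IAdj v w := by
    intro v w
    constructor
    · intro hvw
      refine Relation.EqvGen.mono ?_ v w hvw
      rintro x y ⟨e, -, h1, h2⟩
      exact ⟨e, h1, h2⟩
    · intro hvw
      induction hvw with
      | rel x y hxy =>
        obtain ⟨e, rfl, rfl⟩ := hxy
        exact hall e
      | refl x => exact (cst Γ.lab Γ.init S).refl x
      | symm x y _ ih => exact (cst Γ.lab Γ.init S).symm ih
      | trans x y z _ _ ih1 ih2 => exact (cst Γ.lab Γ.init S).trans ih1 ih2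
  have hq : Nat.card (Quotient (cst Γ.lab Γ.init S)) = 2 := by
    rw [Nat.card_eq_two_iff]
    refine ⟨Quotient.mk _ a, Quotient.mk _ b, ?_, ?_⟩
    · intro heq
      exact hab ((hiff a b).1 (Quotient.exact heq))
    · ext q
      refine ⟨fun _ => Set.mem_univ _, fun _ => ?_⟩
      induction q using Quotient.inductionOn with
      | h v =>
        rcases h v with hv | hv
        · exact Or.inl (Quotient.sound ((cst Γ.lab Γ.init S).symm ((hiff a v).2 hv)))
        · exact Or.inr (Quotient.sound ((cst Γ.lab Γ.init S).symm ((hiff b v).2 hv)))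
  have hle := card_le Γ.lab Γ.init S
  have hcompl : Sᶜ.card = 1 := by
    have h1 := Finset.card_add_card_compl S
    have h2 := Γ.card
    rw [hq] at hS hle
    omega
  obtain ⟨e₁, he₁⟩ := Finset.card_eq_one.1 hcompl
  have hcase : ∀ e, e ∈ S ∨ e = e₁ := by
    intro e
    by_cases he : e ∈ S
    · exact Or.inl he
    · right
      have h1 : e ∈ Sᶜ := Finset.mem_compl.2 he
      rw [he₁, Finset.mem_singleton] at h1
      exact h1
  obtain ⟨g, hg⟩ := forest Γ.lab Γ.init S hS (fun e => FreeGroup.of e)
  have hcst : ∀ (X : Type) [Group X] (f : V → X) (v w : V), (cst Γ.lab Γ.init S) v w →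
      f v * (II Γ f (g v))⁻¹ = f w * (II Γ f (g w))⁻¹ := by
    intro X _ f v w hvw
    have h' : Relation.EqvGen (fun v w => ∃ e ∈ S, v = Γ.lab e ∧ w = Γ.init e) v w := hvw
    clear hvw
    induction h' with
    | rel x y hxy =>
      obtain ⟨e, he, rfl, rfl⟩ := hxy
      have hof : II Γ f (FreeGroup.of e) = (f (Γ.lab e))⁻¹ * f (Γ.init e) := by
        simp [II]
      rw [hg e he, map_mul, hof]
      group
    | refl x => rfl
    | symm x y _ ih => exact ih.symm
    | trans x y z _ _ ih1 ih2 => exact ih1.trans ih2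
  have hκE : ∀ v w, Relation.EqvGen Γ.IAdj v w →
      (Relation.EqvGen Γ.IAdj b v ↔ Relation.EqvGen Γ.IAdj b w) := by
    intro v w hvw
    exact ⟨fun h1 => Relation.EqvGen.trans _ _ _ h1 hvw,
      fun h1 => Relation.EqvGen.trans _ _ _ h1 (Relation.EqvGen.symm _ _ hvw)⟩
  have hedge : ∀ e, Relation.EqvGen Γ.IAdj (Γ.lab e) (Γ.init e) := fun e =>
    Relation.EqvGen.rel _ _ ⟨e, rfl, rfl⟩
  have hκ : ∀ e, decide (Relation.EqvGen Γ.IAdj b (Γ.lab e)) =
      decide (Relation.EqvGen Γ.IAdj b (Γ.init e)) := by
    intro e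
    exact decide_eq_decide.2 (hκE _ _ (hedge e))
  have hconst : ∀ (X : Type) [Group X] (f : V → X) (v w : V),
      decide (Relation.EqvGen Γ.IAdj b v) = decide (Relation.EqvGen Γ.IAdj b w) →
      f v * (II Γ f (g v))⁻¹ = f w * (II Γ f (g w))⁻¹ := by
    intro X _ f v w hvw
    apply hcst
    rw [hiff]
    have h1 := decide_eq_decide.1 hvw
    by_cases hv : Relation.EqvGen Γ.IAdj b v
    · exact Relation.EqvGen.trans _ _ _ (Relation.EqvGen.symm _ _ hv) (h1.1 hv)
    · have hw : ¬ Relation.EqvGen Γ.IAdj b w := fun hw => hv (h1.2 hw)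
      have hv' := (h v).resolve_right hv
      have hw' := (h w).resolve_right hw
      exact Relation.EqvGen.trans _ _ _ (Relation.EqvGen.symm _ _ hv') hw'
  refine ⟨{
    κ := fun v => decide (Relation.EqvGen Γ.IAdj b v)
    b := fun i => if i then b else a
    hb := ?_
    g := g
    l := (g (Γ.lab e₁))⁻¹ * g (Γ.init e₁) * (FreeGroup.of e₁)⁻¹
    hκ := hκ
    pot := ?_
    const := hconst
    closed := ?_ }⟩
  · intro i
    cases i with
    | true =>
      simp only [if_true]
      exact decide_eq_true (Relation.EqvGen.refl _)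
    | false =>
      simp only [Bool.false_eq_true, if_false]
      exact decide_eq_false (fun h1 => hab (Relation.EqvGen.symm _ _ h1))
  · intro X _ f hf e
    rcases hcase e with he | rfl
    · rw [hg e he, map_mul]
    · rw [map_mul, map_mul, map_inv, map_inv, mul_inv_eq_one] at hf
      rw [← hf]
      group
  · intro X _ f
    have h1 := hconst X f _ _ (hκ e₁)
    have hof : II Γ f (FreeGroup.of e₁) = (f (Γ.lab e₁))⁻¹ * f (Γ.init e₁) := by
      simp [II]
    rw [map_mul, map_mul, map_inv, map_inv, hof, mul_inv_eq_one]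
    have h2 : (II Γ f (g (Γ.lab e₁)))⁻¹ = (f (Γ.lab e₁))⁻¹ * (f (Γ.init e₁) *
        (II Γ f (g (Γ.init e₁)))⁻¹) := by
      rw [← h1]
      group
    rw [h2]
    group

end Pool.Agent.LTree
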