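import Pool.Agent.Lib.LOTI.LDefs

/-!
# Trees with a group action : definitions

(helper62, problem MP_cf50d6_gt, paper /team-store/MP_cf50d6_gt_paper3.md)

A `G`-tree is a connected graph (vertex set `V`, edge set `E`, every edge `e` goes from `o e` to `t e`) with an action of `G`
and with a potential `μ : V → FreeGroup E`, `μ (t e) = μ (o e) * e`. `T.Has K`: the stabilisers of all edges are
equal to `K`, and `K` fixes all vertices. `T.Ell g`: `g` fixes a vertex.
-/

set_option autoImplicit false

open scoped Classical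

namespace Pool.Agent.LTree

open Pool.Agent.LOTI

/-- a tree with an action of `G` -/
structure GTree (G : Type) [Group G] where
  V : Type
  E : Type
  actV : MulAction G V
  actE : MulAction G E
  ne : Nonempty V
  o : E → V
  t : E → V
  o_smul : ∀ (g : G) (e : E), o (g • e) = g • o e
  t_smul : ∀ (g : G) (e : E), t (g • e) = g • t e
  conn : ∀ v w : V, Relation.EqvGen (fun a b => ∃ e, a = o e ∧ b = t e) v w
  pot : ∃ μ : V → FreeGroup E, ∀ e, μ (t e) = μ (o e) * FreeGroup.of e

attribute [instance] GTree.actV GTree.actE GTree.ne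

namespace GTree

variable {G : Type} [Group G]

/-- all edge stabilisers are equal to `K`, and `K` fixes all vertices -/
def Has (T : GTree G) (K : Subgroup G) : Prop :=
  (∀ (g : G) (e : T.E), g • e = e ↔ g ∈ K) ∧ ∀ (g : G) (v : T.V), g ∈ K → g • v = v

/-- `g` fixes a vertex -/
def Ell (T : GTree G) (g : G) : Prop := ∃ v : T.V, g • v = v

/-- the origin of a directed edge -/
def src (T : GTree G) (s : T.E × Bool) : T.V := if s.2 then T.o s.1 else T.t s.1

/-- the end of a directed edge -/
def tgt (T : GTree G) (s : T.E × Bool) : T.V := if s.2 then T.t s.1 else T.o s.1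

/-- `L` is a path from `v` to `w` -/
def W (T : GTree G) : T.V → List (T.E × Bool) → T.V → Prop
  | v, [], w => v = w
  | v, s :: L, w => v = T.src s ∧ T.W (T.tgt s) L w

/-- equivariant maps of trees which map edges to edges -/
structure Hom (T S : GTree G) where
  fV : T.V → S.V
  fE : T.E → S.E
  fV_smul : ∀ (g : G) (v : T.V), fV (g • v) = g • fV v
  fE_smul : ∀ (g : G) (e : T.E), fE (g • e) = g • fE e
  fV_o : ∀ e, fV (T.o e) = S.o (fE e)
  fV_t : ∀ e, fV (T.t e) = S.t (fE e)

/-- the composition -/
def Hom.comp {T S R : GTree G} (f : T.Hom S) (h : S.Hom R) : T.Hom R where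
  fV v := h.fV (f.fV v)
  fE e := h.fE (f.fE e)
  fV_smul g v := by rw [f.fV_smul, h.fV_smul]
  fE_smul g e := by rw [f.fE_smul, h.fE_smul]
  fV_o e := by rw [f.fV_o, h.fV_o]
  fV_t e := by rw [f.fV_t, h.fV_t]

end GTree

variable {G : Type} [Group G]

/-- `g` fixes a vertex in every tree with the edge stabilisers `K` -/
def AllEll (K : Subgroup G) (g : G) : Prop := ∀ T : GTree G, T.Has K → T.Ell g

/-- the functions `φ : G → k` with `μ (g v) = μ v + φ g` for some function `μ` on the vertices of a tree
with the edge stabilisers `K`, and their sums -/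
def DD (k : Type) [Field k] (K : Subgroup G) : Submodule k (G → k) :=
  Submodule.span k {φ | ∃ T : GTree G, T.Has K ∧ ∃ μ : T.V → k,
    ∀ (g : G) (v : T.V), μ (g • v) = μ v + φ g}

/-- the homomorphisms `G → k` -/
def HH (k : Type) [Field k] (G : Type) [Group G] : Submodule k (G → k) where
  carrier := {φ | ∀ g h, φ (g * h) = φ g + φ h}
  add_mem' {a b} ha hb g h := by
    show a (g * h) + b (g * h) = (a g + b g) + (a h + b h)
    rw [ha, hb]; ring
  zero_mem' g h := by simp
  smul_mem' c a ha g h := by
    show c * a (g * h) = c * a g + c * a h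
    rw [ha]; ring

/-- not a proper power -/
def NPow (x : G) : Prop := ∀ (v : G) (q : ℕ), 2 ≤ q → x ≠ v ^ q

/-- `A` is the free product of `P / <<r>>` and the free group on `z false`, `z true` -/
structure Split {P A : Type} [Group P] [Group A] (j : P →* A) (r : P) where
  z : Bool → A
  kill : j r = 1
  gen : ∀ H : Subgroup A, (∀ p, j p ∈ H) → (∀ i, z i ∈ H) → H = ⊤
  univ : ∀ (Y : Type) [Group Y] (f : P →* Y) (u : Bool → Y), f r = 1 →
    ∃ F : A →* Y, (∀ p, F (j p) = f p) ∧ ∀ i, F (z i) = u i

end Pool.Agent.LTree
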