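import Pool.Agent.Lib.LTree.FoldS

/-!
# Folding until an element becomes elliptic

PROOF. Let `y ∈ L` fix all vertices of `S` (`hS.2`). Show by induction on `n` : for every tree `T` with `T.Has ⊥`, every `f : T.Hom S`, every vertex `v` and every path `A` with
`T.W v A (y • v)` and `A.length ≤ n` there is `R` as required. If `T.Ell y` take `R = T`. Otherwise `A ≠ []` (else `v = y • v`), and the image of `A` in `S` (`Hom.W`) is a
closed path, because `f (y • v) = y • f v = f v`; so its value is `1` (`mk_one_of_closed`), and by `exists_cancel` `A = A₁ ++ (a, b) :: (a', !b) :: A₂` with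
`f a = f a'`. If `a = a'`, then `A₁ ++ A₂` is a shorter path (`W_step`, `FreeGroup.Red.Step.not`). If `a ≠ a'`: the two letters are consecutive, so `tgt (a, b) = src (a', !b)`, i.e.
`src (a, !b) = src (a', !b)` (`src_not`). Apply `foldS` with `!b` (the hypothesis on the stabiliser is `hfree T hT hy'`) : `R₁`, `q : T → R₁`, `R₁ → S`, `q a = q a'`. The image of `A` under `q` is a path
from `q v` to `y • q v` in which two consecutive letters cancel: it can be shortened by two letters (`W_step`), and the induction hypothesis applies to `R₁`.
-/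

set_option autoImplicit false

open scoped Classical

namespace Pool.Agent.LTree

open Pool.Agent.LOTI

variable {G : Type} [Group G]

theorem foldA (T S : GTree G) (L : Subgroup G) (hT : T.Has ⊥) (hS : S.Has L) (f : T.Hom S)
    (y : G) (hy : y ∈ L)
    (hfree : ∀ R : GTree G, R.Has ⊥ → ¬ R.Ell y →
      ∀ (v : R.V) (g : G), g • v = v → g ∈ L → g = 1) :
    ∃ R : GTree G, R.Has ⊥ ∧ R.Ell y ∧ Nonempty (R.Hom S) := by
  have key : ∀ n : ℕ, ∀ T : GTree G, T.Has ⊥ → ∀ (_ : T.Hom S) (v : T.V)
      (A : List (T.E × Bool)), T.W v A (y • v) → A.length ≤ n →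
      ∃ R : GTree G, R.Has ⊥ ∧ R.Ell y ∧ Nonempty (R.Hom S) := by
    intro n
    induction n with
    | zero =>
      intro T hT f v A hA hn
      have h1 : A = [] := List.length_eq_zero_iff.1 (Nat.le_zero.1 hn)
      subst h1
      have h2 : v = y • v := hA
      exact ⟨T, hT, ⟨v, h2.symm⟩, ⟨f⟩⟩
    | succ n ih =>
      intro T hT f v A hA hn
      by_cases hE : T.Ell y
      · exact ⟨T, hT, hE, ⟨f⟩⟩
      · have hne : A ≠ [] := by
          rintro rfl
          have h2 : v = y • v := hA
          exact hE ⟨v, h2.symm⟩
        have h1 := f.W hA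
        have h2 : f.fV (y • v) = f.fV v := by
          rw [f.fV_smul]
          exact hS.2 y (f.fV v) hy
        rw [h2] at h1
        have h3 := GTree.mk_one_of_closed h1
        obtain ⟨L₁, a, a', b, L₂, hL, haa⟩ := exists_cancel f.fE A hne h3
        have hlen : (L₁ ++ L₂).length ≤ n := by
          rw [hL] at hn
          simp only [List.length_append, List.length_cons] at hn ⊢
          omega
        by_cases hab : a = a'
        · subst hab
          refine ih T hT f v (L₁ ++ L₂) ?_ hlen
          rw [hL] at hA
          exact GTree.W_step FreeGroup.Red.Step.not hA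
        · have hc : T.src (a, !b) = T.src (a', !b) := by
            have h4 := hA
            rw [hL, GTree.W_append] at h4
            obtain ⟨u, -, -, h5, -⟩ := h4
            rw [← h5]
            exact GTree.src_not a b
          obtain ⟨R₁, hR₁, ⟨f₁⟩, q, hq⟩ := foldS T S L hT hS f a a' (!b) hab haa hc
            (fun g hg hgL => hfree T hT hE _ g hg hgL)
          refine ih R₁ hR₁ f₁ (q.fV v)
            (L₁.map (fun s => (q.fE s.1, s.2)) ++ L₂.map (fun s => (q.fE s.1, s.2))) ?_ ?_
          · have h6 := q.W hA
            rw [q.fV_smul, hL, List.map_append, List.map_cons, List.map_cons] at h6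
            refine GTree.W_step ?_ h6
            show FreeGroup.Red.Step (_ ++ (q.fE a, b) :: (q.fE a', !b) :: _) _
            rw [← hq]
            exact FreeGroup.Red.Step.not
          · simp only [List.length_append, List.length_map] at hlen ⊢
            exact hlen
  obtain ⟨v⟩ := T.ne
  obtain ⟨A, hA⟩ := GTree.exists_W v (y • v)
  exact key A.length T hT f v A hA le_rfl

end Pool.Agent.LTree
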