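import Pool.Agent.Lib.LTree.TB

/-!
# The quotient of a tree by an elliptic element

STATEMENT. `T` a `G`-tree with trivial edge stabilisers, `x` fixes a vertex, `N = normalClosure {x}`. Then `T / N` is a `G`-tree with the edge
stabilisers `N`; a function `μ` on the vertices with `μ (g v) = μ v + φ g` descends to it.

PROOF. `V' = Quotient` of `T.V` by `v ~ w ↔ ∃ n ∈ N, w = n • v` (an equivalence relation; invariant under `G`, because `N` is normal:
`g • n • v = (g n g⁻¹) • g • v`), `E'` = the same for `T.E` (one may use `LTree.quotAct` of `Build.lean` with `R v w := ∃ n ∈ N, w = n • v` and `Quot R`, and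
`Quot.eqvGen_exact`/an explicit `Setoid`; I suggest an explicit `Setoid` and `Quotient.map'`). `o' [e] = [o e]`, `t' [e] = [t e]`. `conn`: image of `T.conn`.
`pot`: let `q : T.E → E'` and `μ₁ : T.V → FreeGroup E'` a potential of `u e = of (q e)` (`T.exists_pot`). CLAIM `μ₁ (n • v) = μ₁ v` for `n ∈ N`. For `n ∈ N` the function
`v ↦ μ₁ (n • v)` is a potential of `u` as well (`t_smul`, `o_smul`, `q (n • e) = q e`), so `μ₁ (n • v) * (μ₁ v)⁻¹` does not depend on `v` (`pot_unique`); hence the `n ∈ N` with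
`∀ v, μ₁ (n • v) = μ₁ v` form a subgroup which contains `g x g⁻¹` (it fixes `g • v₀`, where `x • v₀ = v₀`, so the constant is `1`): by `Subgroup.normalClosure`/
`Subgroup.closure_induction` (`Subgroup.conjugatesOfSet`) it is `N`. So `μ₁` descends to `V'`.
`Has N`: `g • [e] = [e]` iff `∃ n ∈ N, g • e = n • e` iff `∃ n ∈ N, n⁻¹ * g = 1` (`hT.1`, `K = ⊥`) iff `g ∈ N`; and `g • [v] = [g • v] = [v]` for `g ∈ N`.
`μ` descends: `φ` is additive (`μ (g h v) = …`, `T.ne`), `φ x = 0` (`μ (x • v₀) = μ v₀`), so `φ (g x g⁻¹) = 0` and `φ = 0` on `N`, hence `μ (n • v) = μ v`.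
Then `φ` is one of the generators of `DD k N` (`Submodule.subset_span`).
-/

set_option autoImplicit false

open scoped Classical

namespace Pool.Agent.LTree

open Pool.Agent.LOTI

variable {G : Type} [Group G]

private def nSet (N : Subgroup G) (X : Type) [MulAction G X] : Setoid X where
  r v w := ∃ n ∈ N, w = n • v
  iseqv := by
    refine ⟨fun v => ⟨1, N.one_mem, (one_smul G v).symm⟩, ?_, ?_⟩
    · rintro v w ⟨n, hn, rfl⟩
      exact ⟨n⁻¹, N.inv_mem hn, (inv_smul_smul n v).symm⟩
    · rintro u v w ⟨n, hn, rfl⟩ ⟨m, hm, rfl⟩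
      exact ⟨m * n, N.mul_mem hm hn, (mul_smul m n u).symm⟩

private theorem nSet_smul (N : Subgroup G) [hN : N.Normal] (X : Type) [MulAction G X] (g : G)
    (v w : X) (h : (nSet N X).r v w) : (nSet N X).r (g • v) (g • w) := by
  obtain ⟨n, hn, rfl⟩ := h
  refine ⟨g * n * g⁻¹, hN.conj_mem n hn g, ?_⟩
  rw [mul_smul, mul_smul, inv_smul_smul]

@[reducible] private def nAct (N : Subgroup G) [N.Normal] (X : Type) [MulAction G X] :
    MulAction G (Quotient (nSet N X)) where
  smul g := Quotient.map (g • ·) (nSet_smul N X g)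
  one_smul := by
    rintro ⟨v⟩
    exact congrArg (Quotient.mk (nSet N X)) (one_smul G v)
  mul_smul := by
    rintro g h ⟨v⟩
    exact congrArg (Quotient.mk (nSet N X)) (mul_smul g h v)

private theorem n_inv (T : GTree G) (x : G) (hx : T.Ell x) {X : Type} [Group X] (u : T.E → X)
    (hu : ∀ n ∈ Subgroup.normalClosure ({x} : Set G), ∀ e, u (n • e) = u e) (μ : T.V → X)
    (hμ : ∀ e, μ (T.t e) = μ (T.o e) * u e) :
    ∀ n ∈ Subgroup.normalClosure ({x} : Set G), ∀ v, μ (n • v) = μ v := by
  obtain ⟨v₀, hv₀⟩ := hx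
  let H : Subgroup G :=
    { carrier := {n | ∀ v, μ (n • v) = μ v}
      mul_mem' := by
        intro a b ha hb v
        rw [mul_smul, ha, hb]
      one_mem' := fun v => by rw [one_smul]
      inv_mem' := by
        intro a ha v
        have h1 := ha (a⁻¹ • v)
        rw [smul_inv_smul] at h1
        exact h1.symm }
  have hle : Subgroup.normalClosure ({x} : Set G) ≤ H := by
    refine (Subgroup.closure_le H).2 ?_
    intro y hy
    have hyN : y ∈ Subgroup.normalClosure ({x} : Set G) :=
      Subgroup.conjugatesOfSet_subset_normalClosure hy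
    obtain ⟨x', hx', hc⟩ := Group.mem_conjugatesOfSet_iff.1 hy
    obtain rfl : x' = x := hx'
    obtain ⟨c, hc⟩ := isConj_iff.1 hc
    have hp : ∀ e, (fun v => μ (y • v)) (T.t e) = (fun v => μ (y • v)) (T.o e) * u e := by
      intro e
      show μ (y • T.t e) = μ (y • T.o e) * u e
      rw [← T.t_smul, ← T.o_smul, hμ, hu y hyN]
    have hfix : y • (c • v₀) = c • v₀ := by
      rw [← hc, mul_smul, mul_smul, inv_smul_smul, hv₀]
    intro w
    have h1 := GTree.pot_unique (μ' := fun v => μ (y • v)) hμ hp (c • v₀) w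
    simp only [hfix, mul_inv_cancel] at h1
    exact mul_inv_eq_one.1 h1
  exact fun n hn => hle hn

private def quo (T : GTree G) (x : G) (hx : T.Ell x) : GTree G where
  V := Quotient (nSet (Subgroup.normalClosure ({x} : Set G)) T.V)
  E := Quotient (nSet (Subgroup.normalClosure ({x} : Set G)) T.E)
  actV := nAct _ T.V
  actE := nAct _ T.E
  ne := ⟨Quotient.mk _ (Classical.arbitrary T.V)⟩
  o := Quotient.map T.o (by
    rintro a b ⟨n, hn, rfl⟩
    exact ⟨n, hn, T.o_smul n a⟩)
  t := Quotient.map T.t (by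
    rintro a b ⟨n, hn, rfl⟩
    exact ⟨n, hn, T.t_smul n a⟩)
  o_smul := by
    rintro g ⟨e⟩
    exact congrArg (Quotient.mk _) (T.o_smul g e)
  t_smul := by
    rintro g ⟨e⟩
    exact congrArg (Quotient.mk _) (T.t_smul g e)
  conn := by
    rintro ⟨v⟩ ⟨w⟩
    have h := T.conn v w
    induction h with
    | rel a b h =>
      obtain ⟨e, rfl, rfl⟩ := h
      exact Relation.EqvGen.rel _ _ ⟨Quotient.mk _ e, rfl, rfl⟩
    | refl a => exact Relation.EqvGen.refl _
    | symm a b _ ih => exact Relation.EqvGen.symm _ _ ih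
    | trans a b c _ _ ih1 ih2 => exact Relation.EqvGen.trans _ _ _ ih1 ih2
  pot := by
    obtain ⟨μ, hμ⟩ := T.exists_pot (fun e => FreeGroup.of
      (Quotient.mk (nSet (Subgroup.normalClosure ({x} : Set G)) T.E) e))
    have h1 := n_inv T x hx _ (fun n hn e => by
      show FreeGroup.of _ = FreeGroup.of _
      congr 1
      exact (Quotient.sound ⟨n, hn, rfl⟩ :
        Quotient.mk (nSet (Subgroup.normalClosure ({x} : Set G)) T.E) e =
          Quotient.mk (nSet (Subgroup.normalClosure ({x} : Set G)) T.E) (n • e)).symm) μ hμ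
    refine ⟨Quotient.lift μ ?_, ?_⟩
    · rintro a b ⟨n, hn, rfl⟩
      exact (h1 n hn a).symm
    · rintro ⟨e⟩
      exact hμ e

theorem dd_of_ell {k : Type} [Field k] (T : GTree G) (hT : T.Has ⊥) (x : G) (hx : T.Ell x)
    (φ : G → k) (μ : T.V → k) (h : ∀ (g : G) (v : T.V), μ (g • v) = μ v + φ g) :
    φ ∈ DD k (Subgroup.normalClosure ({x} : Set G)) := by
  have hadd : ∀ a b, φ (a * b) = φ a + φ b := by
    intro a b
    have h1 := h (a * b) (Classical.arbitrary T.V)
    rw [mul_smul, h, h] at h1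
    have h2 : φ (a * b) = φ b + φ a := by linear_combination -h1
    rw [h2, add_comm]
  have hx0 : φ x = 0 := by
    obtain ⟨v₀, hv₀⟩ := hx
    have h1 := h x v₀
    rw [hv₀] at h1
    linear_combination -h1
  let Φ : G →* Multiplicative k := MonoidHom.mk' (fun g => Multiplicative.ofAdd (φ g))
    (fun a b => by rw [hadd]; rfl)
  have hker : Subgroup.normalClosure ({x} : Set G) ≤ Φ.ker := by
    refine Subgroup.normalClosure_le_normal ?_
    rintro y rfl
    show Multiplicative.ofAdd (φ y) = 1
    rw [hx0]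
    rfl
  have hN : ∀ n ∈ Subgroup.normalClosure ({x} : Set G), φ n = 0 := by
    intro n hn
    have h1 : Multiplicative.ofAdd (φ n) = 1 := hker hn
    exact h1
  refine Submodule.subset_span ⟨quo T x hx, ⟨?_, ?_⟩, Quotient.lift μ ?_, ?_⟩
  · rintro g ⟨e⟩
    constructor
    · intro hg
      have h1 : Quotient.mk (nSet (Subgroup.normalClosure ({x} : Set G)) T.E) (g • e) =
        Quotient.mk (nSet (Subgroup.normalClosure ({x} : Set G)) T.E) e := hg
      obtain ⟨n, hn, h2⟩ := Quotient.exact h1.symm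
      have h3 : (n⁻¹ * g) • e = e := by
        rw [mul_smul, h2, inv_smul_smul]
      have h4 := (hT.1 _ _).1 h3
      rw [Subgroup.mem_bot, inv_mul_eq_one] at h4
      rw [← h4]
      exact hn
    · intro hg
      show Quotient.mk (nSet (Subgroup.normalClosure ({x} : Set G)) T.E) (g • e) =
        Quotient.mk (nSet (Subgroup.normalClosure ({x} : Set G)) T.E) e
      exact (Quotient.sound ⟨g, hg, rfl⟩ :
        Quotient.mk (nSet (Subgroup.normalClosure ({x} : Set G)) T.E) e =
          Quotient.mk (nSet (Subgroup.normalClosure ({x} : Set G)) T.E) (g • e)).symm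
  · rintro g ⟨v⟩ hg
    show Quotient.mk (nSet (Subgroup.normalClosure ({x} : Set G)) T.V) (g • v) =
      Quotient.mk (nSet (Subgroup.normalClosure ({x} : Set G)) T.V) v
    exact (Quotient.sound ⟨g, hg, rfl⟩ :
      Quotient.mk (nSet (Subgroup.normalClosure ({x} : Set G)) T.V) v =
        Quotient.mk (nSet (Subgroup.normalClosure ({x} : Set G)) T.V) (g • v)).symm
  · rintro a b ⟨n, hn, rfl⟩
    rw [h, hN n hn, add_zero]
  · rintro g ⟨v⟩
    exact h g v

end Pool.Agent.LTree
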