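import Pool.Agent.Lib.LTree.FT
import Pool.Agent.Lib.LTree.Blow
import Pool.Agent.Lib.LTree.FoldA
import Pool.Agent.Lib.LTree.Quo

/-!
# The exchange lemma

`<<x>> = normalClosure {x}`.

PROOF. A generator of `DD k <<y>>` is a function `φ` with a tree `S`, `S.Has <<y>>`, and `μ : S.V → k`, `μ (g • v) = μ v + φ g`. If `R.Has ⊥`, `f : R.Hom S` and `R.Ell x`, then `μ ∘ f.fV` shows
`φ ∈ DD k <<x>>` by `dd_of_ell`.
LEMMA `one_side`: `T₀.Has ⊥`, `T₀.Ell x`, `¬ T₀.Ell y`, `AllEll <<y>> x` imply `DD k <<y>> ≤ DD k <<x>>`. By `ft hP T₀ _ y` the vertex stabilisers of `T₀` meet `<<y>>` trivially; `blow T₀ S <<y>>` gives `R`, and `R.Ell x` because `T₀.Ell x`,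
`S.Ell x`.
CASES. (A) there is `T₀`, `T₀.Has ⊥`, `T₀.Ell x`, `¬ T₀.Ell y`: `one_side`, right alternative. (B) there is `T₀` with `T₀.Ell y`, `¬ T₀.Ell x`: `one_side` with `x`, `y` exchanged, left alternative. (C) otherwise `T.Ell x ↔ T.Ell y` for all `T` with
`T.Has ⊥`. By `h3` there is `T₀` with `¬ T₀.Ell x` and `¬ T₀.Ell y`. Show `DD k <<y>> ≤ DD k <<x>>`: for `S` as above `blow T₀ S <<y>>` (hypothesis by `ft … y`) gives `R₁` and `f₁ : R₁.Hom S`; `foldA R₁ S <<y>>` with `y` and `hfree R hR hy := (ft hP R hR y hy hpy).2` gives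
`R` with `R.Has ⊥`, `R.Ell y`, `f : R.Hom S`; so `R.Ell x` by (C).
-/

set_option autoImplicit false

open scoped Classical

namespace Pool.Agent.LTree

open Pool.Agent.LOTI

private theorem exch_one (k : Type) [Field k] {P : Type} [Group P] (hP : LI P) (x y : P)
    (hy : NPow y) (h2 : AllEll (Subgroup.normalClosure ({y} : Set P)) x) (T₀ : GTree P)
    (hT₀ : T₀.Has ⊥) (hx : T₀.Ell x) (hyT : ¬ T₀.Ell y) :
    DD k (Subgroup.normalClosure ({y} : Set P)) ≤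
      DD k (Subgroup.normalClosure ({x} : Set P)) := by
  refine Submodule.span_le.2 ?_
  rintro φ ⟨S, hS, μ, hμ⟩
  obtain ⟨R, hR, ⟨f⟩, hE⟩ := blow T₀ S _ hT₀ hS (ft hP T₀ hT₀ y hyT hy).2
  refine dd_of_ell R hR x (hE x hx (h2 S hS)) φ (fun v => μ (f.fV v)) fun g v => ?_
  show μ (f.fV (g • v)) = μ (f.fV v) + φ g
  rw [f.fV_smul, hμ]

private theorem exch_two (k : Type) [Field k] {P : Type} [Group P] (hP : LI P) (x y : P)
    (hy : NPow y) (T₀ : GTree P) (hT₀ : T₀.Has ⊥) (hyT : ¬ T₀.Ell y)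
    (hC : ∀ T : GTree P, T.Has ⊥ → T.Ell y → T.Ell x) :
    DD k (Subgroup.normalClosure ({y} : Set P)) ≤
      DD k (Subgroup.normalClosure ({x} : Set P)) := by
  refine Submodule.span_le.2 ?_
  rintro φ ⟨S, hS, μ, hμ⟩
  obtain ⟨R₁, hR₁, ⟨f₁⟩, -⟩ := blow T₀ S _ hT₀ hS (ft hP T₀ hT₀ y hyT hy).2
  obtain ⟨R, hR, hRy, ⟨f⟩⟩ := foldA R₁ S _ hR₁ hS f₁ y
    (Subgroup.subset_normalClosure (Set.mem_singleton y))
    (fun R hR hRy => (ft hP R hR y hRy hy).2)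
  refine dd_of_ell R hR x (hC R hR hRy) φ (fun v => μ (f.fV v)) fun g v => ?_
  show μ (f.fV (g • v)) = μ (f.fV v) + φ g
  rw [f.fV_smul, hμ]

theorem exchange (k : Type) [Field k] {P : Type} [Group P] (hP : LI P) (x y : P) (hx : NPow x)
    (hy : NPow y) (h1 : AllEll (Subgroup.normalClosure ({x} : Set P)) y)
    (h2 : AllEll (Subgroup.normalClosure ({y} : Set P)) x)
    (h3 : ¬ (AllEll (⊥ : Subgroup P) x ∧ AllEll (⊥ : Subgroup P) y)) :
    DD k (Subgroup.normalClosure ({x} : Set P)) ≤ DD k (Subgroup.normalClosure ({y} : Set P)) ∨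
      DD k (Subgroup.normalClosure ({y} : Set P)) ≤
        DD k (Subgroup.normalClosure ({x} : Set P)) := by
  by_cases hA : ∃ T₀ : GTree P, T₀.Has ⊥ ∧ T₀.Ell x ∧ ¬ T₀.Ell y
  · obtain ⟨T₀, a, b, c⟩ := hA
    exact Or.inr (exch_one k hP x y hy h2 T₀ a b c)
  by_cases hB : ∃ T₀ : GTree P, T₀.Has ⊥ ∧ T₀.Ell y ∧ ¬ T₀.Ell x
  · obtain ⟨T₀, a, b, c⟩ := hB
    exact Or.inl (exch_one k hP y x hx h1 T₀ a b c)
  have hC : ∀ T : GTree P, T.Has ⊥ → T.Ell y → T.Ell x := by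
    intro T hT hy'
    by_contra hx'
    exact hB ⟨T, hT, hy', hx'⟩
  have hD : ∀ T : GTree P, T.Has ⊥ → T.Ell x → T.Ell y := by
    intro T hT hx'
    by_contra hy'
    exact hA ⟨T, hT, hx', hy'⟩
  obtain ⟨T₀, hT₀, hyT⟩ : ∃ T₀ : GTree P, T₀.Has ⊥ ∧ ¬ T₀.Ell y := by
    by_contra hcon
    push Not at hcon
    exact h3 ⟨fun T hT => hC T hT (hcon T hT), fun T hT => hcon T hT⟩
  exact Or.inr (exch_two k hP x y hy T₀ hT₀ hyT hC)

end Pool.Agent.LTree
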