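import Pool.Agent.Lib.LTree.TB

/-!
# Restriction of trees along homomorphisms

PROOF of `pull`. `S.V = T.V`, `S.E = T.E`, `h • v := (Quotient.out (ρ h)) • v` (an element `g` with `ρ h = g K`; since `K` fixes all vertices and edges, `h • v = g • v` for every `g` with
`ρ h = (g : G ⧸ K)`: if `g⁻¹ * g' ∈ K` then `g • v = g' • v`; `QuotientGroup.eq`). So it is an action; `o`, `t`, `conn`, `pot`, `ne` are those of `T`. `h • e = e` iff `g ∈ K` iff `ρ h = 1`.
`dd_res`: `Submodule.span_induction` (the set of the `φ` with `(fun p => φ (j p)) ∈ DD k j.ker` is a submodule); for a generator `φ` with `T`, `μ` take `pull` with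
`K = ⊥` and `ρ = (QuotientGroup.mk' ⊥).comp j` (`ρ.ker = j.ker`) and `μ ∘ α`.
-/

/-!
# Restriction of trees along homomorphisms

PROOF of `pull`. `S.V = T.V`, `S.E = T.E`, `h • v := (Quotient.out (ρ h)) • v` (an element `g` with `ρ h = g K`; since `K` fixes all vertices and edges, `h • v = g • v` for every `g` with
`ρ h = (g : G ⧸ K)`: if `g⁻¹ * g' ∈ K` then `g • v = g' • v`; `QuotientGroup.eq`). So it is an action; `o`, `t`, `conn`, `pot`, `ne` are those of `T`. `h • e = e` iff `g ∈ K` iff `ρ h = 1`.
`dd_res`: `Submodule.span_induction` (the set of the `φ` with `(fun p => φ (j p)) ∈ DD k j.ker` is a submodule); for a generator `φ` with `T`, `μ` take `pull` with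
`K = ⊥` and `ρ = (QuotientGroup.mk' ⊥).comp j` (`ρ.ker = j.ker`) and `μ ∘ α`.
-/

set_option autoImplicit false

open scoped Classical

namespace Pool.Agent.LTree

open Pool.Agent.LOTI

private theorem pull_V {G : Type} [Group G] {T : GTree G} {K : Subgroup G} (hT : T.Has K)
    {g g' : G} (h : (g : G ⧸ K) = g') (v : T.V) : g • v = g' • v := by
  have h1 := hT.2 (g⁻¹ * g') v (QuotientGroup.eq.1 h)
  rw [mul_smul, inv_smul_eq_iff] at h1
  exact h1.symm

private theorem pull_E {G : Type} [Group G] {T : GTree G} {K : Subgroup G} (hT : T.Has K)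
    {g g' : G} (h : (g : G ⧸ K) = g') (e : T.E) : g • e = g' • e := by
  have h1 := (hT.1 (g⁻¹ * g') e).2 (QuotientGroup.eq.1 h)
  rw [mul_smul, inv_smul_eq_iff] at h1
  exact h1.symm

theorem pull {G H : Type} [Group G] [Group H] (T : GTree G) (K : Subgroup G) [K.Normal]
    (hT : T.Has K) (ρ : H →* G ⧸ K) :
    ∃ S : GTree H, S.Has ρ.ker ∧ ∃ α : S.V ≃ T.V,
      ∀ (h : H) (g : G) (v : S.V), ρ h = (g : G ⧸ K) → α (h • v) = g • α v := by
  have hout : ∀ q : G ⧸ K, ((Quotient.out q : G) : G ⧸ K) = q := fun q => Quotient.out_eq q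
  let S : GTree H :=
    { V := T.V
      E := T.E
      actV :=
        { smul := fun h v => (Quotient.out (ρ h) : G) • v
          one_smul := fun v => by
            show (Quotient.out (ρ 1) : G) • v = v
            rw [pull_V hT (g := Quotient.out (ρ 1)) (g' := 1) (by rw [hout, map_one]; rfl) v,
              one_smul]
          mul_smul := fun a b v => by
            show (Quotient.out (ρ (a * b)) : G) • v =
              (Quotient.out (ρ a) : G) • (Quotient.out (ρ b) : G) • v
            rw [← mul_smul]
            refine pull_V hT ?_ v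
            rw [hout, QuotientGroup.mk_mul, hout, hout, map_mul] }
      actE :=
        { smul := fun h e => (Quotient.out (ρ h) : G) • e
          one_smul := fun e => by
            show (Quotient.out (ρ 1) : G) • e = e
            rw [pull_E hT (g := Quotient.out (ρ 1)) (g' := 1) (by rw [hout, map_one]; rfl) e,
              one_smul]
          mul_smul := fun a b e => by
            show (Quotient.out (ρ (a * b)) : G) • e =
              (Quotient.out (ρ a) : G) • (Quotient.out (ρ b) : G) • e
            rw [← mul_smul]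
            refine pull_E hT ?_ e
            rw [hout, QuotientGroup.mk_mul, hout, hout, map_mul] }
      ne := T.ne
      o := T.o
      t := T.t
      o_smul := fun h e => T.o_smul (Quotient.out (ρ h) : G) e
      t_smul := fun h e => T.t_smul (Quotient.out (ρ h) : G) e
      conn := T.conn
      pot := T.pot }
  refine ⟨S, ⟨?_, ?_⟩, Equiv.refl _, ?_⟩
  · intro h e
    show (Quotient.out (ρ h) : G) • (e : T.E) = e ↔ _
    rw [hT.1, MonoidHom.mem_ker, ← QuotientGroup.eq_one_iff, hout]
  · intro h v hh
    show (Quotient.out (ρ h) : G) • (v : T.V) = v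
    refine hT.2 _ _ ?_
    rw [← QuotientGroup.eq_one_iff, hout]
    exact hh
  · intro h g v hg
    show (Quotient.out (ρ h) : G) • (v : T.V) = g • (v : T.V)
    exact pull_V hT (by rw [hout, hg]) v

theorem dd_res {k : Type} [Field k] {P A : Type} [Group P] [Group A] (j : P →* A) (φ : A → k)
    (hφ : φ ∈ DD k (⊥ : Subgroup A)) : (fun p => φ (j p)) ∈ DD k j.ker := by
  unfold DD at hφ
  induction hφ using Submodule.span_induction with
  | mem φ h =>
    obtain ⟨T, hT, μ, hμ⟩ := h
    obtain ⟨S, hS, α, hα⟩ := pull T ⊥ hT ((QuotientGroup.mk' (⊥ : Subgroup A)).comp j)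
    refine Submodule.subset_span ⟨S, ?_, fun v => μ (α v), ?_⟩
    · have h1 : ((QuotientGroup.mk' (⊥ : Subgroup A)).comp j).ker = j.ker := by
        ext p
        rw [MonoidHom.mem_ker, MonoidHom.mem_ker, MonoidHom.comp_apply, QuotientGroup.mk'_apply,
          QuotientGroup.eq_one_iff, Subgroup.mem_bot]
      rwa [h1] at hS
    · intro p v
      beta_reduce
      rw [hα p (j p) v rfl, hμ]
  | zero => exact Submodule.zero_mem _
  | add x y _ _ h1 h2 => exact Submodule.add_mem _ h1 h2
  | smul c x _ h => exact Submodule.smul_mem _ c h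

end Pool.Agent.LTree
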