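import Pool.Agent.Lib.LTree.BS
import Pool.Agent.Lib.LTree.Pull
import Pool.Agent.Lib.LTree.Blow

/-!
# Extension of trees to a free product

`N = normalClosure {r}`.

PROOF. `h.univ` with `Y = P ⧸ N`, `f = QuotientGroup.mk' N`, `u = 1` gives `ρ : A →* P ⧸ N` with `ρ (j p) = mk p`. `pull S N hS ρ` gives a `GTree A` `S'` with `S'.Has ρ.ker` and `α : S'.V ≃ S.V`. Let
`T` be the tree of `bs j r h`. Apply `blow T S' ρ.ker`: if `a • v = v` in `T` and `ρ a = 1` then `a = g * j p * g⁻¹`, so `ρ (j p) = 1`, `p ∈ N`, `j p = 1` (`N ≤ j.ker` because `j r = 1`), `a = 1`.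
We get `R`, `f : R.Hom S'`.
* `R.Ell (j p)` implies `S'.Ell (j p)` (image under `f`) implies `S.Ell p` (`α (j p • v) = p • α v`).
* `μ' = μ ∘ α ∘ f.fV`, and `φ' a = φ g` for a representative `g` of `ρ a` (`Quotient.out`): `μ (g • α w) = μ (α w) + φ g`. For `a = j p`: `φ g = φ p`, because `g • w = p • w` for all `w`
  (`g⁻¹ p ∈ N` fixes all vertices), so `μ (g • w) = μ (p • w)`.
* `allEll_ext`, `dd_ext`: consequences (`Submodule.span_induction`; the set of the `φ` which have an extension `φ' ∈ DD k ⊥` is a submodule).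
* `split_ker`: `N ≤ j.ker` since `j r = 1`; conversely `j p = 1` implies `mk p = ρ (j p) = 1`.
-/

set_option autoImplicit false

open scoped Classical

namespace Pool.Agent.LTree

open Pool.Agent.LOTI

variable {P A : Type} [Group P] [Group A]

private theorem ext_ker (j : P →* A) (r : P) (h : Split j r) :
    j.ker = Subgroup.normalClosure ({r} : Set P) := by
  apply le_antisymm
  · intro p hp
    obtain ⟨F, hF, _⟩ := h.univ (P ⧸ Subgroup.normalClosure ({r} : Set P))
      (QuotientGroup.mk' _) (fun _ => 1)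
      ((QuotientGroup.eq_one_iff r).2 (Subgroup.subset_normalClosure (Set.mem_singleton r)))
    have h1 := hF p
    rw [MonoidHom.mem_ker.1 hp, map_one] at h1
    exact (QuotientGroup.eq_one_iff p).1 h1.symm
  · exact Subgroup.normalClosure_le_normal
      (Set.singleton_subset_iff.2 (MonoidHom.mem_ker.2 h.kill))

theorem ext_tree (j : P →* A) (r : P) (h : Split j r) (S : GTree P)
    (hS : S.Has (Subgroup.normalClosure ({r} : Set P))) :
    ∃ R : GTree A, R.Has ⊥ ∧ (∀ p : P, R.Ell (j p) → S.Ell p) ∧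
      ∀ (k : Type) [Field k] (φ : P → k) (μ : S.V → k),
        (∀ (g : P) (v : S.V), μ (g • v) = μ v + φ g) →
        ∃ (φ' : A → k) (μ' : R.V → k), (∀ (a : A) (v : R.V), μ' (a • v) = μ' v + φ' a) ∧
          ∀ p : P, φ' (j p) = φ p := by
  have hr : QuotientGroup.mk' (Subgroup.normalClosure ({r} : Set P)) r = 1 :=
    (QuotientGroup.eq_one_iff r).2 (Subgroup.subset_normalClosure (Set.mem_singleton r))
  obtain ⟨ρ, hρ, _⟩ := h.univ (P ⧸ Subgroup.normalClosure ({r} : Set P))
    (QuotientGroup.mk' _) (fun _ => 1) hr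
  obtain ⟨S', hS', α, hα⟩ := pull S (Subgroup.normalClosure ({r} : Set P)) hS ρ
  obtain ⟨T, hT, hT1, _, _⟩ := bs j r h
  obtain ⟨R, hR, ⟨f⟩, _⟩ := blow T S' ρ.ker hT hS' (by
    intro v a hv ha
    obtain ⟨g, p, rfl⟩ := hT1 v a hv
    have h1 : ρ (j p) = 1 := by
      have h2 : ρ (g * j p * g⁻¹) = 1 := ha
      rw [map_mul, map_mul, map_inv] at h2
      exact conj_eq_one_iff.1 h2
    rw [hρ] at h1
    have h2 : p ∈ Subgroup.normalClosure ({r} : Set P) := (QuotientGroup.eq_one_iff p).1 h1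
    rw [← ext_ker j r h] at h2
    rw [MonoidHom.mem_ker.1 h2]
    simp)
  refine ⟨R, hR, ?_, ?_⟩
  · rintro p ⟨v, hv⟩
    refine ⟨α (f.fV v), ?_⟩
    rw [← hα (j p) p (f.fV v) (hρ p), ← f.fV_smul, hv]
  · intro k _ φ μ hμ
    refine ⟨fun a => φ (Quotient.out (ρ a)), fun v => μ (α (f.fV v)), ?_, ?_⟩
    · intro a v
      show μ (α (f.fV (a • v))) = _
      rw [f.fV_smul, hα a (Quotient.out (ρ a)) (f.fV v) (QuotientGroup.out_eq' _).symm, hμ]
    · intro p
      have h1 : ((Quotient.out (ρ (j p)) : P) : P ⧸ Subgroup.normalClosure ({r} : Set P)) =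
          (p : P ⧸ Subgroup.normalClosure ({r} : Set P)) := by
        rw [QuotientGroup.out_eq', hρ]
        rfl
      have h2 := QuotientGroup.eq.1 h1
      obtain ⟨w⟩ := S.ne
      have h3 : p • w = (Quotient.out (ρ (j p)) : P) • w := by
        have h4 := hS.2 _ w h2
        rw [mul_smul, inv_smul_eq_iff] at h4
        exact h4
      have h4 := hμ p w
      rw [h3, hμ] at h4
      exact add_left_cancel h4

theorem allEll_ext (j : P →* A) (r : P) (h : Split j r) (p : P)
    (hp : AllEll (⊥ : Subgroup A) (j p)) :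
    AllEll (Subgroup.normalClosure ({r} : Set P)) p := by
  intro S hS
  obtain ⟨R, hR, h1, _⟩ := ext_tree j r h S hS
  exact h1 p (hp R hR)

theorem dd_ext {k : Type} [Field k] (j : P →* A) (r : P) (h : Split j r) (φ : P → k)
    (hφ : φ ∈ DD k (Subgroup.normalClosure ({r} : Set P))) :
    ∃ φ' ∈ DD k (⊥ : Subgroup A), ∀ p : P, φ' (j p) = φ p := by
  unfold DD at hφ
  induction hφ using Submodule.span_induction with
  | mem φ hφ =>
    obtain ⟨S, hS, μ, hμ⟩ := hφ
    obtain ⟨R, hR, _, h1⟩ := ext_tree j r h S hS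
    obtain ⟨φ', μ', h2, h3⟩ := h1 k φ μ hμ
    exact ⟨φ', Submodule.subset_span ⟨R, hR, μ', h2⟩, h3⟩
  | zero => exact ⟨0, Submodule.zero_mem _, fun _ => rfl⟩
  | add x y _ _ hx hy =>
    obtain ⟨x', hx', hx2⟩ := hx
    obtain ⟨y', hy', hy2⟩ := hy
    exact ⟨x' + y', Submodule.add_mem _ hx' hy', fun p => by
      rw [Pi.add_apply, Pi.add_apply, hx2, hy2]⟩
  | smul c x _ hx =>
    obtain ⟨x', hx', hx2⟩ := hx
    exact ⟨c • x', Submodule.smul_mem _ c hx', fun p => by
      rw [Pi.smul_apply, Pi.smul_apply, hx2]⟩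

theorem split_ker (j : P →* A) (r : P) (h : Split j r) :
    j.ker = Subgroup.normalClosure ({r} : Set P) := ext_ker j r h

end Pool.Agent.LTree
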