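import Pool.Agent.Lib.LTree.TB

/-!
# The twisted embedding of `P` into `(P × F) * ⟨y⟩`

`A = P × FreeGroup T.E`, `FF A = A * ⟨y⟩` (`LOTI.Defs`).

PROOF. `T.E` is a free `P`-set (`hT.1` with `K = ⊥`). Choose a representative `s e` of every orbit (`Quotient.out` for `MulAction.orbitRel P T.E`; `s (g • e) = s e`) and the unique
`p e` with `e = p e • s e` (`p (g • e) = g * p e`). `a e = (p e, of (s e))`. `a` is injective: `e = p e • s e`.
`u e = ι (a e) * y * (ι (a e))⁻¹`; `u (g • e) = ι (g, 1) * u e * (ι (g, 1))⁻¹`. `μ₁` a potential of `u` (`T.exists_pot`), `μ v = (μ₁ v₀)⁻¹ * μ₁ v`, also a potential, `μ v₀ = 1`.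
EQUIVARIANCE: for `g : P` `v ↦ (ι (g,1))⁻¹ * μ (g • v) * ι (g,1)` is again a potential of `u` (`t_smul`, `o_smul`), so by `pot_unique` (compare `v` and `v₀`)
`μ (g • v) = μ (g • v₀) * ι (g,1) * μ v * (ι (g,1))⁻¹`. Hence `Φ g = μ (g • v₀) * ι (g,1)` satisfies `Φ (g h) = μ (g • h • v₀) * ι (g h, 1) = Φ g * Φ h`, and for `g • v = v`
`Φ g = μ v * ι (g,1) * (μ v)⁻¹`.
`ρ = lft (MonoidHom.fst P (FreeGroup T.E)) 1`. `ρ ∘ μ` is a potential of the trivial function `ρ (u e) = 1`, as is the constant `1`, so `ρ (μ v) = ρ (μ v₀) = 1` (`pot_unique`), and `ρ (Φ g) = g`.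
-/

set_option autoImplicit false

open scoped Classical

namespace Pool.Agent.LTree

open Pool.Agent.LOTI

variable {P : Type} [Group P]

/-- orbit representatives and the coordinates of a free action -/
private theorem exists_coord {E : Type} [MulAction P E] (hE : ∀ (g : P) (e : E), g • e = e → g = 1) :
    ∃ (s : E → E) (p : E → P), (∀ (g : P) (e : E), s (g • e) = s e) ∧
      (∀ (g : P) (e : E), p (g • e) = g * p e) ∧ ∀ e, p e • s e = e := by
  classical
  let s : E → E := fun e => (Quotient.mk (MulAction.orbitRel P E) e).out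
  have h1 : ∀ e, ∃ g : P, g • s e = e := by
    intro e
    have h2 : (MulAction.orbitRel P E) (s e) e := Quotient.mk_out (s := MulAction.orbitRel P E) e
    rw [MulAction.orbitRel_apply] at h2
    obtain ⟨g, hg⟩ := h2
    refine ⟨g⁻¹, ?_⟩
    rw [← hg]
    exact inv_smul_smul g e
  choose p hp using h1
  have hs : ∀ (g : P) (e : E), s (g • e) = s e := by
    intro g e
    have h2 : Quotient.mk (MulAction.orbitRel P E) (g • e) = Quotient.mk (MulAction.orbitRel P E) e := by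
      apply Quotient.sound
      show (MulAction.orbitRel P E) (g • e) e
      rw [MulAction.orbitRel_apply]
      exact ⟨g, rfl⟩
    exact congrArg Quotient.out h2
  have huniq : ∀ (e : E) (g g' : P), g • e = g' • e → g = g' := by
    intro e g g' h
    have h2 : (g'⁻¹ * g) • e = e := by rw [mul_smul, h, inv_smul_smul]
    have h3 := hE _ _ h2
    exact (inv_mul_eq_one.1 h3).symm
  refine ⟨s, p, hs, fun g e => ?_, hp⟩
  apply huniq (s e)
  have h2 := hp (g • e)
  rw [hs] at h2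
  rw [h2, mul_smul, hp]

theorem twist (T : GTree P) (hT : T.Has ⊥) (v₀ : T.V) :
    ∃ (a : T.E → P × FreeGroup T.E) (μ : T.V → FF (P × FreeGroup T.E))
      (Φ : P →* FF (P × FreeGroup T.E)) (ρ : FF (P × FreeGroup T.E) →* P),
      Function.Injective a ∧ (∀ (g : P) (e : T.E), a (g • e) = (g, 1) * a e) ∧
      (∀ e, μ (T.t e) = μ (T.o e) * (ι (a e) * y * (ι (a e))⁻¹)) ∧ μ v₀ = 1 ∧
      (∀ g : P, Φ g = μ (g • v₀) * ι (g, 1)) ∧
      (∀ g : P, ρ (Φ g) = g) ∧ (∀ b : P × FreeGroup T.E, ρ (ι b) = b.1) ∧ ρ y = 1 ∧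
      ∀ (g : P) (v : T.V), g • v = v → Φ g = μ v * ι (g, 1) * (μ v)⁻¹ := by
  obtain ⟨s, p, hs, hp, hps⟩ := exists_coord (P := P) (E := T.E)
    (fun g e h => Subgroup.mem_bot.1 ((hT.1 g e).1 h))
  have ha : ∀ (g : P) (e : T.E), ((p (g • e), FreeGroup.of (s (g • e))) : P × FreeGroup T.E)
      = (g, 1) * (p e, FreeGroup.of (s e)) := by
    intro g e
    rw [hs, hp, Prod.mk_mul_mk, one_mul]
  generalize haa : (fun e : T.E => ((p e, FreeGroup.of (s e)) : P × FreeGroup T.E)) = a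
  have hinj : Function.Injective a := by
    intro e e' h
    rw [← haa] at h
    simp only [Prod.mk.injEq] at h
    rw [← hps e, ← hps e', h.1, FreeGroup.of_injective h.2]
  have ha' : ∀ (g : P) (e : T.E), a (g • e) = (g, 1) * a e := by
    intro g e
    rw [← haa]
    exact ha g e
  obtain ⟨μ₁, hμ₁⟩ := T.exists_pot (fun e => ι (a e) * y * (ι (a e))⁻¹)
  have hμ : ∀ e, (μ₁ v₀)⁻¹ * μ₁ (T.t e)
      = (μ₁ v₀)⁻¹ * μ₁ (T.o e) * (ι (a e) * y * (ι (a e))⁻¹) := by
    intro e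
    rw [hμ₁, ← mul_assoc (μ₁ v₀)⁻¹]
  generalize hmm : (fun v => (μ₁ v₀)⁻¹ * μ₁ v) = μ
  have hμ' : ∀ e, μ (T.t e) = μ (T.o e) * (ι (a e) * y * (ι (a e))⁻¹) := by
    rw [← hmm]; exact hμ
  have hv₀ : μ v₀ = 1 := by
    rw [← hmm]; exact inv_mul_cancel _
  have heq : ∀ (g : P) (v : T.V), μ (g • v)
      = μ (g • v₀) * ι (g, 1) * μ v * (ι (g, 1))⁻¹ := by
    intro g v
    have hc : ∀ e, (ι (g, 1))⁻¹ * μ (g • T.t e) * ι (g, 1)
        = (ι (g, 1))⁻¹ * μ (g • T.o e) * ι (g, 1) * (ι (a e) * y * (ι (a e))⁻¹) := by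
      intro e
      rw [← T.t_smul, ← T.o_smul, hμ', ha', map_mul]
      group
    have h1 := GTree.pot_unique (T := T) (μ := μ)
      (μ' := fun v => (ι (g, 1))⁻¹ * μ (g • v) * ι (g, 1)) hμ' hc v₀ v
    simp only [hv₀, inv_one, mul_one] at h1
    have h2 := mul_inv_eq_iff_eq_mul.1 h1
    calc μ (g • v) = ι (g, 1) * ((ι (g, 1))⁻¹ * μ (g • v) * ι (g, 1)) * (ι (g, 1))⁻¹ := by group
      _ = _ := by rw [h2]; group
  have hΦ1 : ∀ g h : P, μ ((g * h) • v₀) * ι (g * h, 1)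
      = (μ (g • v₀) * ι (g, 1)) * (μ (h • v₀) * ι (h, 1)) := by
    intro g h
    have h1 : ((g * h, 1) : P × FreeGroup T.E) = (g, 1) * (h, 1) := by
      rw [Prod.mk_mul_mk, one_mul]
    rw [mul_smul, heq g (h • v₀), h1, map_mul]
    group
  refine ⟨a, μ, MonoidHom.mk' (fun g => μ (g • v₀) * ι (g, 1)) hΦ1,
    lft (MonoidHom.fst P (FreeGroup T.E)) 1, hinj, ha', hμ', hv₀, fun g => rfl, ?_, ?_, ?_, ?_⟩
  · intro g
    show lft (MonoidHom.fst P (FreeGroup T.E)) 1 (μ (g • v₀) * ι (g, 1)) = g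
    have h1 : ∀ v, lft (MonoidHom.fst P (FreeGroup T.E)) 1 (μ v) = 1 := by
      intro v
      have h2 := GTree.pot_unique (T := T) (X := P) (u := fun _ => 1) (μ := fun _ => 1)
        (μ' := fun v => lft (MonoidHom.fst P (FreeGroup T.E)) 1 (μ v)) (by intro e; simp)
        (by
          intro e
          show lft (MonoidHom.fst P (FreeGroup T.E)) 1 (μ (T.t e)) = _
          rw [hμ']
          simp) v₀ v
      simpa [hv₀] using h2
    rw [map_mul, h1, lft_ι, one_mul]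
    rfl
  · intro b
    rw [lft_ι]
    rfl
  · exact lft_y _ _
  · intro g v hgv
    show μ (g • v₀) * ι (g, 1) = _
    have h1 := heq g v
    rw [hgv] at h1
    have h2 : μ v * ι (g, 1) = μ (g • v₀) * ι (g, 1) * μ v := by
      conv_lhs => rw [h1]
      group
    rw [h2, mul_inv_cancel_right]

end Pool.Agent.LTree
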