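import Pool.Agent.Lib.LTree.FreiG
import Pool.Agent.Lib.LTree.Axis
import Pool.Agent.Lib.LTree.Twist

/-!
# Howie's theorem and the Freiheitssatz for trees

PROOF. `axis T y hy` gives `m`, `ℓ`; let `v₀ = T.src (ℓ 1)` and take `a, μ, Φ, ρ` from `twist T hT v₀`. `A = P × FreeGroup T.E` is LI: `LI.ext (MonoidHom.snd …)` (kernel isomorphic to a subgroup of `P` by `fst`,
`LI.of_injective`), `LI_free`. Write `e i = (ℓ i).1`, `α i = a (e i) : A`; `α (i + m) = (y, 1) * α i` (here `y : P`).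
GEODESIC `Γ : Geo A`: `m`, `u i = 1` if `(ℓ i).2 = true`, else `-1`, `g i = (α i)⁻¹ * α (i + 1)`, `p` from `LOTI.exists_p` (module CycRed) with `s i = y ^ (u i) * ι (g i)`. `uper`, `gper`: periodicity. `red`: `g i = 1` implies
`α i = α (i+1)`, `e i = e (i+1)` (`a` injective), so the signs agree.
CLAIM for `n : ℕ`: `ι (α 1) * Γ.p n = μ (T.src (ℓ (n + 1))) * ι (α (n + 1))`. Induction: `n = 0` `μ v₀ = 1`; step: `ι (α (n+1)) * (y ^ u * ι ((α (n+1))⁻¹ * α (n+2))) = (ι (α (n+1)) * y ^ u * (ι (α (n+1)))⁻¹) * ι (α (n+2))` and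
`μ (src (ℓ (n+1))) * (ι (α (n+1)) * y ^ u * (ι (α (n+1)))⁻¹) = μ (tgt (ℓ (n+1))) = μ (src (ℓ (n+2)))` (both signs: `μ (t e) = μ (o e) * …`).
For `n = m`: `src (ℓ (m+1)) = y • v₀`, `α (m + 1) = (y,1) * α 1`, so `ι (α 1) * Γ.w = μ (y • v₀) * ι (y,1) * ι (α 1) = Φ y * ι (α 1)`, i.e. `Φ y = ι (α 1) * Γ.w * (ι (α 1))⁻¹`.
`NPow Γ.w`: if `Γ.w = x ^ q` then `Φ y = (…) ^ q`, `y = ρ (Φ y) = ρ (…) ^ q`, contradiction to `hpow`.
(1) `Φ` maps `normalClosure {y}` into `normalClosure {Γ.w}`, and `ρ` maps `normalClosure {Γ.w}` into `normalClosure {y}` (`ρ Γ.w = (α 1).1⁻¹ * y * (α 1).1`), so `Φ g ∈ normalClosure {Γ.w}` implies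
`g = ρ (Φ g) ∈ normalClosure {y}`: the induced homomorphism of the quotients is injective, and `thmG`, `LI.of_injective`.
(2) If `g • v = v`, `g ∈ normalClosure {y}`, then `Φ g = μ v * ι (g,1) * (μ v)⁻¹ ∈ normalClosure {Γ.w}`, so `ι (g,1)` is in it and `(g, 1) = 1` by `freiG`.
-/

set_option autoImplicit false

open scoped Classical

namespace Pool.Agent.LTree

open Pool.Agent.LOTI

private theorem LI_prod {P : Type} [Group P] (hP : LI P) (E : Type) : LI (P × FreeGroup E) := by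
  refine LI.ext (MonoidHom.snd P (FreeGroup E)) (LI_free _) ?_
  refine LI.of_injective ((MonoidHom.fst P (FreeGroup E)).comp
    (MonoidHom.snd P (FreeGroup E)).ker.subtype) ?_ hP
  rintro ⟨⟨p, f⟩, hf⟩ ⟨⟨p', f'⟩, hf'⟩ h
  have h1 : f = 1 := hf
  have h2 : f' = 1 := hf'
  have h3 : p = p' := h
  subst h1 h2 h3
  rfl

theorem ft {P : Type} [Group P] (hP : LI P) (T : GTree P) (hT : T.Has ⊥) (x : P)
    (hx : ¬ T.Ell x) (hpow : NPow x) :
    LI (P ⧸ Subgroup.normalClosure ({x} : Set P)) ∧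
      ∀ (v : T.V) (g : P), g • v = v → g ∈ Subgroup.normalClosure ({x} : Set P) → g = 1 := by
  obtain ⟨m, ℓ, hm, hℓ1, hℓ2, hℓ3⟩ := axis T x hx
  obtain ⟨a, μ, Φ, ρ, ha, hag, hμ, hμ0, hΦ, hρΦ, hρι, hρy, hfix⟩ := twist T hT (T.src (ℓ 1))
  have hA : LI (P × FreeGroup T.E) := LI_prod hP T.E
  have hα : ∀ i : ℤ, a (ℓ (i + m)).1 = (x, 1) * a (ℓ i).1 := by
    intro i
    rw [hℓ1 i]
    exact hag x (ℓ i).1
  have hu : ∀ i : ℤ, (ℓ (i + m)).2 = (ℓ i).2 := by
    intro i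
    rw [hℓ1 i]
  obtain ⟨p, hp0, hpS⟩ := exists_p (fun i : ℤ =>
    (y ^ (((if (ℓ i).2 then (1 : ℤˣ) else -1) : ℤˣ) : ℤ) *
      ι ((a (ℓ i).1)⁻¹ * a (ℓ (i + 1)).1) : FF (P × FreeGroup T.E)))
  let Γ : Geo (P × FreeGroup T.E) :=
    { m := m
      hm := hm
      u := fun i => if (ℓ i).2 then 1 else -1
      g := fun i => (a (ℓ i).1)⁻¹ * a (ℓ (i + 1)).1
      uper := fun i => by rw [hu i]
      gper := fun i => by
        have h1 : i + (m : ℤ) + 1 = (i + 1) + m := by ring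
        rw [h1, hα, hα]
        group
      red := fun i hi => by
        have h1 : a (ℓ i).1 = a (ℓ (i + 1)).1 := by
          have h2 : (a (ℓ i).1)⁻¹ * a (ℓ (i + 1)).1 = 1 := hi
          exact (inv_mul_eq_one.1 h2)
        rw [hℓ3 i (ha h1)]
      p := p
      p0 := hp0
      pS := hpS }
  have hstep : ∀ i : ℤ, μ (T.src (ℓ i)) * (ι (a (ℓ i).1) *
      y ^ (((if (ℓ i).2 then (1 : ℤˣ) else -1) : ℤˣ) : ℤ) * (ι (a (ℓ i).1))⁻¹) =
      μ (T.tgt (ℓ i)) := by
    intro i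
    obtain ⟨e, b⟩ := ℓ i
    cases b
    · have h1 := hμ e
      show μ (T.t e) * (ι (a e) * y ^ (((if false = true then (1 : ℤˣ) else -1) : ℤˣ) : ℤ) *
        (ι (a e))⁻¹) = μ (T.o e)
      rw [h1]
      simp only [Bool.false_eq_true, if_false, Units.val_neg, Units.val_one, zpow_neg, zpow_one]
      group
    · have h1 := hμ e
      show μ (T.o e) * (ι (a e) * y ^ (((if true = true then (1 : ℤˣ) else -1) : ℤˣ) : ℤ) *
        (ι (a e))⁻¹) = μ (T.t e)
      rw [h1]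
      simp only [if_true, Units.val_one, zpow_one]
  have claim : ∀ n : ℕ, ι (a (ℓ 1).1) * p n = μ (T.src (ℓ (n + 1))) * ι (a (ℓ (n + 1)).1) := by
    intro n
    induction n with
    | zero =>
      simp only [Nat.cast_zero, zero_add]
      rw [hp0, hμ0, one_mul, mul_one]
    | succ n ih =>
      push_cast
      rw [hpS n, ← mul_assoc, ih]
      have h1 := hstep (n + 1)
      rw [hℓ2] at h1
      rw [← h1]
      simp only [map_mul, map_inv]
      group
  have hw : Φ x = ι (a (ℓ 1).1) * Γ.w * (ι (a (ℓ 1).1))⁻¹ := by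
    have h1 := claim m
    have h2 : ((m : ℤ) + 1) = 1 + m := by ring
    rw [h2, hα 1] at h1
    have h3 : T.src (ℓ (1 + m)) = x • T.src (ℓ 1) := by
      rw [hℓ1 1]
      exact GTree.src_smul x (ℓ 1).1 (ℓ 1).2
    rw [h3, map_mul, ← mul_assoc, ← hΦ] at h1
    rw [eq_mul_inv_iff_mul_eq]
    exact h1.symm
  have hpw : NPow Γ.w := by
    intro v q hq h
    refine hpow (ρ (ι (a (ℓ 1).1) * v * (ι (a (ℓ 1).1))⁻¹)) q hq ?_
    rw [← map_pow, conj_pow, ← h, ← hw, hρΦ]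
  have hxw : ρ Γ.w = (ρ (ι (a (ℓ 1).1)))⁻¹ * x * ρ (ι (a (ℓ 1).1)) := by
    have h1 : Γ.w = (ι (a (ℓ 1).1))⁻¹ * Φ x * ι (a (ℓ 1).1) := by
      rw [hw]
      group
    rw [h1, map_mul, map_mul, map_inv, hρΦ]
  have hN1 : Subgroup.normalClosure ({Γ.w} : Set (FF (P × FreeGroup T.E))) ≤
      (Subgroup.normalClosure ({x} : Set P)).comap ρ := by
    rw [← Subgroup.normalClosure_subset_iff]
    rintro _ rfl
    show ρ Γ.w ∈ Subgroup.normalClosure ({x} : Set P)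
    rw [hxw]
    have h1 := (Subgroup.normalClosure_normal (s := ({x} : Set P))).conj_mem x
      (Subgroup.subset_normalClosure rfl) (ρ (ι (a (ℓ 1).1)))⁻¹
    rwa [inv_inv] at h1
  have hN2 : Subgroup.normalClosure ({x} : Set P) ≤
      (Subgroup.normalClosure ({Γ.w} : Set (FF (P × FreeGroup T.E)))).comap Φ := by
    rw [← Subgroup.normalClosure_subset_iff]
    rintro _ rfl
    show Φ _ ∈ Subgroup.normalClosure ({Γ.w} : Set (FF (P × FreeGroup T.E)))
    rw [hw]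
    exact (Subgroup.normalClosure_normal (s := ({Γ.w} : Set (FF (P × FreeGroup T.E))))).conj_mem
      Γ.w (Subgroup.subset_normalClosure rfl) _
  constructor
  · refine LI.of_injective (QuotientGroup.map _ _ Φ hN2) ?_ (thmG hA Γ hpw)
    rw [injective_iff_map_eq_one]
    intro z hz
    induction z using QuotientGroup.induction_on with
    | H g =>
      rw [QuotientGroup.map_mk, QuotientGroup.eq_one_iff] at hz
      rw [QuotientGroup.eq_one_iff]
      have h1 := hN1 hz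
      rw [Subgroup.mem_comap, hρΦ] at h1
      exact h1
  · intro v g hgv hg
    have h1 : Φ g ∈ Subgroup.normalClosure ({Γ.w} : Set (FF (P × FreeGroup T.E))) := hN2 hg
    have h2 : ι (g, 1) ∈ Subgroup.normalClosure ({Γ.w} : Set (FF (P × FreeGroup T.E))) := by
      have h3 := (Subgroup.normalClosure_normal
        (s := ({Γ.w} : Set (FF (P × FreeGroup T.E))))).conj_mem (Φ g) h1 (μ v)⁻¹
      rw [hfix g v hgv] at h3
      have h4 : (μ v)⁻¹ * (μ v * ι (g, 1) * (μ v)⁻¹) * (μ v)⁻¹⁻¹ = ι (g, 1) := by group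
      rwa [h4] at h3
    have h5 := freiG hA Γ hpw (g, 1) h2
    exact congrArg Prod.fst h5

end Pool.Agent.LTree
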