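import Pool.Agent.Lib.LTree.Build

/-!
# One fold

STATEMENT. `f : T → S` a map of trees, `T` with trivial edge stabilisers, `a ≠ a'` edges of `T` with the same image and a common end point `c = src (a, b) = src (a', b)` (both
start at `c` if `b = true`, both end at `c` if `b = false`); the stabiliser of `c` meets `L` trivially, where `S` has the edge stabilisers `L`. Then `f` factors through a tree
`R` with trivial edge stabilisers in which `a` and `a'` are identified.

PROOF. (1) `a' ∉ G a`: if `a' = n • a` then `f a = f a' = n • f a`, so `n ∈ L` (`hS.1`); and `n • c = src (n • a, b) = src (a', b) = c`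
(`src_smul`), so `n = 1` and `a' = a`.
(2) `E' = {e : T.E // e ∉ MulAction.orbit G a'}` with the restricted action (`e ∉ G a'` iff `g • e ∉ G a'`). `q : T.E → E'`: `q e = e` for `e ∉ G a'`, `q (g • a') = g • a` (well
defined: `T.E` is free, `hT.1`, so `g` is unique; `g • a ∉ G a'` by (1)). `q` is equivariant, `q a = q a'`.
(3) Let `p = tgt (a, b)`, `p' = tgt (a', b)`. Apply `build` with `V = T.V`, `E = E'`, `o e = T.o e.1`, `t e = T.t e.1`, `R₀ x y := ∃ g : G, x = g • p ∧ y = g • p'`.
* `conn`: from `T.conn`; an edge `e ∉ G a'` is an edge of `E'`; the two ends of `g • a'` are `g • c`, `g • p'` (in the order given by `b`); `g • c` is joined to `g • p` by the edge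
  `g • a`, and `g • p` to `g • p'` by a silent edge.
* `pot`: a potential `μ : T.V → FreeGroup E'` of `u e = of (q e)` (`T.exists_pot`); for `e ∉ G a'` `q e = e`; `μ (g • p) = μ (g • p')` since both are obtained from
  `μ (g • c)` by the same factor `of (q (g • a)) ^ (± 1) = of (q (g • a')) ^ (± 1)`.
* `Has ⊥` : clear, `E'` is a sub-`G`-set of `T.E`.
* `q : T → R` is a map of trees: vertices `Quot.mk`; for `e ∉ G a'` clear; for `e = g • a'` the end `g • p'` of `e` has the same class as the end `g • p` of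
  `g • a = q e`, and the other end is `g • c` for both.
* `R → S`: edges `e ↦ f.fE e.1`, vertices `Quot.lift f.fV`: `f (g • p) = f (g • p')` because `f a = f a'`, so the ends agree (`Hom.fV_o`, `Hom.fV_t`).
-/

set_option autoImplicit false

open scoped Classical

namespace Pool.Agent.LTree

open Pool.Agent.LOTI

variable {G : Type} [Group G]

/-- the edges outside the orbit of `a'` -/
private def FoldSE (T : GTree G) (a' : T.E) : Type := {e : T.E // ¬ ∃ g : G, e = g • a'}

private instance foldS_act (T : GTree G) (a' : T.E) : MulAction G (FoldSE T a') where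
  smul g e := ⟨g • e.1, fun h => e.2 (by
    obtain ⟨k, hk⟩ := h
    exact ⟨g⁻¹ * k, by rw [mul_smul, ← hk, inv_smul_smul]⟩)⟩
  one_smul e := Subtype.ext (one_smul G e.1)
  mul_smul g h e := Subtype.ext (mul_smul g h e.1)

private theorem foldS_val (T : GTree G) (a' : T.E) (g : G) (e : FoldSE T a') :
    (g • e).1 = g • e.1 := rfl

private theorem foldS_out (T : GTree G) (a a' : T.E) (h1 : ∀ g : G, g • a ≠ a') (g : G) :
    ¬ ∃ k : G, g • a = k • a' := by
  rintro ⟨k, hk⟩
  exact h1 (k⁻¹ * g) (by rw [mul_smul, hk, inv_smul_smul])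

/-- the folding map on the edges -/
private noncomputable def foldS_q (T : GTree G) (a a' : T.E) (h1 : ∀ g : G, g • a ≠ a')
    (e : T.E) : FoldSE T a' :=
  if h : ∃ g : G, e = g • a' then ⟨h.choose • a, foldS_out T a a' h1 _⟩ else ⟨e, h⟩

private theorem foldS_q_in (T : GTree G) (hT : T.Has ⊥) (a a' : T.E)
    (h1 : ∀ g : G, g • a ≠ a') (g : G) :
    foldS_q T a a' h1 (g • a') = ⟨g • a, foldS_out T a a' h1 g⟩ := by
  have h : ∃ k : G, g • a' = k • a' := ⟨g, rfl⟩
  unfold foldS_q
  rw [dif_pos h]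
  have h2 := h.choose_spec
  have h3 : (h.choose⁻¹ * g) • a' = a' := by
    rw [mul_smul, inv_smul_eq_iff]
    exact h2
  have h4 := (hT.1 _ _).1 h3
  rw [Subgroup.mem_bot, inv_mul_eq_one] at h4
  exact Subtype.ext (congrArg (· • a) h4)

private theorem foldS_q_out (T : GTree G) (a a' : T.E) (h1 : ∀ g : G, g • a ≠ a') (e : T.E)
    (h : ¬ ∃ g : G, e = g • a') : foldS_q T a a' h1 e = ⟨e, h⟩ := by
  unfold foldS_q
  rw [dif_neg h]

private theorem foldS_q_smul (T : GTree G) (hT : T.Has ⊥) (a a' : T.E)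
    (h1 : ∀ g : G, g • a ≠ a') (g : G) (e : T.E) :
    foldS_q T a a' h1 (g • e) = g • foldS_q T a a' h1 e := by
  by_cases h : ∃ k : G, e = k • a'
  · obtain ⟨k, rfl⟩ := h
    rw [← mul_smul, foldS_q_in T hT a a' h1, foldS_q_in T hT a a' h1]
    exact Subtype.ext (mul_smul g k a)
  · have h' : ¬ ∃ k : G, g • e = k • a' := by
      rintro ⟨k, hk⟩
      exact h ⟨g⁻¹ * k, by rw [mul_smul, ← hk, inv_smul_smul]⟩
    rw [foldS_q_out T a a' h1 _ h, foldS_q_out T a a' h1 _ h']
    rfl

private theorem foldS_q_a (T : GTree G) (hT : T.Has ⊥) (a a' : T.E)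
    (h1 : ∀ g : G, g • a ≠ a') (g : G) :
    foldS_q T a a' h1 (g • a) = foldS_q T a a' h1 (g • a') := by
  rw [foldS_q_in T hT a a' h1, foldS_q_out T a a' h1 _ (foldS_out T a a' h1 g)]

private theorem foldS_not (T S : GTree G) (L : Subgroup G) (hS : S.Has L) (f : T.Hom S)
    (a a' : T.E) (b : Bool) (hne : a ≠ a') (hf : f.fE a = f.fE a')
    (hc : T.src (a, b) = T.src (a', b))
    (hst : ∀ g : G, g • T.src (a, b) = T.src (a, b) → g ∈ L → g = 1) (g : G) :
    g • a ≠ a' := by
  intro h
  have h1 : g • f.fE a = f.fE a := by rw [← f.fE_smul, h, hf]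
  have h2 : g ∈ L := (hS.1 _ _).1 h1
  have h3 : g • T.src (a, b) = T.src (a, b) := by
    rw [← GTree.src_smul, h, hc]
  have h4 := hst g h3 h2
  rw [h4, one_smul] at h
  exact hne h

/-- the silent edges -/
private def foldS_R (T : GTree G) (a a' : T.E) (b : Bool) (x y : T.V) : Prop :=
  ∃ g : G, x = g • T.tgt (a, b) ∧ y = g • T.tgt (a', b)

private theorem foldS_conn (T : GTree G) (a a' : T.E) (b : Bool)
    (h1 : ∀ g : G, g • a ≠ a') (hc : T.src (a, b) = T.src (a', b)) (v w : T.V) :
    Relation.EqvGen (fun x y => foldS_R T a a' b x y ∨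
      ∃ e : FoldSE T a', x = T.o e.1 ∧ y = T.t e.1) v w := by
  have key : ∀ g : G, Relation.EqvGen (fun x y => foldS_R T a a' b x y ∨
      ∃ e : FoldSE T a', x = T.o e.1 ∧ y = T.t e.1) (T.src (g • a', b)) (T.tgt (g • a', b)) := by
    intro g
    have e1 : T.src (g • a', b) = T.src (g • a, b) := by
      rw [GTree.src_smul, GTree.src_smul, hc]
    have e2 : Relation.EqvGen (fun x y => foldS_R T a a' b x y ∨
      ∃ e : FoldSE T a', x = T.o e.1 ∧ y = T.t e.1) (T.tgt (g • a, b)) (T.tgt (g • a', b)) :=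
      Relation.EqvGen.rel _ _ (Or.inl ⟨g, GTree.tgt_smul g a b, GTree.tgt_smul g a' b⟩)
    rw [e1]
    refine Relation.EqvGen.trans _ _ _ ?_ e2
    cases b
    · exact Relation.EqvGen.symm _ _ (Relation.EqvGen.rel _ _
        (Or.inr ⟨⟨g • a, foldS_out T a a' h1 g⟩, rfl, rfl⟩))
    · exact Relation.EqvGen.rel _ _ (Or.inr ⟨⟨g • a, foldS_out T a a' h1 g⟩, rfl, rfl⟩)
  have h := T.conn v w
  induction h with
  | rel x y h =>
    obtain ⟨e, rfl, rfl⟩ := h
    by_cases h : ∃ k : G, e = k • a'
    · obtain ⟨k, rfl⟩ := h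
      have h2 := key k
      cases b
      · exact Relation.EqvGen.symm _ _ h2
      · exact h2
    · exact Relation.EqvGen.rel _ _ (Or.inr ⟨⟨e, h⟩, rfl, rfl⟩)
  | refl x => exact Relation.EqvGen.refl _
  | symm x y _ ih => exact Relation.EqvGen.symm _ _ ih
  | trans x y z _ _ ih1 ih2 => exact Relation.EqvGen.trans _ _ _ ih1 ih2

private theorem foldS_pot (T : GTree G) (hT : T.Has ⊥) (a a' : T.E) (b : Bool)
    (h1 : ∀ g : G, g • a ≠ a') (hc : T.src (a, b) = T.src (a', b)) :
    ∃ μ : T.V → FreeGroup (FoldSE T a'),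
      (∀ e : FoldSE T a', μ (T.t e.1) = μ (T.o e.1) * FreeGroup.of e) ∧
      ∀ x y, foldS_R T a a' b x y → μ x = μ y := by
  obtain ⟨μ, hμ⟩ := T.exists_pot (fun e => FreeGroup.of (foldS_q T a a' h1 e))
  refine ⟨μ, fun e => ?_, ?_⟩
  · have h2 := hμ e.1
    rw [foldS_q_out T a a' h1 e.1 e.2] at h2
    exact h2
  · rintro x y ⟨g, rfl, rfl⟩
    have e1 : T.src (g • a, b) = T.src (g • a', b) := by
      rw [GTree.src_smul, GTree.src_smul, hc]
    have e2 := foldS_q_a T hT a a' h1 g
    have h2 := hμ (g • a)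
    have h3 := hμ (g • a')
    rw [← GTree.tgt_smul, ← GTree.tgt_smul]
    cases b
    · have e3 : T.t (g • a) = T.t (g • a') := e1
      show μ (T.o (g • a)) = μ (T.o (g • a'))
      rw [e3, h3] at h2
      simp only [e2] at h2
      exact (mul_right_cancel h2).symm
    · have e3 : T.o (g • a) = T.o (g • a') := e1
      show μ (T.t (g • a)) = μ (T.t (g • a'))
      rw [h2, h3, e3]
      simp only [e2]

theorem foldS (T S : GTree G) (L : Subgroup G) (hT : T.Has ⊥) (hS : S.Has L) (f : T.Hom S)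
    (a a' : T.E) (b : Bool) (hne : a ≠ a') (hf : f.fE a = f.fE a')
    (hc : T.src (a, b) = T.src (a', b))
    (hst : ∀ g : G, g • T.src (a, b) = T.src (a, b) → g ∈ L → g = 1) :
    ∃ R : GTree G, R.Has ⊥ ∧ Nonempty (R.Hom S) ∧ ∃ q : T.Hom R, q.fE a = q.fE a' := by
  have h1 : ∀ g : G, g • a ≠ a' := foldS_not T S L hS f a a' b hne hf hc hst
  have hR : ∀ (g : G) (x y : T.V), foldS_R T a a' b x y →
      foldS_R T a a' b (g • x) (g • y) := by
    rintro g x y ⟨k, rfl, rfl⟩
    exact ⟨g * k, (mul_smul g k _).symm, (mul_smul g k _).symm⟩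
  have hp : f.fV (T.tgt (a, b)) = f.fV (T.tgt (a', b)) := by
    cases b
    · show f.fV (T.o a) = f.fV (T.o a')
      rw [f.fV_o, f.fV_o, hf]
    · show f.fV (T.t a) = f.fV (T.t a')
      rw [f.fV_t, f.fV_t, hf]
  refine ⟨build T.V (FoldSE T a') (fun e => T.o e.1) (fun e => T.t e.1)
    (fun g e => T.o_smul g e.1) (fun g e => T.t_smul g e.1) (foldS_R T a a' b) hR
    (foldS_conn T a a' b h1 hc) (foldS_pot T hT a a' b h1 hc), ⟨?_, ?_⟩, ⟨?_⟩, ?_⟩
  · intro g e
    constructor
    · intro h
      exact (hT.1 g e.1).1 (congrArg Subtype.val h)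
    · intro h
      exact Subtype.ext ((hT.1 g e.1).2 h)
  · intro g v h
    rw [Subgroup.mem_bot] at h
    rw [h, one_smul]
  · exact
      { fV := Quot.lift f.fV (by
          rintro x y ⟨g, rfl, rfl⟩
          rw [f.fV_smul, f.fV_smul, hp])
        fE := fun e => f.fE e.1
        fV_smul := by
          rintro g ⟨v⟩
          exact f.fV_smul g v
        fE_smul := fun g e => f.fE_smul g e.1
        fV_o := fun e => f.fV_o e.1
        fV_t := fun e => f.fV_t e.1 }
  · have hends : ∀ g : G,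
        Quot.mk (foldS_R T a a' b) (T.o (g • a')) = Quot.mk (foldS_R T a a' b) (T.o (g • a)) ∧
        Quot.mk (foldS_R T a a' b) (T.t (g • a')) = Quot.mk (foldS_R T a a' b) (T.t (g • a)) := by
      intro g
      have e1 : T.src (g • a', b) = T.src (g • a, b) := by
        rw [GTree.src_smul, GTree.src_smul, hc]
      have e2 : Quot.mk (foldS_R T a a' b) (T.tgt (g • a', b)) =
          Quot.mk (foldS_R T a a' b) (T.tgt (g • a, b)) :=
        (Quot.sound ⟨g, GTree.tgt_smul g a b, GTree.tgt_smul g a' b⟩).symm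
      cases b
      · exact ⟨e2, congrArg _ e1⟩
      · exact ⟨congrArg _ e1, e2⟩
    refine ⟨
      { fV := Quot.mk _
        fE := foldS_q T a a' h1
        fV_smul := fun g v => rfl
        fE_smul := fun g e => foldS_q_smul T hT a a' h1 g e
        fV_o := ?_
        fV_t := ?_ }, ?_⟩
    · intro e
      show Quot.mk _ (T.o e) = Quot.mk _ (T.o (foldS_q T a a' h1 e).1)
      by_cases h : ∃ k : G, e = k • a'
      · obtain ⟨k, rfl⟩ := h
        rw [foldS_q_in T hT a a' h1]
        exact (hends k).1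
      · rw [foldS_q_out T a a' h1 _ h]
    · intro e
      show Quot.mk _ (T.t e) = Quot.mk _ (T.t (foldS_q T a a' h1 e).1)
      by_cases h : ∃ k : G, e = k • a'
      · obtain ⟨k, rfl⟩ := h
        rw [foldS_q_in T hT a a' h1]
        exact (hends k).2
      · rw [foldS_q_out T a a' h1 _ h]
    · have h2 := foldS_q_a T hT a a' h1 1
      rwa [one_smul, one_smul] at h2

end Pool.Agent.LTree
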