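import Pool.Agent.Lib.LOTI.ThmH
import Pool.Agent.Lib.LOTI.Coc1
import Pool.Agent.Lib.LTree.Defs

/-!
# Howie's theorem and the Freiheitssatz for a geodesic word

PROOFS.
* `thmG`: this is exactly the part `key` of the proof of `LOTI.thmH` (file `Pool/Agent/Lib/LOTI/ThmH.lean`): copy it (and the private auxiliary lemmas of that file).
* `torsion_free`: if `x ^ n = 1`, `n ≥ 1`, every homomorphism `zpowers x →* Multiplicative ℚ` is trivial (`ℚ` is torsion free), so `zpowers x = ⊥`.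
* `freiG`: suppose `a ≠ 1`. Let `r = y * ι a * y * ι a⁻¹ : FF A`.
  (1) `r` is not conjugate to an element `ι b`: use `lft 1 (ofAdd 1) : FF A →* Multiplicative ℤ` (`r ↦ 2`, `g * ι b * g⁻¹ ↦ 0`).
  (2) `NPow r`: let `r = v ^ q`, `2 ≤ q`. `FF A` acts on `A` (`MulAction.compHom A (lft (MonoidHom.id A) 1)`, i.e. `ι b • o = b * o`, `y • o = o`). The element `v` acts as left multiplication by some
      `b : A` with `b ^ q =` (image of `r`) `= a * a⁻¹ = 1`, so `b = 1` (`torsion_free hA`). By `LOTI.exists_coc` there is a cocycle `c : FF A → A → Multiplicative ℤ` with `c (ι b) o = 1`,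
      `c y o = ofAdd 1` for `o = 1`, `c y o = 1` for `o ≠ 1`. Then `c r 1 = c y 1 * c y a⁻¹ = ofAdd 1` and `c (v ^ q) 1 = (c v 1) ^ q` (as `v • o = o`): `q ∣ 1`, contradiction.
  (3) `B = FF A ⧸ normalClosure {r}` is LI by `thmH`. `β : A →* B`, `a ↦ mk (ι a)`, has the left inverse `ρ : B →* A` induced by `lft (MonoidHom.id A) 1` (`r ↦ 1`).
  (4) For `f : A →* B` let `FF A →* FF B` be `lft (ι.comp f) y`. The images of `Γ.p i` under `FF β` give `Γ_B : Geo B` with the same `m`, `u`, and `g i` replaced by `β (g i)` (`red` : `β` is injective).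
      `NPow Γ_B.w`: apply `FF ρ : FF B →* FF A` (`FF ρ ∘ FF β = id`).
  (5) `L = FF B ⧸ normalClosure {Γ_B.w}` is LI by `thmG`. In `L` the image of `ι (β a)` is `1` (`ι a ∈ normalClosure {Γ.w}` is mapped by `FF β` into `normalClosure {Γ_B.w}`). Since `mk y * β a * mk y * (β a)⁻¹ = 1` in `B`,
      the square of the image of `ι (mk y)` in `L` is `1`, so it is `1` (`torsion_free`): `ι (mk y) ∈ normalClosure {Γ_B.w}`.
  (6) `ψ : FF B →* Multiplicative (ZMod 2)`: `lft ψ₀ 1`, `ψ₀ : B →* Multiplicative (ZMod 2)` induced by `lft 1 (ofAdd 1)` on `FF A` (`r ↦ 2 = 0`). `ψ ∘ FF β = 1`, so `ψ` kills `Γ_B.w`, but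
      `ψ (ι (mk y)) = ofAdd 1 ≠ 1`. Contradiction.
-/

set_option autoImplicit false

open scoped Classical

namespace Pool.Agent.LTree

open Pool.Agent.LOTI

private theorem frg_fin_aux {G : Type} [Group G] (w r : G)
    (hr : r ∈ Subgroup.normalClosure ({w} : Set G)) :
    ∃ T : Finset G, r ∈ Subgroup.closure ((fun t => t * w * t⁻¹) '' (T : Set G)) := by
  unfold Subgroup.normalClosure at hr
  induction hr using Subgroup.closure_induction with
  | mem x hx =>
    rw [Group.mem_conjugatesOfSet_iff] at hx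
    obtain ⟨a, ha, hc⟩ := hx
    rw [Set.mem_singleton_iff] at ha
    subst ha
    rw [isConj_iff] at hc
    obtain ⟨c, hc⟩ := hc
    refine ⟨{c}, Subgroup.subset_closure ⟨c, by simp, hc⟩⟩
  | one => exact ⟨∅, Subgroup.one_mem _⟩
  | mul x y _ _ hx hy =>
    obtain ⟨T1, h1⟩ := hx
    obtain ⟨T2, h2⟩ := hy
    refine ⟨T1 ∪ T2, Subgroup.mul_mem _ ?_ ?_⟩
    · exact Subgroup.closure_mono (Set.image_mono (by push_cast; exact Set.subset_union_left)) h1
    · exact Subgroup.closure_mono (Set.image_mono (by push_cast; exact Set.subset_union_right)) h2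
  | inv x _ hx =>
    obtain ⟨T1, h1⟩ := hx
    exact ⟨T1, Subgroup.inv_mem _ h1⟩

private theorem frg_torsion_aux (x : Multiplicative ℚ) (n : ℕ) (hn : 0 < n) (h : x ^ n = 1) :
    x = 1 := by
  have h1 : n • Multiplicative.toAdd x = 0 := by
    rw [← toAdd_pow, h, toAdd_one]
  rw [nsmul_eq_mul, mul_eq_zero] at h1
  rcases h1 with h1 | h1
  · exact absurd (Nat.cast_eq_zero.1 h1) hn.ne'
  · exact Multiplicative.toAdd.injective h1

theorem torsion_free {G : Type} [Group G] (hG : LI G) (x : G) (n : ℕ) (hn : 1 ≤ n)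
    (h : x ^ n = 1) : x = 1 := by
  have h1 := hG (Subgroup.zpowers x)
    ⟨{x}, by rw [Finset.coe_singleton, Subgroup.zpowers_eq_closure]⟩ ?_
  · have h2 : x ∈ (⊥ : Subgroup G) := h1 ▸ Subgroup.mem_zpowers x
    exact Subgroup.mem_bot.1 h2
  · intro φ
    ext ⟨g, hg⟩
    obtain ⟨k, rfl⟩ := Subgroup.mem_zpowers_iff.1 hg
    have h2 : (⟨x ^ k, hg⟩ : Subgroup.zpowers x) ^ n = 1 := by
      apply Subtype.ext
      show (x ^ k) ^ n = 1
      rw [← zpow_natCast, ← zpow_mul, mul_comm, zpow_mul, zpow_natCast, h, one_zpow]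
    have h3 : (φ ⟨x ^ k, hg⟩) ^ n = 1 := by rw [← map_pow, h2, map_one]
    rw [frg_torsion_aux _ n hn h3]
    rfl

theorem thmG {A : Type} [Group A] (hA : LI A) (Γ : Geo A) (hw : NPow Γ.w) :
    LI (FF A ⧸ Subgroup.normalClosure ({Γ.w} : Set (FF A))) := by
  have h2' : ∀ (v : FF A) (q : ℕ), 2 ≤ q → Γ.w ≠ v ^ q := hw
  obtain ⟨P, hP⟩ := exists_cone (Subgroup.zpowers Γ.w)
    (fun N hN hne => rel hA Γ h2' N hN hne)
  intro H hHfg hH
  have hHfg' : Group.FG H := (Group.fg_iff_subgroup_fg H).2 hHfg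
  obtain ⟨s, hs⟩ := hHfg
  set π : FF A →* FF A ⧸ Subgroup.normalClosure ({Γ.w} : Set (FF A)) :=
    QuotientGroup.mk' _ with hπ
  have hker : ∀ r : FF A, π r = 1 → r ∈ Subgroup.normalClosure ({Γ.w} : Set (FF A)) := by
    intro r hr
    exact (QuotientGroup.eq_one_iff r).1 hr
  have hσ : ∀ z, ∃ l, π l = z := QuotientGroup.mk'_surjective _
  choose σ hσ using hσ
  -- the lift of `H`
  set L : Finset (FF A) := s.image σ with hL
  set H' : Subgroup (FF A) := Subgroup.closure (L : Set (FF A)) with hH'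
  have hmap : H'.map π = H := by
    rw [hH', MonoidHom.map_closure, ← hs]
    congr 1
    rw [hL]
    push_cast
    rw [← Set.image_comp]
    have : (⇑π ∘ σ) = id := by
      funext z
      exact hσ z
    rw [this, Set.image_id]
  have hcomm : ∀ c : H, c ∈ commutator H → ∃ k ∈ ⁅H', H'⁆, π k = c := by
    intro c hc
    have h3 : (c : FF A ⧸ Subgroup.normalClosure ({Γ.w} : Set (FF A))) ∈
        (commutator H).map H.subtype := ⟨c, hc, rfl⟩
    have h4 : ⁅H, H⁆ = (⁅H', H'⁆).map π := by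
      rw [Subgroup.map_commutator, hmap]
    rw [commutator_def, Subgroup.map_commutator, ← MonoidHom.range_eq_map,
      Subgroup.range_subtype, h4] at h3
    obtain ⟨k, hk, hk2⟩ := h3
    exact ⟨k, hk, hk2⟩
  have hdata : ∀ z : {z // z ∈ s}, ∃ n : ℕ, 0 < n ∧ ∃ k ∈ ⁅H', H'⁆, ∃ T : Finset (FF A),
      k⁻¹ * (σ z.1) ^ n ∈
        Subgroup.closure ((fun t => t * Γ.w * t⁻¹) '' (T : Set (FF A))) := by
    rintro ⟨z, hz⟩
    have hzH : z ∈ H := by
      rw [← hs]
      exact Subgroup.subset_closure hz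
    obtain ⟨n, hn, hc⟩ := exists_pow_mem_commutator hHfg' hH ⟨z, hzH⟩
    obtain ⟨k, hk, hk2⟩ := hcomm _ hc
    have hr : π (k⁻¹ * (σ z) ^ n) = 1 := by
      rw [map_mul, map_inv, map_pow, hσ, hk2]
      show (z ^ n)⁻¹ * z ^ n = 1
      exact inv_mul_cancel _
    obtain ⟨T, hT⟩ := frg_fin_aux Γ.w _ (hker _ hr)
    exact ⟨n, hn, k, hk, T, hT⟩
  choose n hn k hk T hT using hdata
  set TT : Finset (FF A) := s.attach.biUnion T with hTT
  set G0 : Finset (FF A) := L ∪ TT.image (fun t => t * Γ.w * t⁻¹) with hG0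
  set N : Subgroup (FF A) := Subgroup.closure (G0 : Set (FF A)) with hN
  have hNFG : N.FG := ⟨G0, rfl⟩
  have hconjN : ∀ t ∈ TT, t * Γ.w * t⁻¹ ∈ N := by
    intro t ht
    exact Subgroup.subset_closure (Finset.mem_coe.2 (Finset.mem_union_right _
      (Finset.mem_image_of_mem _ ht)))
  have hLN : ∀ l ∈ L, l ∈ N := by
    intro l hl
    exact Subgroup.subset_closure (Finset.mem_coe.2 (Finset.mem_union_left _ hl))
  have hH'N : H' ≤ N := by
    rw [hH', Subgroup.closure_le]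
    intro l hl
    exact hLN l hl
  set S : Finset (FF A ⧸ N) := TT.image (fun t => ((t⁻¹ : FF A) : FF A ⧸ N)) with hS
  have hSw : ∀ o ∈ S, Γ.w • o = o := by
    intro o ho
    obtain ⟨t, ht, rfl⟩ := Finset.mem_image.1 ho
    show (((Γ.w * t⁻¹ : FF A)) : FF A ⧸ N) = ((t⁻¹ : FF A) : FF A ⧸ N)
    rw [QuotientGroup.eq]
    have h3 : (Γ.w * t⁻¹)⁻¹ * t⁻¹ = (t * Γ.w * t⁻¹)⁻¹ := by group
    rw [h3]
    exact Subgroup.inv_mem _ (hconjN t ht)
  have hkill : ∀ φ : N →* Multiplicative ℚ, Kill Γ.w N S φ → φ = 1 := by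
    intro φ hφ
    set K' : Subgroup (FF A) := φ.ker.map N.subtype with hK'
    have hmem : ∀ (a : FF A) (ha : a ∈ N), φ ⟨a, ha⟩ = 1 → a ∈ K' := by
      intro a ha h3
      exact ⟨⟨a, ha⟩, MonoidHom.mem_ker.2 h3, rfl⟩
    have hmem' : ∀ (a : FF A) (ha : a ∈ N), a ∈ K' → φ ⟨a, ha⟩ = 1 := by
      rintro a ha ⟨⟨b, hb⟩, hb1, hb2⟩
      have hb3 : b = a := hb2
      subst hb3
      exact MonoidHom.mem_ker.1 hb1
    have hconjK : ∀ t ∈ TT, t * Γ.w * t⁻¹ ∈ K' := by
      intro t ht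
      have h3 : (t⁻¹)⁻¹ * Γ.w * t⁻¹ ∈ N := by
        rw [inv_inv]
        exact hconjN t ht
      have h4 := hφ t⁻¹ (Finset.mem_image_of_mem _ ht) h3
      have h5 := hmem _ h3 h4
      rw [inv_inv] at h5
      exact h5
    have hcommK : ⁅N, N⁆ ≤ K' := by
      rw [Subgroup.commutator_le]
      intro a ha b hb
      refine hmem _ ?_ ?_
      · rw [commutatorElement_def]
        exact N.mul_mem (N.mul_mem (N.mul_mem ha hb) (N.inv_mem ha)) (N.inv_mem hb)
      · have h3 : φ ((⟨a, ha⟩ : N) * ⟨b, hb⟩ * (⟨a, ha⟩ : N)⁻¹ * (⟨b, hb⟩ : N)⁻¹) = 1 := by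
          rw [map_mul, map_mul, map_mul, map_inv, map_inv, mul_comm (φ ⟨a, ha⟩) (φ ⟨b, hb⟩),
            mul_inv_cancel_right, mul_inv_cancel]
        exact h3
    have hLK : ∀ l ∈ L, l ∈ K' := by
      intro l hl
      obtain ⟨z, hz, rfl⟩ := Finset.mem_image.1 hl
      have hr : (k ⟨z, hz⟩)⁻¹ * (σ z) ^ (n ⟨z, hz⟩) ∈ K' := by
        have h3 : Subgroup.closure ((fun t => t * Γ.w * t⁻¹) '' (T ⟨z, hz⟩ : Set (FF A))) ≤
            K' := by
          rw [Subgroup.closure_le]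
          rintro _ ⟨t, ht, rfl⟩
          exact hconjK t (Finset.mem_biUnion.2 ⟨⟨z, hz⟩, Finset.mem_attach _ _, ht⟩)
        exact h3 (hT ⟨z, hz⟩)
      have hk' : k ⟨z, hz⟩ ∈ K' :=
        hcommK (Subgroup.commutator_mono hH'N hH'N (hk ⟨z, hz⟩))
      have hpow : (σ z) ^ (n ⟨z, hz⟩) ∈ K' := by
        have h3 := K'.mul_mem hk' hr
        rwa [mul_inv_cancel_left] at h3
      have hlN := hLN _ hl
      have h4 := hmem' _ (N.pow_mem hlN (n ⟨z, hz⟩)) hpow
      have h5 : (φ ⟨σ z, hlN⟩) ^ (n ⟨z, hz⟩) = 1 := by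
        rw [← map_pow]
        exact h4
      exact hmem _ hlN (frg_torsion_aux _ _ (hn ⟨z, hz⟩) h5)
    have hNK : N ≤ K' := by
      rw [hN, Subgroup.closure_le]
      intro a ha
      rcases Finset.mem_union.1 (Finset.mem_coe.1 ha) with ha | ha
      · exact hLK a ha
      · obtain ⟨t, ht, rfl⟩ := Finset.mem_image.1 ha
        exact hconjK t ht
    ext ⟨a, ha⟩
    rw [hmem' a ha (hNK ha)]
    rfl
  have hle := main hA Γ hP N hNFG S hSw hkill
  rw [← hs, eq_bot_iff, Subgroup.closure_le]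
  intro z hz
  have h3 : σ z ∈ Subgroup.normalClosure ({Γ.w} : Set (FF A)) :=
    hle (hLN _ (Finset.mem_image_of_mem _ hz))
  have h4 : π (σ z) = 1 := (QuotientGroup.eq_one_iff _).2 h3
  rw [hσ] at h4
  exact h4

/-! ### the trick -/

private theorem frg_notconj {A : Type} [Group A] (a b : A) (g : FF A) :
    y * ι a * y * ι a⁻¹ ≠ g * ι b * g⁻¹ := by
  intro h
  have h1 := congrArg (lft (1 : A →* Multiplicative ℤ) (Multiplicative.ofAdd 1)) h
  simp only [map_mul, map_inv, lft_ι, lft_y, MonoidHom.one_apply, mul_one, inv_one] at h1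
  rw [mul_inv_cancel, ← ofAdd_add, ← ofAdd_zero] at h1
  have h2 := Multiplicative.ofAdd.injective h1
  norm_num at h2

private theorem frg_npow {A : Type} [Group A] (hA : LI A) (a : A) (ha : a ≠ 1) (v : FF A)
    (q : ℕ) (hq : 2 ≤ q) : y * ι a * y * ι a⁻¹ ≠ v ^ q := by
  intro h
  let _ : MulAction (FF A) A := MulAction.compHom A (lft (MonoidHom.id A) (1 : A))
  have hsm : ∀ (g : FF A) (o : A), g • o = lft (MonoidHom.id A) (1 : A) g * o := fun _ _ => rfl
  have hb : lft (MonoidHom.id A) (1 : A) v = 1 := by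
    have h1 := congrArg (lft (MonoidHom.id A) (1 : A)) h
    simp only [map_mul, map_pow, lft_ι, lft_y, MonoidHom.id_apply, one_mul, mul_one] at h1
    rw [mul_inv_cancel] at h1
    exact torsion_free hA _ q (by omega) h1.symm
  obtain ⟨c, hc, h1, h2⟩ := exists_coc (A := A) (Ω := A) (X := Multiplicative ℤ)
    (fun _ _ => 1) (fun _ _ _ => by rw [mul_one])
    (fun o => if o = 1 then Multiplicative.ofAdd 1 else 1)
  have hv : (v : FF A) • (1 : A) = 1 := by rw [hsm, hb, one_mul]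
  have hpow : ∀ n : ℕ, c (v ^ n) (1 : A) = (c v 1) ^ n := by
    intro n
    induction n with
    | zero => rw [pow_zero, pow_zero, hc.one]
    | succ n ih => rw [pow_succ, pow_succ, hc, hv, ih]
  have hr : c (y * ι a * y * ι a⁻¹) (1 : A) = Multiplicative.ofAdd 1 := by
    have e1 : (ι a⁻¹ : FF A) • (1 : A) = a⁻¹ := by
      rw [hsm, lft_ι, MonoidHom.id_apply, mul_one]
    have e2 : (y : FF A) • (a⁻¹ : A) = a⁻¹ := by
      rw [hsm, lft_y, one_mul]
    have e3 : (ι a : FF A) • (a⁻¹ : A) = 1 := by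
      rw [hsm, lft_ι, MonoidHom.id_apply, mul_inv_cancel]
    rw [hc, e1, h1, mul_one, hc, e2, h2, if_neg (inv_ne_one.2 ha), mul_one, hc, e3, h1, mul_one,
      h2, if_pos rfl]
  rw [h, hpow] at hr
  have h3 := congrArg Multiplicative.toAdd hr
  rw [toAdd_pow, toAdd_ofAdd, nsmul_eq_mul] at h3
  have h4 : (q : ℤ) ∣ 1 := ⟨_, h3.symm⟩
  have h5 : q ∣ 1 := by exact_mod_cast h4
  have h6 := Nat.le_of_dvd one_pos h5
  omega

private theorem frg_push {A B : Type} [Group A] [Group B] (β : A →* B)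
    (hβ : Function.Injective β) (Γ : Geo A) :
    ∃ Γ' : Geo B, Γ'.w = lft ((ι : B →* FF B).comp β) y Γ.w :=
  ⟨{ m := Γ.m
     hm := Γ.hm
     u := Γ.u
     g := fun i => β (Γ.g i)
     uper := Γ.uper
     gper := fun i => by rw [Γ.gper]
     red := fun i h => Γ.red i (hβ (by rw [h, map_one]))
     p := fun i => lft ((ι : B →* FF B).comp β) y (Γ.p i)
     p0 := by rw [Γ.p0, map_one]
     pS := fun i => by
      rw [Γ.pS, map_mul, map_mul, map_zpow, lft_y, lft_ι, MonoidHom.comp_apply] }, rfl⟩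

private theorem frg_nc_le {G H : Type} [Group G] [Group H] (f : G →* H) (x : G) (h : f x = 1)
    (z : G) (hz : z ∈ Subgroup.normalClosure ({x} : Set G)) : f z = 1 := by
  have h1 : Subgroup.normalClosure ({x} : Set G) ≤ f.ker := by
    apply Subgroup.normalClosure_le_normal
    rintro _ rfl
    exact h
  exact h1 hz

theorem freiG {A : Type} [Group A] (hA : LI A) (Γ : Geo A) (hw : NPow Γ.w) (a : A)
    (ha : ι a ∈ Subgroup.normalClosure ({Γ.w} : Set (FF A))) : a = 1 := by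
  by_contra hne
  set r : FF A := y * ι a * y * ι a⁻¹ with hr
  have hB : LI (FF A ⧸ Subgroup.normalClosure ({r} : Set (FF A))) :=
    thmH hA r (fun g b => frg_notconj a b g) (fun v q hq => frg_npow hA a hne v q hq)
  obtain ⟨B, iB, mk, hmkr, hlift, hBLI⟩ : ∃ (B : Type) (_ : Group B) (mk : FF A →* B), mk r = 1 ∧
      (∀ (H : Type) [Group H] (f : FF A →* H), f r = 1 → ∃ F : B →* H, ∀ g, F (mk g) = f g) ∧
      LI B :=
    ⟨FF A ⧸ Subgroup.normalClosure ({r} : Set (FF A)), inferInstance, QuotientGroup.mk' _,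
      (QuotientGroup.eq_one_iff r).2 (Subgroup.subset_normalClosure (Set.mem_singleton _)),
      fun H _ f hf => ⟨QuotientGroup.lift _ f fun z hz => frg_nc_le f r hf z hz,
        fun g => rfl⟩, hB⟩
  set β : A →* B := mk.comp ι with hβdef
  obtain ⟨ρ, hρ⟩ := hlift A (lft (MonoidHom.id A) 1) (by
    rw [hr]
    simp only [map_mul, lft_ι, lft_y, MonoidHom.id_apply, one_mul, mul_one, mul_inv_cancel])
  have hρβ : ∀ b, ρ (β b) = b := by
    intro b
    show ρ (mk (ι b)) = b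
    rw [hρ, lft_ι, MonoidHom.id_apply]
  have hβ : Function.Injective β := fun b c h => by rw [← hρβ b, h, hρβ]
  obtain ⟨Γ', hΓ'⟩ := frg_push β hβ Γ
  have hρM : ∀ g : FF A, lft ((ι : A →* FF A).comp ρ) y
      (lft ((ι : B →* FF B).comp β) y g) = g := by
    intro g
    have h1 : (lft ((ι : A →* FF A).comp ρ) y).comp (lft ((ι : B →* FF B).comp β) y) =
        MonoidHom.id (FF A) := by
      apply FF_hom_ext
      · intro b
        rw [MonoidHom.comp_apply, lft_ι, MonoidHom.comp_apply, lft_ι, MonoidHom.comp_apply, hρβ,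
          MonoidHom.id_apply]
      · rw [MonoidHom.comp_apply, lft_y, lft_y, MonoidHom.id_apply]
    exact DFunLike.congr_fun h1 g
  have hw' : NPow Γ'.w := by
    intro v q hq h
    apply hw (lft ((ι : A →* FF A).comp ρ) y v) q hq
    rw [← map_pow, ← h, hΓ', hρM]
  have hL := thmG hBLI Γ' hw'
  set N : Subgroup (FF B) := Subgroup.normalClosure ({Γ'.w} : Set (FF B)) with hN
  have hβa : ι (β a) ∈ N := by
    have h1 : Subgroup.normalClosure ({Γ.w} : Set (FF A)) ≤
        N.comap (lft ((ι : B →* FF B).comp β) y) := by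
      apply Subgroup.normalClosure_le_normal
      rintro _ rfl
      show lft ((ι : B →* FF B).comp β) y Γ.w ∈ N
      rw [← hΓ']
      exact Subgroup.subset_normalClosure (Set.mem_singleton _)
    have h2 := h1 ha
    rw [Subgroup.mem_comap, lft_ι] at h2
    exact h2
  have hsq : mk y * β a * mk y * (β a)⁻¹ = 1 := by
    rw [← hmkr, hr, hβdef]
    simp only [map_mul, map_inv, MonoidHom.comp_apply]
  have hyN : ι (mk y) ∈ N := by
    have h1 : ((ι (mk y) : FF B) : FF B ⧸ N) ^ 2 = 1 := by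
      have h2 : ι (mk y * β a * mk y * (β a)⁻¹) = (1 : FF B) := by rw [hsq, map_one]
      have h3 := congrArg (QuotientGroup.mk' N) h2
      have h4 : (QuotientGroup.mk' N) (ι (β a)) = 1 := (QuotientGroup.eq_one_iff _).2 hβa
      simp only [map_mul, map_inv, h4, mul_one, inv_one, map_one] at h3
      rw [pow_two]
      exact h3
    have h5 := torsion_free hL _ 2 (by norm_num) h1
    exact (QuotientGroup.eq_one_iff _).1 h5
  obtain ⟨ψ₀, hψ₀⟩ := hlift (Multiplicative (ZMod 2))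
    (lft (1 : A →* Multiplicative (ZMod 2)) (Multiplicative.ofAdd 1)) (by
    rw [hr]
    simp only [map_mul, lft_ι, lft_y, MonoidHom.one_apply, mul_one]
    rw [← ofAdd_add, ← ofAdd_zero]
    congr 1)
  have h1 : lft ψ₀ 1 Γ'.w = 1 := by
    have h2 : (lft ψ₀ 1).comp (lft ((ι : B →* FF B).comp β) y) =
        (1 : FF A →* Multiplicative (ZMod 2)) := by
      apply FF_hom_ext
      · intro b
        rw [MonoidHom.comp_apply, lft_ι, MonoidHom.comp_apply, lft_ι]
        show ψ₀ (mk (ι b)) = 1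
        rw [hψ₀, lft_ι]
        rfl
      · rw [MonoidHom.comp_apply, lft_y, lft_y]
        rfl
    rw [hΓ']
    exact DFunLike.congr_fun h2 Γ.w
  have h3 := frg_nc_le (lft ψ₀ 1) Γ'.w h1 _ hyN
  rw [lft_ι, hψ₀, lft_y, ← ofAdd_zero] at h3
  have h4 := Multiplicative.ofAdd.injective h3
  exact absurd h4 (by decide)

end Pool.Agent.LTree
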