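import Pool.Agent.Lib.LTree.TB
import Pool.Agent.Lib.LOTI.Split

/-!
# Homomorphisms into fields; counting dimensions

PROOFS.
* `split_LI`: `A` is isomorphic to `Lz (P ⧸ N) Bool` (`LOTI.LDefs`, `N = normalClosure {r}`): `Φ : A →* Lz (P ⧸ N) Bool` from `h.univ` (`f = qq.comp (mk' N)`, `u = zz`), `Ψ : Lz (P ⧸ N) Bool →* A` is
  `zlft (QuotientGroup.lift N j …) h.z`; `Ψ (Φ a) = a` on the generators (`h.gen` for the equaliser), so `Φ` is injective; `LOTI.Lz_LI` (module Split) and `LI.of_injective`.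
* `split_fg`: `A` is generated by the images of a finite set of generators of `P` and by `z false`, `z true` (`h.gen`).
* `dd_le`: every generator is additive: `μ (g h v) = μ v + φ (g h)` and `= μ (h v) + φ g = μ v + φ h + φ g`; `HH k G` is a submodule.
* `hh_fd`: a homomorphism is determined by its values on a finite set of generators: injective linear map `HH k G → (S → k)`.
* `exists_hom`: `Y = Multiplicative k`. Suppose `φ r = 0` for all `φ ∈ HH k P`. Then for `φ ∈ HH k P`, `u : Bool → k` there is by `h.univ` `φ' ∈ HH k A` with `φ' (j p) = φ p`, `φ' (z i) = u i`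
  (additive functions `A → k` = homomorphisms `A →* Multiplicative k`), so `HH k A → HH k P × (Bool → k)`, `φ' ↦ (φ' ∘ j, φ' ∘ z)` is onto, `finrank (HH k A) ≥ finrank (HH k P) + 2`. But the linear map
  `HH k A → HH k P × k`, `φ ↦ (φ ∘ j - φ ∘ σ, φ a₀)` is injective by `hp`: `finrank (HH k A) ≤ finrank (HH k P) + 1`. (`FiniteDimensional k (HH k A)`: follows from the injectivity of this map.)
* `npow_of`: if `x = v ^ q`, `2 ≤ q`, take a prime `p ∣ q` and `φ : P → ZMod p`: `φ x = q * φ v = 0`.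
* `dd_dim`: the linear map `DD k ⊥ → DD k N`, `φ' ↦ φ' ∘ j` is well defined (hypothesis `h1`), onto (`h2`), and its kernel contains the two linearly independent functions `ζ i`, `i : Bool`
  (`h3`): `finrank (DD k ⊥) = finrank (range) + finrank (kernel)` (`LinearMap.finrank_range_add_finrank_ker`).
* `dd_pencil`: the linear map `DA → DE × k`, `φ ↦ (φ ∘ j - φ ∘ σ, φ a₀)` is injective by `hp`.
-/

set_option autoImplicit false

open scoped Classical

namespace Pool.Agent.LTree

open Pool.Agent.LOTI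

variable {P A : Type} [Group P] [Group A]

private theorem hh_one {k G : Type} [Field k] [Group G] {φ : G → k} (h : φ ∈ HH k G) :
    φ 1 = 0 := by
  have h1 : φ (1 * 1) = φ 1 + φ 1 := h 1 1
  rw [one_mul] at h1
  exact left_eq_add.1 h1

private theorem hh_inv {k G : Type} [Field k] [Group G] {φ : G → k} (h : φ ∈ HH k G) (g : G) :
    φ g⁻¹ = - φ g := by
  have h1 : φ (g * g⁻¹) = φ g + φ g⁻¹ := h g g⁻¹
  rw [mul_inv_cancel, hh_one h] at h1
  exact (neg_eq_of_add_eq_zero_right h1.symm).symm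

private theorem hh_pow {k G : Type} [Field k] [Group G] {φ : G → k} (h : φ ∈ HH k G) (g : G)
    (n : ℕ) : φ (g ^ n) = (n : k) * φ g := by
  induction n with
  | zero => rw [pow_zero, hh_one h, Nat.cast_zero, zero_mul]
  | succ n ih =>
    have h1 : φ (g ^ n * g) = φ (g ^ n) + φ g := h _ _
    rw [pow_succ, h1, ih]
    push_cast
    ring

private theorem hh_closure {k G : Type} [Field k] [Group G] {φ : G → k} (h : φ ∈ HH k G)
    (S : Set G) (hS : Subgroup.closure S = ⊤) (h0 : ∀ s ∈ S, φ s = 0) : φ = 0 := by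
  funext g
  have hg : g ∈ Subgroup.closure S := by rw [hS]; exact Subgroup.mem_top g
  show φ g = 0
  induction hg using Subgroup.closure_induction with
  | mem x hx => exact h0 x hx
  | one => exact hh_one h
  | mul x y _ _ hx hy =>
    have h1 : φ (x * y) = φ x + φ y := h x y
    rw [h1, hx, hy, add_zero]
  | inv x _ hx => rw [hh_inv h, hx, neg_zero]

private theorem pencil_aux {P A k : Type} [Group P] [Group A] [Field k] (j σ : P →* A)
    (DA : Submodule k (A → k)) (DE : Submodule k (P → k)) [FiniteDimensional k DE] (a₀ : A)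
    (h : ∀ φ ∈ DA, (fun p => φ (j p)) ∈ DE ∧ (fun p => φ (σ p)) ∈ DE)
    (hp : ∀ φ ∈ DA, (∀ p, φ (j p) = φ (σ p)) → φ a₀ = 0 → φ = 0) :
    Module.finrank k DA ≤ Module.finrank k DE + 1 := by
  let L : DA →ₗ[k] DE × k :=
    { toFun := fun φ => (⟨(fun p => φ.1 (j p)) - (fun p => φ.1 (σ p)),
        DE.sub_mem (h φ.1 φ.2).1 (h φ.1 φ.2).2⟩, φ.1 a₀)
      map_add' := by
        intro x y
        refine Prod.ext (Subtype.ext ?_) rfl
        funext p
        show (x.1 (j p) + y.1 (j p)) - (x.1 (σ p) + y.1 (σ p)) =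
          (x.1 (j p) - x.1 (σ p)) + (y.1 (j p) - y.1 (σ p))
        ring
      map_smul' := by
        intro c x
        refine Prod.ext (Subtype.ext ?_) rfl
        funext p
        show c * x.1 (j p) - c * x.1 (σ p) = c * (x.1 (j p) - x.1 (σ p))
        ring }
  have hL : Function.Injective L := by
    rw [← LinearMap.ker_eq_bot, LinearMap.ker_eq_bot']
    intro φ hφ
    have h1 := congrArg Prod.fst hφ
    have h2 : φ.1 a₀ = 0 := congrArg Prod.snd hφ
    have h3 := congrArg Subtype.val h1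
    refine Subtype.ext (hp φ.1 φ.2 (fun p => ?_) h2)
    have h4 : φ.1 (j p) - φ.1 (σ p) = 0 := congrFun h3 p
    exact sub_eq_zero.1 h4
  have h5 := LinearMap.finrank_le_finrank_of_injective hL
  rwa [Module.finrank_prod, Module.finrank_self] at h5

theorem split_LI (j : P →* A) (r : P) (h : Split j r)
    (hq : LI (P ⧸ Subgroup.normalClosure ({r} : Set P))) : LI A := by
  have hN : Subgroup.normalClosure ({r} : Set P) ≤ j.ker := by
    refine Subgroup.normalClosure_le_normal ?_
    rintro x rfl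
    exact h.kill
  obtain ⟨F, hF1, hF2⟩ := h.univ (Lz (P ⧸ Subgroup.normalClosure ({r} : Set P)) Bool)
    ((qq : (P ⧸ Subgroup.normalClosure ({r} : Set P)) →* Lz _ Bool).comp
      (QuotientGroup.mk' (Subgroup.normalClosure ({r} : Set P)))) zz (by
      have h1 : (QuotientGroup.mk' (Subgroup.normalClosure ({r} : Set P))) r = 1 :=
        (QuotientGroup.eq_one_iff r).2 (Subgroup.subset_normalClosure rfl)
      show qq ((QuotientGroup.mk' (Subgroup.normalClosure ({r} : Set P))) r) = 1
      rw [h1, map_one])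
  have hinv : ∀ a : A, zlft (QuotientGroup.lift _ j hN) h.z (F a) = a := by
    have h1 := h.gen (((zlft (QuotientGroup.lift _ j hN) h.z).comp F).eqLocus (MonoidHom.id A)) ?_ ?_
    · intro a
      have h2 : a ∈ ((zlft (QuotientGroup.lift _ j hN) h.z).comp F).eqLocus (MonoidHom.id A) := by
        rw [h1]
        exact Subgroup.mem_top a
      exact h2
    · intro p
      show zlft (QuotientGroup.lift _ j hN) h.z (F (j p)) = j p
      rw [hF1]
      show zlft (QuotientGroup.lift _ j hN) h.z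
        (qq ((QuotientGroup.mk' (Subgroup.normalClosure ({r} : Set P))) p)) = j p
      rw [zlft_qq]
      rfl
    · intro i
      show zlft (QuotientGroup.lift _ j hN) h.z (F (h.z i)) = h.z i
      rw [hF2, zlft_zz]
  refine LI.of_injective F ?_ (Lz_LI hq Bool)
  intro a b hab
  rw [← hinv a, ← hinv b, hab]

theorem split_fg [Group.FG P] (j : P →* A) (r : P) (h : Split j r) : Group.FG A := by
  obtain ⟨S, hS, hfin⟩ := Group.fg_iff.1 (inferInstance : Group.FG P)
  refine Group.fg_iff.2 ⟨j '' S ∪ Set.range h.z, ?_, (hfin.image _).union (Set.finite_range _)⟩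
  refine h.gen _ ?_ ?_
  · intro p
    have hp : p ∈ Subgroup.closure S := by rw [hS]; exact Subgroup.mem_top p
    have h1 : j p ∈ (Subgroup.closure S).map j := ⟨p, hp, rfl⟩
    rw [MonoidHom.map_closure] at h1
    exact Subgroup.closure_mono Set.subset_union_left h1
  · intro i
    exact Subgroup.subset_closure (Or.inr ⟨i, rfl⟩)

theorem dd_le (k : Type) [Field k] (K : Subgroup P) : DD k K ≤ HH k P := by
  refine Submodule.span_le.2 ?_
  rintro φ ⟨T, -, μ, hμ⟩ g h
  obtain ⟨v⟩ := T.ne
  have h1 := hμ (g * h) v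
  rw [mul_smul, hμ g, hμ h] at h1
  have h2 : μ v + φ (g * h) = μ v + (φ g + φ h) := by rw [← h1]; ring
  exact add_left_cancel h2

theorem hh_fd (k : Type) [Field k] [Group.FG P] : FiniteDimensional k (HH k P) := by
  obtain ⟨S, hS, hfin⟩ := Group.fg_iff.1 (inferInstance : Group.FG P)
  have : Finite S := hfin
  let L : HH k P →ₗ[k] (S → k) :=
    { toFun := fun φ s => φ.1 s.1
      map_add' := fun _ _ => rfl
      map_smul' := fun _ _ => rfl }
  refine Module.Finite.of_injective L ?_
  rw [← LinearMap.ker_eq_bot, LinearMap.ker_eq_bot']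
  intro φ hφ
  refine Subtype.ext (hh_closure φ.2 S hS fun s hs => ?_)
  exact congrFun hφ ⟨s, hs⟩

theorem exists_hom (k : Type) [Field k] [Group.FG P] (j σ : P →* A) (r : P) (h : Split j r)
    (a₀ : A) (hp : ∀ φ ∈ HH k A, (∀ p, φ (j p) = φ (σ p)) → φ a₀ = 0 → φ = 0) :
    ∃ φ ∈ HH k P, φ r ≠ 0 := by
  by_contra hcon
  have hr : ∀ φ ∈ HH k P, φ r = 0 := by
    intro φ hφ
    by_contra h1
    exact hcon ⟨φ, hφ, h1⟩
  have hP := hh_fd (P := P) k
  have hAfg := split_fg j r h
  have hA := hh_fd (P := A) k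
  have hj : ∀ (τ : P →* A), ∀ φ ∈ HH k A, (fun p => φ (τ p)) ∈ HH k P := by
    intro τ φ hφ g g'
    show φ (τ (g * g')) = φ (τ g) + φ (τ g')
    rw [map_mul]
    exact hφ _ _
  have h1 := pencil_aux j σ (HH k A) (HH k P) a₀ (fun φ hφ => ⟨hj j φ hφ, hj σ φ hφ⟩) hp
  let L : HH k A →ₗ[k] HH k P × (Bool → k) :=
    { toFun := fun φ => (⟨fun p => φ.1 (j p), hj j φ.1 φ.2⟩, fun i => φ.1 (h.z i))
      map_add' := fun _ _ => rfl
      map_smul' := fun _ _ => rfl }
  have hL : Function.Surjective L := by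
    rintro ⟨⟨φ, hφ⟩, u⟩
    let f : P →* Multiplicative k :=
      { toFun := fun p => Multiplicative.ofAdd (φ p)
        map_one' := by
          show Multiplicative.ofAdd (φ 1) = 1
          rw [hh_one hφ]
          rfl
        map_mul' := by
          intro g g'
          show Multiplicative.ofAdd (φ (g * g')) = _
          have h2 : φ (g * g') = φ g + φ g' := hφ g g'
          rw [h2]
          rfl }
    obtain ⟨F, hF1, hF2⟩ := h.univ (Multiplicative k) f (fun i => Multiplicative.ofAdd (u i)) (by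
      show Multiplicative.ofAdd (φ r) = 1
      rw [hr φ hφ]
      rfl)
    refine ⟨⟨fun a => (F a).toAdd, ?_⟩, ?_⟩
    · intro a a'
      show (F (a * a')).toAdd = (F a).toAdd + (F a').toAdd
      rw [map_mul]
      rfl
    · refine Prod.ext (Subtype.ext ?_) ?_
      · funext p
        show (F (j p)).toAdd = φ p
        rw [hF1]
        rfl
      · funext i
        show (F (h.z i)).toAdd = u i
        rw [hF2]
        rfl
  have h2 := LinearMap.finrank_le_finrank_of_surjective hL
  rw [Module.finrank_prod, Module.finrank_fintype_fun_eq_card, Fintype.card_bool] at h2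
  omega

theorem npow_of (x : P)
    (h : ∀ p : ℕ, ∀ hp : p.Prime, letI := Fact.mk hp; ∃ φ ∈ HH (ZMod p) P, φ x ≠ 0) :
    NPow x := by
  rintro v q hq rfl
  obtain ⟨p, hp, m, rfl⟩ := Nat.exists_prime_and_dvd (show q ≠ 1 by omega)
  obtain ⟨φ, hφ, h1⟩ := h p hp
  have := Fact.mk hp
  apply h1
  rw [hh_pow hφ, Nat.cast_mul, CharP.cast_eq_zero, zero_mul, zero_mul]

theorem dd_dim {k : Type} [Field k] (j : P →* A) (N : Subgroup P) (ζ : Bool → A → k) (z : Bool → A)
    [FiniteDimensional k (DD k (⊥ : Subgroup A))]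
    (h1 : ∀ φ ∈ DD k (⊥ : Subgroup A), (fun p => φ (j p)) ∈ DD k N)
    (h2 : ∀ φ ∈ DD k N, ∃ φ' ∈ DD k (⊥ : Subgroup A), ∀ p : P, φ' (j p) = φ p)
    (h3 : ∀ i, ζ i ∈ DD k (⊥ : Subgroup A)) (h4 : ∀ i p, ζ i (j p) = 0)
    (h5 : ∀ i i', ζ i (z i') = if i = i' then 1 else 0) :
    Module.finrank k (DD k N) + 2 ≤ Module.finrank k (DD k (⊥ : Subgroup A)) := by
  let L : DD k (⊥ : Subgroup A) →ₗ[k] DD k N :=
    { toFun := fun φ => ⟨fun p => φ.1 (j p), h1 φ.1 φ.2⟩
      map_add' := fun _ _ => rfl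
      map_smul' := fun _ _ => rfl }
  have hL : Function.Surjective L := by
    rintro ⟨φ, hφ⟩
    obtain ⟨φ', hφ', h6⟩ := h2 φ hφ
    exact ⟨⟨φ', hφ'⟩, Subtype.ext (funext h6)⟩
  have h7 := LinearMap.finrank_range_add_finrank_ker L
  rw [LinearMap.range_eq_top.2 hL, finrank_top] at h7
  have hk : ∀ i, (⟨ζ i, h3 i⟩ : DD k (⊥ : Subgroup A)) ∈ LinearMap.ker L := by
    intro i
    rw [LinearMap.mem_ker]
    exact Subtype.ext (funext (h4 i))
  let E : LinearMap.ker L →ₗ[k] (Bool → k) :=
    { toFun := fun φ i => φ.1.1 (z i)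
      map_add' := fun _ _ => rfl
      map_smul' := fun _ _ => rfl }
  have hE : Function.Surjective E := by
    intro c
    refine ⟨c true • ⟨⟨ζ true, h3 true⟩, hk true⟩ + c false • ⟨⟨ζ false, h3 false⟩, hk false⟩, ?_⟩
    funext i
    have h8 : E (c true • ⟨⟨ζ true, h3 true⟩, hk true⟩ +
        c false • ⟨⟨ζ false, h3 false⟩, hk false⟩) i
        = c true * ζ true (z i) + c false * ζ false (z i) := rfl
    rw [h8, h5, h5]
    cases i <;> simp
  have h11 := LinearMap.finrank_le_finrank_of_surjective hE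
  rw [Module.finrank_fintype_fun_eq_card, Fintype.card_bool] at h11
  omega

theorem dd_pencil {k : Type} [Field k] (j σ : P →* A) (DA : Submodule k (A → k))
    (DE : Submodule k (P → k)) [FiniteDimensional k DE] (a₀ : A)
    (h : ∀ φ ∈ DA, (fun p => φ (j p)) ∈ DE ∧ (fun p => φ (σ p)) ∈ DE)
    (hp : ∀ φ ∈ DA, (∀ p, φ (j p) = φ (σ p)) → φ a₀ = 0 → φ = 0) :
    Module.finrank k DA ≤ Module.finrank k DE + 1 := by
  exact pencil_aux j σ DA DE a₀ h hp

end Pool.Agent.LTree
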