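import Pool.Agent.Lib.LTree.XDefs
import Pool.Agent.Lib.LTree.Cay
import Pool.Agent.Lib.LOTI.LIF
import Pool.Agent.Lib.LOTI.Fin

/-!
# The level groups: start of the induction, pencil condition, the case of a connected initial graph

PROOFS.
* `xg_fg`: `Group.fg_iff`/the range of `fun p : V × Fin (n+1) => PresentedGroup.of p` is finite and generates (`PresentedGroup.closure_range_of`).
* `x0_LI`: `F : XG Γ 0 →* FreeGroup V`, `xg 0 v ↦ of v` (`xg_univ`, there are no relations: `Fin 0` is empty), `F' = FreeGroup.lift (xg Γ 0 0)`; `F' (F x) = x` (`xg_ext`, every `d : Fin 1` is `0`), so `F` is injective: `LI_free`,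
  `LI.of_injective`.
* `x0_hyp`: `cay (xg Γ 0 0)` (`gen` from `xg_gen`, `univ` from `xg_univ`): a tree with `Has ⊥` in which `x ≠ 1` fixes no vertex.
* `xpencil`: `φ (xg d.castSucc v) = φ (xg d.succ v)` for `d : Fin (n+1)` (`jj_xg`, `ss_xg`), so `φ (xg d v) = f v` does not depend on `d` (`Fin.induction`). `xg_rel` for `d = 0` gives `f (init e) + f (lab e) = f (lab e) + f (term e)`,
  so `f (init e) = f (term e)`, and `f` is constant by `Γ.conn`, so `f = 0`; the kernel of `φ` is a subgroup, `xg_gen`.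
* `conn_LI`: `LOT.ladder_LI` (module Fin of LOTI) with `c = 0`: `κ v = 0`, all the other data are indexed by `Fin 0`.
-/

set_option autoImplicit false

open scoped Classical

namespace Pool.Agent.LTree

open Pool.Agent.LOTI

variable {V E : Type} [Fintype V] [Fintype E]

private theorem fin01 (d : Fin (0 + 1)) : d = 0 := by
  apply Fin.ext
  have := d.isLt
  simp only [Fin.val_zero]
  omega

theorem xg_fg (Γ : LOT V E) (n : ℕ) : Group.FG (XG Γ n) := by
  classical
  rw [Group.fg_iff]
  refine ⟨Set.range fun p : V × Fin (n + 1) => (PresentedGroup.of p : XG Γ n), ?_,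
    Set.finite_range _⟩
  exact PresentedGroup.closure_range_of (xrels Γ n)

theorem x0_LI (Γ : LOT V E) : LI (XG Γ 0) := by
  obtain ⟨F, hF⟩ := xg_univ Γ 0 (Y := FreeGroup V) (fun _ v => FreeGroup.of v)
    (fun _ d => d.elim0)
  have h : ∀ x, (FreeGroup.lift (xg Γ 0 0)) (F x) = x := by
    intro x
    have h1 := xg_ext Γ 0 (F := (FreeGroup.lift (xg Γ 0 0)).comp F)
      (F' := MonoidHom.id (XG Γ 0)) (fun d v => ?_) x
    · exact h1
    · rw [MonoidHom.comp_apply, hF, FreeGroup.lift_apply_of, MonoidHom.id_apply, fin01 d]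
  exact LI.of_injective F (Function.LeftInverse.injective h) (LI_free V)

theorem x0_hyp (Γ : LOT V E) (x : XG Γ 0) (hx : x ≠ 1) :
    ¬ AllEll (⊥ : Subgroup (XG Γ 0)) x := by
  intro h
  obtain ⟨T, hT, h1⟩ := cay (xg Γ 0 0)
    (fun H hH => xg_gen Γ 0 H (fun d v => by rw [fin01 d]; exact hH v))
    (fun Y _ u => by
      obtain ⟨F, hF⟩ := xg_univ Γ 0 (Y := Y) (fun _ v => u v) (fun _ d => d.elim0)
      exact ⟨F, fun i => hF 0 i⟩)
  obtain ⟨v, hv⟩ := h T hT
  exact hx (h1 v x hv)

theorem xpencil (Γ : LOT V E) (n : ℕ) (v₀ : V) (k : Type) [Field k] (φ : XG Γ (n + 1) → k)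
    (hφ : φ ∈ HH k (XG Γ (n + 1))) (h : ∀ p, φ (jj Γ n p) = φ (ss Γ n p))
    (h0 : φ (xg Γ (n + 1) 0 v₀) = 0) : φ = 0 := by
  have hm : ∀ a b, φ (a * b) = φ a + φ b := hφ
  have h1 : ∀ (d : Fin (n + 1 + 1)) v, φ (xg Γ (n + 1) d v) = φ (xg Γ (n + 1) 0 v) := by
    intro d v
    induction d using Fin.induction with
    | zero => rfl
    | succ d ih =>
      rw [← ih, ← ss_xg, ← jj_xg]
      exact (h _).symm
  have h2 : ∀ e, φ (xg Γ (n + 1) 0 (Γ.init e)) = φ (xg Γ (n + 1) 0 (Γ.term e)) := by
    intro e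
    have h3 := congrArg φ (xg_rel Γ (n + 1) e 0)
    rw [hm, hm, h1 (Fin.succ 0), h1 (Fin.succ 0), h1 (Fin.castSucc 0), h1 (Fin.castSucc 0)] at h3
    rw [add_comm] at h3
    exact add_left_cancel h3
  have h3 : ∀ v w, φ (xg Γ (n + 1) 0 v) = φ (xg Γ (n + 1) 0 w) := by
    intro v w
    induction Γ.conn v w with
    | rel a b hab =>
      obtain ⟨e, rfl, rfl⟩ := hab
      exact h2 e
    | refl a => rfl
    | symm a b _ ih => exact ih.symm
    | trans a b c _ _ ih1 ih2 => exact ih1.trans ih2
  have h4 : ∀ d v, φ (xg Γ (n + 1) d v) = 0 := fun d v => by rw [h1, h3 v v₀, h0]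
  have hone : φ 1 = 0 := by
    have := hm 1 1
    rw [mul_one] at this
    exact (left_eq_add.mp this)
  have hinv : ∀ a, φ a = 0 → φ a⁻¹ = 0 := by
    intro a ha
    have := hm a a⁻¹
    rw [mul_inv_cancel, hone, ha, zero_add] at this
    exact this.symm
  let K : Subgroup (XG Γ (n + 1)) :=
    { carrier := {g | φ g = 0}
      mul_mem' := by
        intro a b ha hb
        show φ (a * b) = 0
        rw [hm, show φ a = 0 from ha, show φ b = 0 from hb, add_zero]
      one_mem' := hone
      inv_mem' := by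
        intro a ha
        exact hinv a ha }
  have h5 : K = ⊤ := xg_gen Γ (n + 1) K fun d v => h4 d v
  funext g
  have h6 : g ∈ K := by rw [h5]; exact Subgroup.mem_top g
  exact h6

theorem conn_LI (Γ : LOT V E) (h : ∀ v w, Relation.EqvGen Γ.IAdj v w) : LI Γ.Grp := by
  have hne : Nonempty V := by
    have h1 := Γ.card
    exact Fintype.card_pos_iff.mp (by omega)
  exact Γ.ladder_LI (c := 0)
    { κ := fun _ => 0
      surj := fun j => ⟨hne.some, (fin01 j).symm⟩
      comp := fun v w => ⟨fun _ => h v w, fun _ => rfl⟩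
      e := fun i => i.elim0
      l := fun i => i.elim0
      b := fun i => i.elim0
      closed := fun i => i.elim0
      once := fun i => i.elim0
      later := fun i => i.elim0
      low := fun i => i.elim0
      ess := fun i => i.elim0 }

end Pool.Agent.LTree
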