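import Pool.Agent.Lib.LTree.XSplit

/-!
# The first level: reversing the edges

PROOF. `Γ.rev` has `init` and `term` exchanged. For every `n` let `ν n : XG Γ n →* XG Γ.rev n`, `xg Γ n d v ↦ (xg Γ.rev n (Fin.rev d) v)⁻¹` (`xg_univ`; the relation of `Γ` at `d` becomes the inverse of the relation of `Γ.rev` at
`Fin.rev d`-th pair of levels: for `d : Fin n`, `Fin.rev d.succ = (Fin.rev d).castSucc`, `Fin.rev d.castSucc = (Fin.rev d).succ`; with `d' = Fin.rev d` and `x = xg Γ.rev n`: the relation to be checked is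
`(x d'.castSucc (init e))⁻¹ * (x d'.succ (lab e))⁻¹ = (x d'.castSucc (lab e))⁻¹ * (x d'.succ (term e))⁻¹`, the inverse of `x d'.succ (lab e) * x d'.castSucc (init e) = x d'.succ (term e) * x d'.castSucc (lab e)`, which is
`xg_rel Γ.rev` at `d'`). The same construction for `Γ.rev` (`Γ.rev.rev = Γ` by `rfl`) gives the inverse of `ν n`, so `ν n` is a `MulEquiv`. We have
`ν (n+1) (ss Γ n x) = jj Γ.rev n (ν n x)` and `ν (n+1) (jj Γ n x) = ss Γ.rev n (ν n x)` (on generators, `Fin.rev_succ`, `Fin.rev_castSucc`).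
`s n = (ν n).symm (rr h' n)`. `ν (n+1) (jj Γ n (s n)) = ss Γ.rev n (rr h' n) = rr h' (n+1)` (`ss_rr`), so `jj Γ n (s n) = s (n+1)`.
`Split (ss Γ n) (s n)` is transported from `Split (jj Γ.rev n) (rr h' n)` (`xsplit h' n`): `z i = (ν (n+1)).symm (z' i)`, `kill`, `gen` (use `H.map (ν (n+1))` or `comap` of the inverse) and `univ` (`F = F'.comp (ν (n+1))`,
`f' = f.comp (ν n).symm`).
-/

set_option autoImplicit false

open scoped Classical

namespace Pool.Agent.LTree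

open Pool.Agent.LOTI

variable {V E : Type} [Fintype V] [Fintype E]

private theorem xrev_nu_ex (Γ : LOT V E) (n : ℕ) :
    ∃ F : XG Γ n →* XG Γ.rev n, ∀ d v, F (xg Γ n d v) = (xg Γ.rev n (Fin.rev d) v)⁻¹ := by
  refine xg_univ Γ n (fun d v => (xg Γ.rev n (Fin.rev d) v)⁻¹) ?_
  intro e d
  have h := xg_rel Γ.rev n e (Fin.rev d)
  have h1 : Γ.rev.init e = Γ.term e := rfl
  have h2 : Γ.rev.term e = Γ.init e := rfl
  have h3 : Γ.rev.lab e = Γ.lab e := rfl
  rw [h1, h2, h3] at h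
  rw [Fin.rev_succ, Fin.rev_castSucc, ← mul_inv_rev, ← mul_inv_rev, h]

private noncomputable def xrevNu (Γ : LOT V E) (n : ℕ) : XG Γ n →* XG Γ.rev n :=
  (xrev_nu_ex Γ n).choose

private theorem xrevNu_xg (Γ : LOT V E) (n : ℕ) (d : Fin (n + 1)) (v : V) :
    xrevNu Γ n (xg Γ n d v) = (xg Γ.rev n (Fin.rev d) v)⁻¹ :=
  (xrev_nu_ex Γ n).choose_spec d v

private theorem xrev_rev (Γ : LOT V E) : Γ.rev.rev = Γ := rfl

private noncomputable def xrevMu (Γ : LOT V E) (n : ℕ) : XG Γ.rev n →* XG Γ n :=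
  xrevNu Γ.rev n

private theorem xrevMu_xg (Γ : LOT V E) (n : ℕ) (d : Fin (n + 1)) (v : V) :
    xrevMu Γ n (xg Γ.rev n d v) = (xg Γ n (Fin.rev d) v)⁻¹ :=
  xrevNu_xg Γ.rev n d v

private theorem xrevMu_nu (Γ : LOT V E) (n : ℕ) (g : XG Γ n) :
    xrevMu Γ n (xrevNu Γ n g) = g := by
  have h := xg_ext Γ n (F := (xrevMu Γ n).comp (xrevNu Γ n)) (F' := MonoidHom.id _)
    (fun d v => by
      rw [MonoidHom.comp_apply, xrevNu_xg, map_inv, xrevMu_xg, inv_inv, Fin.rev_rev,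
        MonoidHom.id_apply]) g
  exact h

private theorem xrevNu_mu (Γ : LOT V E) (n : ℕ) (g : XG Γ.rev n) :
    xrevNu Γ n (xrevMu Γ n g) = g := by
  have h := xg_ext Γ.rev n (F := (xrevNu Γ n).comp (xrevMu Γ n)) (F' := MonoidHom.id _)
    (fun d v => by
      rw [MonoidHom.comp_apply, xrevMu_xg, map_inv, xrevNu_xg, inv_inv, Fin.rev_rev,
        MonoidHom.id_apply]) g
  exact h

/-- `μ (ss' x) = jj (μ x)` -/
private theorem xrevMu_ss (Γ : LOT V E) (n : ℕ) (g : XG Γ.rev n) :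
    xrevMu Γ (n + 1) (ss Γ.rev n g) = jj Γ n (xrevMu Γ n g) := by
  have h := xg_ext Γ.rev n (F := (xrevMu Γ (n + 1)).comp (ss Γ.rev n))
    (F' := (jj Γ n).comp (xrevMu Γ n))
    (fun d v => by
      rw [MonoidHom.comp_apply, MonoidHom.comp_apply, ss_xg, xrevMu_xg, xrevMu_xg, map_inv,
        jj_xg, Fin.rev_succ]) g
  exact h

/-- `μ (jj' x) = ss (μ x)` -/
private theorem xrevMu_jj (Γ : LOT V E) (n : ℕ) (g : XG Γ.rev n) :
    xrevMu Γ (n + 1) (jj Γ.rev n g) = ss Γ n (xrevMu Γ n g) := by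
  have h := xg_ext Γ.rev n (F := (xrevMu Γ (n + 1)).comp (jj Γ.rev n))
    (F' := (ss Γ n).comp (xrevMu Γ n))
    (fun d v => by
      rw [MonoidHom.comp_apply, MonoidHom.comp_apply, jj_xg, xrevMu_xg, xrevMu_xg, map_inv,
        ss_xg, Fin.rev_castSucc]) g
  exact h

theorem xrev {Γ : LOT V E} (h' : Two Γ.rev) :
    ∃ s : ∀ n, XG Γ n, (∀ n, Nonempty (Split (ss Γ n) (s n))) ∧
      ∀ n, jj Γ n (s n) = s (n + 1) := by
  refine ⟨fun n => xrevMu Γ n (rr h' n), ?_, ?_⟩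
  · intro n
    obtain ⟨S⟩ := xsplit h' n
    refine ⟨⟨fun i => xrevMu Γ (n + 1) (S.z i), ?_, ?_, ?_⟩⟩
    · rw [← xrevMu_jj, S.kill, map_one]
    · intro H hH hz
      have h1 : H.comap (xrevMu Γ (n + 1)) = ⊤ := by
        refine S.gen _ ?_ ?_
        · intro p
          rw [Subgroup.mem_comap, xrevMu_jj]
          exact hH _
        · intro i
          rw [Subgroup.mem_comap]
          exact hz i
      rw [eq_top_iff]
      intro x _
      have h2 : xrevNu Γ (n + 1) x ∈ H.comap (xrevMu Γ (n + 1)) := by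
        rw [h1]; trivial
      rw [Subgroup.mem_comap, xrevMu_nu] at h2
      exact h2
    · intro Y _ f u hf
      obtain ⟨F, hF1, hF2⟩ := S.univ Y (f.comp (xrevMu Γ n)) u hf
      refine ⟨F.comp (xrevNu Γ (n + 1)), ?_, ?_⟩
      · intro p
        have h1 : ss Γ n p = xrevMu Γ (n + 1) (jj Γ.rev n (xrevNu Γ n p)) := by
          rw [xrevMu_jj, xrevMu_nu]
        rw [MonoidHom.comp_apply, h1, xrevNu_mu, hF1, MonoidHom.comp_apply, xrevMu_nu]
      · intro i
        rw [MonoidHom.comp_apply, xrevNu_mu]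
        exact hF2 i
  · intro n
    show jj Γ n (xrevMu Γ n (rr h' n)) = xrevMu Γ (n + 1) (rr h' (n + 1))
    rw [← xrevMu_ss, ss_rr]

end Pool.Agent.LTree
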