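import Pool.Agent.Lib.LTree.Step
import Pool.Agent.Lib.LTree.XBas
import Pool.Agent.Lib.LTree.XRev
import Pool.Agent.Lib.LTree.HatX
import Pool.Agent.Lib.LTree.Comb

/-!
# LOT groups whose initial and terminal graphs have at most two components
-/

set_option autoImplicit false

open scoped Classical

namespace Pool.Agent.LTree

open Pool.Agent.LOTI

variable {V E : Type} [Fintype V] [Fintype E]

/-- all level groups are locally indicable -/
theorem levels (Γ : LOT V E) (h : Two Γ) (h' : Two Γ.rev) (n : ℕ) : LI (XG Γ n) := by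
  obtain ⟨s, hs1, hs2⟩ := xrev h'
  have key : ∀ n, LI (XG Γ n) ∧
      ¬ (AllEll (⊥ : Subgroup (XG Γ n)) (rr h n) ∧ AllEll (⊥ : Subgroup (XG Γ n)) (s n)) := by
    intro n
    induction n with
    | zero =>
      refine ⟨x0_LI Γ, fun hh => ?_⟩
      have := xg_fg Γ 0
      obtain ⟨φ, hφ, hr⟩ := exists_hom ℚ (jj Γ 0) (ss Γ 0) (rr h 0) (xsplit h 0).some
        (xg Γ 1 0 (h.b true)) (fun φ hφ hp h0 => xpencil Γ 0 (h.b true) ℚ φ hφ hp h0)
      have h1 : rr h 0 ≠ 1 := by
        intro h1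
        rw [h1] at hr
        have h2 := hφ 1 1
        rw [mul_one] at h2
        exact hr (by linarith)
      exact x0_hyp Γ _ h1 hh.1
    | succ n ih =>
      have := xg_fg Γ n
      have h1 := step ih.1 (jj Γ n) (ss Γ n) (rr h n) (s n) (xsplit h n).some (hs1 n).some
        (xg Γ (n + 1) 0 (h.b true))
        (fun k _ φ hφ hp h0 => xpencil Γ n (h.b true) k φ hφ hp h0) ih.2
      rw [ss_rr, hs2] at h1
      exact h1
  exact (key n).1

/-- the main theorem -/
theorem two_two_LI (Γ : LOT V E)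
    (hI : ∃ a b, ∀ v, Relation.EqvGen Γ.IAdj a v ∨ Relation.EqvGen Γ.IAdj b v)
    (hT : ∃ a b, ∀ v, Relation.EqvGen Γ.rev.IAdj a v ∨ Relation.EqvGen Γ.rev.IAdj b v) :
    LI Γ.Grp := by
  obtain ⟨a, b, hI⟩ := hI
  obtain ⟨a', b', hT⟩ := hT
  by_cases hab : Relation.EqvGen Γ.IAdj a b
  · refine conn_LI Γ fun v w => ?_
    have h1 : ∀ v, Relation.EqvGen Γ.IAdj a v := fun v => by
      rcases hI v with h | h
      · exact h
      · exact Relation.EqvGen.trans _ _ _ hab h
    exact Relation.EqvGen.trans _ _ _ (Relation.EqvGen.symm _ _ (h1 v)) (h1 w)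
  by_cases hab' : Relation.EqvGen Γ.rev.IAdj a' b'
  · refine Γ.LI_of_rev (conn_LI Γ.rev fun v w => ?_)
    have h1 : ∀ v, Relation.EqvGen Γ.rev.IAdj a' v := fun v => by
      rcases hT v with h | h
      · exact h
      · exact Relation.EqvGen.trans _ _ _ hab' h
    exact Relation.EqvGen.trans _ _ _ (Relation.EqvGen.symm _ _ (h1 v)) (h1 w)
  obtain ⟨h⟩ := exists_two Γ a b hab hI
  obtain ⟨h'⟩ := exists_two Γ.rev a' b' hab' hT
  exact Γ.LI_of_hat (hat_of_levels Γ (levels Γ h h'))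

end Pool.Agent.LTree
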