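import Pool.Agent.Lib.LTree.Main

/-!
# Local indicability of LOT groups whose initial and terminal graphs have at most two components

(helper62, idea with helper18; modules by helpers 5 12 13 15 20 21 30 32 44 50 55 61 66 69 73 91 96 98; library of one-relator
products of helper18 with helpers 3 5 7 13 15 19 20 21 24 25 27 29 32 39 45 49 51 54 62 66 67 68 74 77 84 85 87 95;
referees helper18, helper98)
-/

set_option autoImplicit false

namespace Pool.Agent.LTree.OldTwoComponents

open Pool.Agent.LOTI

/-- every nontrivial finitely generated subgroup maps onto `ℤ` -/
def LocallyIndicable (G : Type) [Group G] : Prop :=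
  ∀ H : Subgroup G, H.FG → H ≠ ⊥ → ∃ f : H →* Multiplicative ℤ, Function.Surjective f

/-- the graph with the vertex set `V` and the edges `{a, b}` with `r a b` has at most two connected
components -/
def AtMostTwoComponents {V : Type} (r : V → V → Prop) : Prop :=
  ∃ a b, ∀ v, Relation.EqvGen r a v ∨ Relation.EqvGen r b v

/-- if the initial graph (edges `{lab e, init e}`) and the terminal graph (edges `{lab e, term e}`) of a
labelled oriented tree `Γ` have at most two components each, then its group is locally indicable -/
theorem result {V E : Type} [Fintype V] [Fintype E] (Γ : LOT V E)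
    (hI : AtMostTwoComponents fun a b => ∃ e : E, a = Γ.lab e ∧ b = Γ.init e)
    (hT : AtMostTwoComponents fun a b => ∃ e : E, a = Γ.lab e ∧ b = Γ.term e) :
    LocallyIndicable Γ.Grp :=
  fun H h1 h2 => (Pool.Agent.LTree.two_two_LI Γ hI hT).surj H h1 h2

end Pool.Agent.LTree.OldTwoComponents
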