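import Pool.Agent.Lib.LTree.Exch
import Pool.Agent.Lib.LTree.Ext
import Pool.Agent.Lib.LTree.Homs

/-!
# The induction step
-/

set_option autoImplicit false

open scoped Classical

namespace Pool.Agent.LTree

open Pool.Agent.LOTI

variable {P A : Type} [Group P] [Group A]

/-- the coordinate functions of the free generators -/
private theorem zfun (k : Type) [Field k] (σ : P →* A) (s : P) (hσ : Split σ s) (i : Bool) :
    ∃ ζ ∈ DD k (⊥ : Subgroup A), (∀ p, ζ (σ p) = 0) ∧
      ∀ i', ζ (hσ.z i') = if i = i' then 1 else 0 := by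
  obtain ⟨F, hF, hz⟩ := hσ.univ (Multiplicative k) 1
    (fun i' => Multiplicative.ofAdd (if i = i' then 1 else 0)) rfl
  refine ⟨fun a => (F a).toAdd, ?_, fun p => ?_, fun i' => ?_⟩
  · obtain ⟨T, hT, -, -, h4⟩ := bs σ s hσ
    obtain ⟨μ, hμ⟩ := h4 k (fun a => (F a).toAdd)
      (fun g h => by
        show (F (g * h)).toAdd = _
        rw [map_mul, toAdd_mul])
      (fun p => by
        show (F (σ p)).toAdd = 0
        rw [hF]
        rfl)
    exact Submodule.subset_span ⟨T, hT, μ, hμ⟩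
  · show (F (σ p)).toAdd = 0
    rw [hF]
    rfl
  · show (F (hσ.z i')).toAdd = _
    rw [hz, toAdd_ofAdd]

private theorem contra [Group.FG P] (k : Type) [Field k] (j σ : P →* A) (r s : P)
    (hj : Split j r) (hσ : Split σ s) (a₀ : A)
    (pencil : ∀ φ ∈ HH k A, (∀ p, φ (j p) = φ (σ p)) → φ a₀ = 0 → φ = 0)
    (h : DD k (Subgroup.normalClosure ({r} : Set P)) ≤
      DD k (Subgroup.normalClosure ({s} : Set P))) : False := by
  have : Group.FG A := split_fg j r hj
  have := hh_fd (P := A) k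
  have := hh_fd (P := P) k
  have : FiniteDimensional k (DD k (⊥ : Subgroup A)) :=
    Submodule.finiteDimensional_of_le (dd_le k ⊥)
  have : FiniteDimensional k (DD k (Subgroup.normalClosure ({s} : Set P))) :=
    Submodule.finiteDimensional_of_le (dd_le k _)
  choose ζ h3 h4 h5 using zfun k σ s hσ
  have key1 : ∀ φ ∈ DD k (⊥ : Subgroup A), (fun p => φ (σ p)) ∈
      DD k (Subgroup.normalClosure ({s} : Set P)) := by
    intro φ hφ
    have := dd_res σ φ hφ
    rwa [split_ker σ s hσ] at this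
  have key2 : ∀ φ ∈ DD k (⊥ : Subgroup A), (fun p => φ (j p)) ∈
      DD k (Subgroup.normalClosure ({s} : Set P)) := by
    intro φ hφ
    have := dd_res j φ hφ
    rw [split_ker j r hj] at this
    exact h this
  have d1 := dd_dim σ (Subgroup.normalClosure ({s} : Set P)) ζ hσ.z key1
    (fun φ hφ => dd_ext σ s hσ φ hφ) h3 h4 h5
  have d2 := dd_pencil j σ (DD k (⊥ : Subgroup A)) (DD k (Subgroup.normalClosure ({s} : Set P))) a₀
    (fun φ hφ => ⟨key2 φ hφ, key1 φ hφ⟩) (fun φ hφ => pencil φ (dd_le k ⊥ hφ))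
  omega

theorem step [Group.FG P] (hP : LI P) (j σ : P →* A) (r s : P) (hj : Split j r)
    (hσ : Split σ s) (a₀ : A)
    (pencil : ∀ (k : Type) [Field k], ∀ φ ∈ HH k A, (∀ p, φ (j p) = φ (σ p)) → φ a₀ = 0 → φ = 0)
    (hns : ¬ (AllEll (⊥ : Subgroup P) r ∧ AllEll (⊥ : Subgroup P) s)) :
    LI A ∧ ¬ (AllEll (⊥ : Subgroup A) (σ r) ∧ AllEll (⊥ : Subgroup A) (j s)) := by
  have hr : NPow r := npow_of r (fun p hp => by
    let _ := Fact.mk hp
    exact exists_hom (ZMod p) j σ r hj a₀ (pencil (ZMod p)))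
  have hs : NPow s := npow_of s (fun p hp => by
    let _ := Fact.mk hp
    exact exists_hom (ZMod p) σ j s hσ a₀
      (fun φ hφ h => pencil (ZMod p) φ hφ (fun q => (h q).symm)))
  refine ⟨?_, ?_⟩
  · rw [not_and_or] at hns
    rcases hns with h | h
    · unfold AllEll at h
      push Not at h
      obtain ⟨T, hT, hT'⟩ := h
      exact split_LI j r hj (ft hP T hT r hT' hr).1
    · unfold AllEll at h
      push Not at h
      obtain ⟨T, hT, hT'⟩ := h
      exact split_LI σ s hσ (ft hP T hT s hT' hs).1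
  · rintro ⟨h1, h2⟩
    rcases exchange ℚ hP r s hr hs (allEll_ext j r hj s h2) (allEll_ext σ s hσ r h1) hns with h | h
    · exact contra ℚ j σ r s hj hσ a₀ (pencil ℚ) h
    · exact contra ℚ σ j s r hσ hj a₀ (fun φ hφ h => pencil ℚ φ hφ (fun q => (h q).symm)) h

end Pool.Agent.LTree
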