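import Pool.Agent.Lib.LTree.Defs

/-!
# Trees : paths and potentials
-/

set_option autoImplicit false

open scoped Classical

namespace Pool.Agent.LTree

open Pool.Agent.LOTI

namespace GTree

variable {G : Type} [Group G] {T : GTree G}

/-- the inverse step -/
theorem src_not (a : T.E) (b : Bool) : T.src (a, !b) = T.tgt (a, b) := by
  cases b <;> rfl

theorem tgt_not (a : T.E) (b : Bool) : T.tgt (a, !b) = T.src (a, b) := by
  cases b <;> rfl

theorem src_smul (g : G) (a : T.E) (b : Bool) : T.src (g • a, b) = g • T.src (a, b) := by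
  cases b
  · exact T.t_smul g a
  · exact T.o_smul g a

theorem tgt_smul (g : G) (a : T.E) (b : Bool) : T.tgt (g • a, b) = g • T.tgt (a, b) := by
  cases b
  · exact T.o_smul g a
  · exact T.t_smul g a

theorem W_append {v w : T.V} {L L' : List (T.E × Bool)} :
    T.W v (L ++ L') w ↔ ∃ u, T.W v L u ∧ T.W u L' w := by
  induction L generalizing v with
  | nil =>
    constructor
    · intro h; exact ⟨v, rfl, h⟩
    · rintro ⟨u, h1, h2⟩
      have h3 : v = u := h1
      subst h3
      exact h2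
  | cons s L ih =>
    constructor
    · rintro ⟨h1, h2⟩
      obtain ⟨u, h3, h4⟩ := ih.1 h2
      exact ⟨u, ⟨h1, h3⟩, h4⟩
    · rintro ⟨u, ⟨h1, h3⟩, h4⟩
      exact ⟨h1, ih.2 ⟨u, h3, h4⟩⟩

theorem W_smul (g : G) {v w : T.V} {L : List (T.E × Bool)} (h : T.W v L w) :
    T.W (g • v) (L.map fun s => (g • s.1, s.2)) (g • w) := by
  induction L generalizing v with
  | nil => exact congrArg (g • ·) (show v = w from h)
  | cons s L ih =>
    obtain ⟨h1, h2⟩ := h
    refine ⟨?_, ?_⟩
    · rw [h1]; exact (src_smul g s.1 s.2).symm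
    · have h3 := ih h2
      have h4 : T.tgt (g • s.1, s.2) = g • T.tgt s := tgt_smul g s.1 s.2
      rw [← h4] at h3
      exact h3

/-- the image of a path under a map of trees -/
theorem Hom.W {S : GTree G} (f : T.Hom S) {v w : T.V} {L : List (T.E × Bool)} (h : T.W v L w) :
    S.W (f.fV v) (L.map fun s => (f.fE s.1, s.2)) (f.fV w) := by
  induction L generalizing v with
  | nil => exact congrArg f.fV (show v = w from h)
  | cons s L ih =>
    obtain ⟨h1, h2⟩ := h
    obtain ⟨a, b⟩ := s
    have h3 := ih h2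
    refine ⟨?_, ?_⟩
    · rw [h1]
      cases b
      · exact f.fV_t a
      · exact f.fV_o a
    · have h4 : f.fV (T.tgt (a, b)) = S.tgt (f.fE a, b) := by
        cases b
        · exact f.fV_o a
        · exact f.fV_t a
      rw [h4] at h3
      exact h3

theorem W_rev {v w : T.V} {L : List (T.E × Bool)} (h : T.W v L w) :
    ∃ L', T.W w L' v := by
  induction L generalizing v with
  | nil => exact ⟨[], (show v = w from h).symm⟩
  | cons s L ih =>
    obtain ⟨h1, h2⟩ := h
    obtain ⟨L', h3⟩ := ih h2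
    refine ⟨L' ++ [(s.1, !s.2)], W_append.2 ⟨_, h3, ?_, ?_⟩⟩
    · exact (src_not s.1 s.2).symm
    · show T.tgt (s.1, !s.2) = v
      rw [h1]
      exact tgt_not s.1 s.2

theorem exists_W (v w : T.V) : ∃ L, T.W v L w := by
  have h := T.conn v w
  induction h with
  | rel a b h =>
    obtain ⟨e, rfl, rfl⟩ := h
    exact ⟨[(e, true)], rfl, rfl⟩
  | refl a => exact ⟨[], rfl⟩
  | symm a b _ ih =>
    obtain ⟨L, hL⟩ := ih
    exact W_rev hL
  | trans a b c _ _ ih1 ih2 =>
    obtain ⟨L, hL⟩ := ih1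
    obtain ⟨L', hL'⟩ := ih2
    exact ⟨L ++ L', W_append.2 ⟨b, hL, hL'⟩⟩

/-- the values of a potential along a path -/
theorem W_pot {X : Type} [Group X] {u : T.E → X} {μ : T.V → X}
    (hμ : ∀ e, μ (T.t e) = μ (T.o e) * u e) {v w : T.V} {L : List (T.E × Bool)}
    (h : T.W v L w) : μ w = μ v * FreeGroup.lift u (FreeGroup.mk L) := by
  induction L generalizing v with
  | nil =>
    have h1 : v = w := h
    rw [h1, ← FreeGroup.one_eq_mk, map_one, mul_one]
  | cons s L ih =>
    obtain ⟨h1, h2⟩ := h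
    obtain ⟨a, b⟩ := s
    have h3 : FreeGroup.mk ((a, b) :: L) = FreeGroup.mk [(a, b)] * FreeGroup.mk L := by
      rw [FreeGroup.mul_mk]; rfl
    rw [ih h2, h3, map_mul, ← mul_assoc, h1]
    congr 1
    rw [FreeGroup.lift_mk]
    cases b
    · show μ (T.o a) = μ (T.t a) * ([(u a)⁻¹] : List X).prod
      rw [List.prod_singleton, hμ, mul_inv_cancel_right]
    · show μ (T.t a) = μ (T.o a) * ([u a] : List X).prod
      rw [List.prod_singleton, hμ]

/-- potentials with values in an arbitrary group -/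
theorem exists_pot (T : GTree G) {X : Type} [Group X] (u : T.E → X) :
    ∃ μ : T.V → X, ∀ e, μ (T.t e) = μ (T.o e) * u e := by
  obtain ⟨μ, hμ⟩ := T.pot
  refine ⟨fun v => FreeGroup.lift u (μ v), fun e => ?_⟩
  show FreeGroup.lift u (μ (T.t e)) = FreeGroup.lift u (μ (T.o e)) * u e
  rw [hμ, map_mul, FreeGroup.lift_apply_of]

/-- two potentials differ by a constant -/
theorem pot_unique {X : Type} [Group X] {u : T.E → X} {μ μ' : T.V → X}
    (hμ : ∀ e, μ (T.t e) = μ (T.o e) * u e) (hμ' : ∀ e, μ' (T.t e) = μ' (T.o e) * u e)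
    (v w : T.V) : μ' w * (μ w)⁻¹ = μ' v * (μ v)⁻¹ := by
  obtain ⟨L, hL⟩ := exists_W v w
  rw [W_pot hμ hL, W_pot hμ' hL]
  group

theorem W_step {v w : T.V} {L L' : List (T.E × Bool)} (hr : FreeGroup.Red.Step L L')
    (h : T.W v L w) : T.W v L' w := by
  cases hr with
  | @not L₁ L₂ x b =>
    rw [W_append] at h
    obtain ⟨u, h1, h2, h3, h4⟩ := h
    refine W_append.2 ⟨u, h1, ?_⟩
    have h5 : T.tgt (x, !b) = u := by rw [h2]; exact tgt_not x b
    rw [h5] at h4
    exact h4

theorem W_red {v w : T.V} {L L' : List (T.E × Bool)} (hr : FreeGroup.Red L L')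
    (h : T.W v L w) : T.W v L' w := by
  induction hr with
  | refl => exact h
  | tail _ h1 ih => exact W_step h1 ih

/-- a path whose value is trivial is closed -/
theorem eq_of_mk_one {v w : T.V} {L : List (T.E × Bool)} (h : T.W v L w)
    (h1 : FreeGroup.mk L = 1) : v = w := by
  rw [FreeGroup.one_eq_mk, FreeGroup.Red.exact] at h1
  obtain ⟨M, hM, hM'⟩ := h1
  have h2 : M = [] := FreeGroup.Red.nil_iff.1 hM'
  subst h2
  exact W_red hM h

/-- a closed path has trivial value -/
theorem mk_one_of_closed {v : T.V} {L : List (T.E × Bool)} (h : T.W v L v) :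
    FreeGroup.mk L = 1 := by
  obtain ⟨μ, hμ⟩ := T.pot
  have h1 := W_pot hμ h
  have h2 : FreeGroup.lift FreeGroup.of (FreeGroup.mk L) = 1 := by
    have := h1.symm
    rwa [mul_eq_left] at this
  rwa [FreeGroup.lift_of_apply] at h2

/-- the potential into the free group is injective -/
theorem pot_injective {μ : T.V → FreeGroup T.E}
    (hμ : ∀ e, μ (T.t e) = μ (T.o e) * FreeGroup.of e) : Function.Injective μ := by
  intro v w hvw
  obtain ⟨L, hL⟩ := exists_W v w
  refine eq_of_mk_one hL ?_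
  have h1 := W_pot hμ hL
  rw [hvw] at h1
  have h2 := h1.symm
  rw [mul_eq_left, FreeGroup.lift_of_apply] at h2
  exact h2

end GTree

/-- a non-empty word with trivial image contains two letters which cancel in the image -/
theorem exists_cancel {E F : Type} (f : E → F) (L : List (E × Bool)) (hL : L ≠ [])
    (h : FreeGroup.mk (L.map fun s => (f s.1, s.2)) = 1) :
    ∃ L₁ a a' b L₂, L = L₁ ++ (a, b) :: (a', !b) :: L₂ ∧ f a = f a' := by
  by_contra hcon
  have hred : FreeGroup.IsReduced (L.map fun s => (f s.1, s.2)) := by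
    refine FreeGroup.IsReduced.of_forall_not_step ?_
    intro M hM
    generalize hN : (L.map fun s => (f s.1, s.2)) = N at hM
    cases hM with
    | @not N₁ N₂ x b =>
      obtain ⟨L₁, L₃, h1, h2, h3⟩ := List.map_eq_append_iff.1 hN
      obtain ⟨s, L₄, h4, h5, h6⟩ := List.map_eq_cons_iff.1 h3
      obtain ⟨s', L₂, h7, h8, h9⟩ := List.map_eq_cons_iff.1 h6
      apply hcon
      obtain ⟨a, c⟩ := s
      obtain ⟨a', c'⟩ := s'
      simp only [Prod.mk.injEq] at h5 h8
      refine ⟨L₁, a, a', b, L₂, ?_, ?_⟩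
      · rw [h1, h4, h7, h5.2, h8.2]
      · rw [h5.1, h8.1]
  rw [FreeGroup.one_eq_mk, FreeGroup.Red.exact] at h
  obtain ⟨M, hM, hM'⟩ := h
  have h2 : M = [] := FreeGroup.Red.nil_iff.1 hM'
  subst h2
  have h3 := hred.red_iff_eq.1 hM
  exact hL (List.map_eq_nil_iff.1 h3.symm)

end Pool.Agent.LTree
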