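import Pool.Agent.Lib.LOTI.Emb
import Pool.Agent.Lib.LTree.Defs

/-!
# The groups of finitely many levels of the infinite cyclic cover of a LOT complex

`Γ.XG n` is generated by `x (v, d)`, `d ≤ n`, with the relations
`x (init e, d + 1) x (lab e, d) = x (lab e, d + 1) x (term e, d)`, `d < n`.
-/

set_option autoImplicit false

open scoped Classical

namespace Pool.Agent.LTree

open Pool.Agent.LOTI

variable {V E : Type} [Fintype V] [Fintype E]

/-- the relators of the group of the levels `0, …, n` -/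
def xrels (Γ : LOT V E) (n : ℕ) : Set (FreeGroup (V × Fin (n + 1))) :=
  {r | ∃ (e : E) (d : Fin n), r =
    FreeGroup.of (Γ.init e, d.succ) * FreeGroup.of (Γ.lab e, d.castSucc) *
      (FreeGroup.of (Γ.lab e, d.succ) * FreeGroup.of (Γ.term e, d.castSucc))⁻¹}

/-- the group of the levels `0, …, n` -/
abbrev XG (Γ : LOT V E) (n : ℕ) : Type := PresentedGroup (xrels Γ n)

/-- the generators -/
def xg (Γ : LOT V E) (n : ℕ) (d : Fin (n + 1)) (v : V) : XG Γ n := PresentedGroup.of (v, d)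

theorem xg_rel (Γ : LOT V E) (n : ℕ) (e : E) (d : Fin n) :
    xg Γ n d.succ (Γ.init e) * xg Γ n d.castSucc (Γ.lab e) =
      xg Γ n d.succ (Γ.lab e) * xg Γ n d.castSucc (Γ.term e) := by
  have h : (PresentedGroup.mk (xrels Γ n)) (FreeGroup.of (Γ.init e, d.succ) *
      FreeGroup.of (Γ.lab e, d.castSucc) *
      (FreeGroup.of (Γ.lab e, d.succ) * FreeGroup.of (Γ.term e, d.castSucc))⁻¹) = 1 :=
    PresentedGroup.one_of_mem ⟨e, d, rfl⟩
  rw [map_mul, map_inv, mul_inv_eq_one, map_mul, map_mul] at h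
  exact h

theorem xg_univ (Γ : LOT V E) (n : ℕ) {Y : Type} [Group Y] (f : Fin (n + 1) → V → Y)
    (hf : ∀ (e : E) (d : Fin n), f d.succ (Γ.init e) * f d.castSucc (Γ.lab e) =
      f d.succ (Γ.lab e) * f d.castSucc (Γ.term e)) :
    ∃ F : XG Γ n →* Y, ∀ d v, F (xg Γ n d v) = f d v := by
  have h : ∀ r ∈ xrels Γ n, FreeGroup.lift (fun p : V × Fin (n + 1) => f p.2 p.1) r = 1 := by
    rintro r ⟨e, d, rfl⟩
    rw [map_mul, map_inv, mul_inv_eq_one, map_mul, map_mul]
    simp only [FreeGroup.lift_apply_of]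
    exact hf e d
  exact ⟨PresentedGroup.toGroup h, fun d v => PresentedGroup.toGroup.of h⟩

theorem xg_gen (Γ : LOT V E) (n : ℕ) (H : Subgroup (XG Γ n)) (h : ∀ d v, xg Γ n d v ∈ H) :
    H = ⊤ := by
  rw [eq_top_iff, ← PresentedGroup.closure_range_of (xrels Γ n), Subgroup.closure_le]
  rintro _ ⟨⟨v, d⟩, rfl⟩
  exact h d v

theorem xg_ext (Γ : LOT V E) (n : ℕ) {Y : Type} [Group Y] {F F' : XG Γ n →* Y}
    (h : ∀ d v, F (xg Γ n d v) = F' (xg Γ n d v)) (g : XG Γ n) : F g = F' g := by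
  have h1 : F = F' := PresentedGroup.ext fun p => h p.2 p.1
  rw [h1]

/-- the inclusion of the levels `0, …, n` -/
noncomputable def jj (Γ : LOT V E) (n : ℕ) : XG Γ n →* XG Γ (n + 1) :=
  (xg_univ Γ n (fun d v => xg Γ (n + 1) d.castSucc v)
    (fun e d => xg_rel Γ (n + 1) e d.castSucc)).choose

theorem jj_xg (Γ : LOT V E) (n : ℕ) (d : Fin (n + 1)) (v : V) :
    jj Γ n (xg Γ n d v) = xg Γ (n + 1) d.castSucc v :=
  (xg_univ Γ n (fun d v => xg Γ (n + 1) d.castSucc v)
    (fun e d => xg_rel Γ (n + 1) e d.castSucc)).choose_spec d v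

/-- the shift `d ↦ d + 1` -/
noncomputable def ss (Γ : LOT V E) (n : ℕ) : XG Γ n →* XG Γ (n + 1) :=
  (xg_univ Γ n (fun d v => xg Γ (n + 1) d.succ v)
    (fun e d => xg_rel Γ (n + 1) e d.succ)).choose

theorem ss_xg (Γ : LOT V E) (n : ℕ) (d : Fin (n + 1)) (v : V) :
    ss Γ n (xg Γ n d v) = xg Γ (n + 1) d.succ v :=
  (xg_univ Γ n (fun d v => xg Γ (n + 1) d.succ v)
    (fun e d => xg_rel Γ (n + 1) e d.succ)).choose_spec d v

/-- `e ↦ f (term e) (f (lab e))⁻¹` -/
def TT (Γ : LOT V E) {X : Type} [Group X] (f : V → X) : FreeGroup E →* X :=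
  FreeGroup.lift fun e => f (Γ.term e) * (f (Γ.lab e))⁻¹

/-- `e ↦ (f (lab e))⁻¹ f (init e)` -/
def II (Γ : LOT V E) {X : Type} [Group X] (f : V → X) : FreeGroup E →* X :=
  FreeGroup.lift fun e => (f (Γ.lab e))⁻¹ * f (Γ.init e)

/-- data for a LOT whose initial graph has two components: `κ` numbers the components, `l` is the
cycle of the initial graph and `g` a potential modulo `l` -/
structure Two (Γ : LOT V E) where
  κ : V → Bool
  b : Bool → V
  hb : ∀ i, κ (b i) = i
  g : V → FreeGroup E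
  l : FreeGroup E
  hκ : ∀ e, κ (Γ.lab e) = κ (Γ.init e)
  pot : ∀ (X : Type) [Group X] (f : FreeGroup E →* X), f l = 1 →
    ∀ e, f (g (Γ.init e)) = f (g (Γ.lab e)) * f (FreeGroup.of e)
  const : ∀ (X : Type) [Group X] (f : V → X) (v w : V), κ v = κ w →
    f v * (II Γ f (g v))⁻¹ = f w * (II Γ f (g w))⁻¹
  closed : ∀ (X : Type) [Group X] (f : V → X), II Γ f l = 1

/-- the relator of the last level -/
def rr {Γ : LOT V E} (h : Two Γ) (n : ℕ) : XG Γ n := TT Γ (xg Γ n (Fin.last n)) h.l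

theorem map_TT (Γ : LOT V E) {X Y : Type} [Group X] [Group Y] (F : X →* Y) (f : V → X)
    (w : FreeGroup E) : F (TT Γ f w) = TT Γ (fun v => F (f v)) w := by
  have h : (F.comp (TT Γ f)) = TT Γ (fun v => F (f v)) := by
    apply FreeGroup.ext_hom
    intro e
    simp [TT]
  rw [← h]
  rfl

theorem map_II (Γ : LOT V E) {X Y : Type} [Group X] [Group Y] (F : X →* Y) (f : V → X)
    (w : FreeGroup E) : F (II Γ f w) = II Γ (fun v => F (f v)) w := by
  have h : (F.comp (II Γ f)) = II Γ (fun v => F (f v)) := by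
    apply FreeGroup.ext_hom
    intro e
    simp [II]
  rw [← h]
  rfl

/-- the shift maps the relator of the last level to the relator of the last level -/
theorem ss_rr {Γ : LOT V E} (h : Two Γ) (n : ℕ) : ss Γ n (rr h n) = rr h (n + 1) := by
  unfold rr
  rw [map_TT]
  congr 1
  congr 1
  funext v
  rw [ss_xg, Fin.succ_last]

end Pool.Agent.LTree
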