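import Pool.Agent.Lib.LTree.XDefs

/-!
# `XG (n + 1) = XG n / <<r_n>> * F(z)`

Write `x = xg Γ n (Fin.last n) : V → XG Γ n` (last level), `x' = xg Γ (n+1) (Fin.last (n+1))` (new level), `T = TT Γ x`, `I' = II Γ x'`, `T' = TT Γ (fun v => jj Γ n (x v))`. The relations of the last pair of levels
(`xg_rel Γ (n+1) e (Fin.last n)`, `(Fin.last n).succ = Fin.last (n+1)`) say `x' (init e) * jj (x (lab e)) = x' (lab e) * jj (x (term e))`, i.e. `(x' (lab e))⁻¹ * x' (init e) = jj (x (term e)) * (jj (x (lab e)))⁻¹`: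
`I' = T'` as homomorphisms `FreeGroup E →* XG Γ (n+1)`, and `T' w = jj (T w)` (`map_TT`).
PROOF. `z i = x' (b i) * (I' (g (b i)))⁻¹`.
* `kill`: `jj (T l) = T' l = I' l = 1` (`h.closed`).
* `gen`: by `h.const` with `f = x'`, `v`, `b (κ v)` : `x' v = z (κ v) * I' (g v) = z (κ v) * jj (T (g v)) ∈ H`; the other generators are `jj` of generators (`jj_xg`); `xg_gen` (a level of `Fin (n + 2)` is
  `d.castSucc` or `Fin.last (n+1)`: `Fin.lastCases`).
* `univ`: given `f : XG Γ n →* Y` with `f (T l) = 1`, `u`: apply `xg_univ Γ (n+1)` to `d.castSucc, v ↦ f (xg Γ n d v)`, `Fin.last (n+1), v ↦ u (κ v) * f (T (g v))` (`Fin.lastCases`). The relations at `d.castSucc.succ` are those of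
  `XG Γ n`; the last one: `(u (κ (lab e)) * f (T (g (lab e))))⁻¹ * (u (κ (init e)) * f (T (g (init e)))) = (f (T (g (lab e))))⁻¹ * f (T (g (init e))) = f (T (of e))` by `h.hκ` and `h.pot` for `f.comp T`,
  and `f (T (of e)) = f (x (term e)) * (f (x (lab e)))⁻¹`. `F (z i) = u (κ (b i)) * f (T (g (b i))) * (F (I' (g (b i))))⁻¹` and `F (I' w) = F (jj (T w)) = f (T w)`.
-/

set_option autoImplicit false

open scoped Classical

namespace Pool.Agent.LTree

open Pool.Agent.LOTI

variable {V E : Type} [Fintype V] [Fintype E]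

private theorem II_eq (Γ : LOT V E) (n : ℕ) :
    II Γ (xg Γ (n + 1) (Fin.last (n + 1))) = TT Γ (fun v => jj Γ n (xg Γ n (Fin.last n) v)) := by
  apply FreeGroup.ext_hom
  intro e
  have h := xg_rel Γ (n + 1) e (Fin.last n)
  rw [Fin.succ_last] at h
  simp only [II, TT, FreeGroup.lift_apply_of, jj_xg]
  rw [inv_mul_eq_iff_eq_mul, ← mul_assoc, eq_mul_inv_iff_mul_eq]
  exact h

private theorem II_eq' (Γ : LOT V E) (n : ℕ) (w : FreeGroup E) :
    II Γ (xg Γ (n + 1) (Fin.last (n + 1))) w = jj Γ n (TT Γ (xg Γ n (Fin.last n)) w) := by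
  rw [II_eq, map_TT]

theorem xsplit {Γ : LOT V E} (h : Two Γ) (n : ℕ) : Nonempty (Split (jj Γ n) (rr h n)) := by
  refine ⟨{
    z := fun i => xg Γ (n + 1) (Fin.last (n + 1)) (h.b i) *
      (II Γ (xg Γ (n + 1) (Fin.last (n + 1))) (h.g (h.b i)))⁻¹
    kill := ?_
    gen := ?_
    univ := ?_ }⟩
  · unfold rr
    rw [← II_eq', h.closed]
  · intro H h1 h2
    refine xg_gen Γ (n + 1) H fun d v => ?_
    induction d using Fin.lastCases with
    | last =>
      have h3 := h.const _ (xg Γ (n + 1) (Fin.last (n + 1))) v (h.b (h.κ v)) (h.hb _).symm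
      have h4 : xg Γ (n + 1) (Fin.last (n + 1)) v =
          (xg Γ (n + 1) (Fin.last (n + 1)) (h.b (h.κ v)) *
            (II Γ (xg Γ (n + 1) (Fin.last (n + 1))) (h.g (h.b (h.κ v))))⁻¹) *
          II Γ (xg Γ (n + 1) (Fin.last (n + 1))) (h.g v) := by
        rw [← h3, inv_mul_cancel_right]
      rw [h4]
      refine H.mul_mem (h2 _) ?_
      rw [II_eq']
      exact h1 _
    | cast d =>
      rw [← jj_xg]
      exact h1 _
  · intro Y _ f u hf
    have hfT : (f.comp (TT Γ (xg Γ n (Fin.last n)))) h.l = 1 := hf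
    have hpot := h.pot Y (f.comp (TT Γ (xg Γ n (Fin.last n)))) hfT
    obtain ⟨F, hF⟩ := xg_univ Γ (n + 1) (Y := Y)
      (fun d => Fin.lastCases (motive := fun _ => V → Y)
        (fun v => u (h.κ v) * (f.comp (TT Γ (xg Γ n (Fin.last n)))) (h.g v))
        (fun d v => f (xg Γ n d v)) d) (by
      intro e d
      induction d using Fin.lastCases with
      | last =>
        rw [Fin.succ_last]
        simp only [Fin.lastCases_last, Fin.lastCases_castSucc]
        rw [hpot e, h.hκ e]
        simp only [MonoidHom.comp_apply, TT, FreeGroup.lift_apply_of, map_mul, map_inv]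
        group
      | cast d =>
        rw [Fin.succ_castSucc]
        simp only [Fin.lastCases_castSucc]
        rw [← map_mul, ← map_mul, xg_rel])
    have hFj : ∀ p, F (jj Γ n p) = f p := by
      intro p
      refine xg_ext Γ n (F := F.comp (jj Γ n)) (F' := f) ?_ p
      intro d v
      rw [MonoidHom.comp_apply, jj_xg, hF]
      simp only [Fin.lastCases_castSucc]
    refine ⟨F, hFj, fun i => ?_⟩
    rw [map_mul, map_inv, II_eq', hFj, hF]
    simp only [Fin.lastCases_last, MonoidHom.comp_apply]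
    rw [mul_inv_cancel_right, h.hb]

end Pool.Agent.LTree
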